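import Pool.Agent.Helper23.Basic
import Pool.Agent.Helper23.RBFDefs2

/-!
# Project BC, module 17: reduction to the standard form
-/

open scoped InnerProductSpace Topology
open ContinuousLinearMap Filter
open Pool.Agent.Helper23 Pool.Agent.Helper23.RBF

namespace Pool.Agent.Helper78.BC

universe u

namespace Transport

variable {H : Type u} [NormedAddCommGroup H] [InnerProductSpace ℂ H] [CompleteSpace H]
variable {K : Type u} [NormedAddCommGroup K] [InnerProductSpace ℂ K] [CompleteSpace K]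

/-- The compression of an operator. -/
noncomputable def r (i : K →L[ℂ] H) (x : H →L[ℂ] H) : K →L[ℂ] K := adjoint i ∘L (x ∘L i)

/-- The hypotheses: `i` is an isometry onto the closure of `A ξ`. -/
structure Sub (A : VonNeumannAlgebra H) (ξ : H) (i : K →L[ℂ] H) (κ : K) : Prop where
  isom : ∀ k, adjoint i (i k) = k
  inv : ∀ x ∈ A, ∀ k, i (adjoint i (x (i k))) = x (i k)
  vec : i κ = ξ
  cyc : ∀ (k : K) (ε : ℝ), 0 < ε → ∃ a ∈ A, ‖a ξ - i k‖ < ε

variable {A : VonNeumannAlgebra H} {ξ : H} {i : K →L[ℂ] H} {κ : K}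

lemma r_apply (x : H →L[ℂ] H) (k : K) : r i x k = adjoint i (x (i k)) := rfl

lemma inner_i (k : K) (v : H) : ⟪i k, v⟫_ℂ = ⟪k, adjoint i v⟫_ℂ := (adjoint_inner_right i k v).symm

lemma inner_i' (k : K) (v : H) : ⟪v, i k⟫_ℂ = ⟪adjoint i v, k⟫_ℂ := (adjoint_inner_left i k v).symm

namespace Sub

variable (S : Sub A ξ i κ)
include S

lemma i_norm (k : K) : ‖i k‖ = ‖k‖ := by
  have h : ⟪i k, i k⟫_ℂ = ⟪k, k⟫_ℂ := by rw [inner_i, S.isom]
  rw [inner_self_eq_norm_sq_to_K, inner_self_eq_norm_sq_to_K] at h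
  have h2 : ‖i k‖ ^ 2 = ‖k‖ ^ 2 := by exact_mod_cast h
  exact (sq_eq_sq₀ (norm_nonneg _) (norm_nonneg _)).1 h2

lemma adj_norm (v : H) : ‖adjoint i v‖ ≤ ‖v‖ := by
  have h1 : ‖i‖ ≤ 1 := opNorm_le_bound _ zero_le_one fun k => by rw [S.i_norm, one_mul]
  have h2 := (adjoint i).le_opNorm v
  have h3 : ‖adjoint i‖ = ‖i‖ := LinearIsometryEquiv.norm_map adjoint i
  rw [h3] at h2
  exact h2.trans (mul_le_of_le_one_left (norm_nonneg v) h1)

lemma i_r {x : H →L[ℂ] H} (hx : x ∈ A) (k : K) : i (r i x k) = x (i k) := S.inv x hx k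

lemma i_inj {k k' : K} (h : i k = i k') : k = k' := by rw [← S.isom k, h, S.isom]

/-- the projection commutes with `A` -/
lemma proj_comm {x : H →L[ℂ] H} (hx : x ∈ A) (v : H) :
    x (i (adjoint i v)) = i (adjoint i (x v)) := by
  have h1 : ∀ k : K, ⟪i k, x (i (adjoint i v))⟫_ℂ = ⟪i k, x v⟫_ℂ := by
    intro k
    have e1 : ∀ w, ⟪i k, x w⟫_ℂ = ⟪(star x) (i k), w⟫_ℂ := fun w => by
      rw [ContinuousLinearMap.star_eq_adjoint, adjoint_inner_left]
    rw [e1, e1, ← S.inv (star x) (star_mem hx) k]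
    rw [inner_i (i := i), S.isom, inner_i (i := i)]
  have h2 : adjoint i (x (i (adjoint i v))) = adjoint i (x v) := by
    refine ext_inner_left ℂ fun k => ?_
    rw [← inner_i, ← inner_i]
    exact h1 k
  rw [← h2, S.inv x hx]

lemma r_mul {x : H →L[ℂ] H} {y : H →L[ℂ] H} (hx : x ∈ A) : r i x * r i y = r i (x * y) := by
  ext k
  change adjoint i (x (i (adjoint i (y (i k))))) = adjoint i (x (y (i k)))
  rw [S.proj_comm hx, S.isom]

lemma r_mul' {x : H →L[ℂ] H} {y : H →L[ℂ] H} (hy : y ∈ A) : r i x * r i y = r i (x * y) := by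
  ext k
  change adjoint i (x (i (adjoint i (y (i k))))) = adjoint i (x (y (i k)))
  rw [S.inv y hy]

omit S in
lemma r_star (x : H →L[ℂ] H) : star (r i x) = r i (star x) := by
  refine ContinuousLinearMap.ext fun k => ext_inner_left ℂ fun l => ?_
  rw [ContinuousLinearMap.star_eq_adjoint, adjoint_inner_right, r_apply, r_apply, ← inner_i,
    ContinuousLinearMap.star_eq_adjoint, adjoint_inner_right, ← inner_i']

lemma r_one : r i (1 : H →L[ℂ] H) = 1 := by
  ext k
  change adjoint i (i k) = k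
  exact S.isom k

lemma r_norm (x : H →L[ℂ] H) : ‖r i x‖ ≤ ‖x‖ := by
  refine opNorm_le_bound _ (norm_nonneg x) fun k => ?_
  rw [r_apply]
  refine (S.adj_norm _).trans ((x.le_opNorm _).trans ?_)
  rw [S.i_norm]

lemma r_comm {x b : H →L[ℂ] H} (hx : x ∈ A) (hb : b ∈ A.commutant) :
    r i b * r i x = r i x * r i b := by
  rw [S.r_mul' hx, S.r_mul hx, mem_comm_iff.1 hb x hx]

lemma r_inj (hsep : ∀ a ∈ A, a ξ = 0 → a = 0) {x y : H →L[ℂ] H} (hx : x ∈ A) (hy : y ∈ A)
    (h : r i x = r i y) : x = y := by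
  have h1 : (x - y) ξ = 0 := by
    have h2 : i (r i x κ) = i (r i y κ) := by rw [h]
    rw [S.i_r hx, S.i_r hy, S.vec] at h2
    rw [sub_apply, h2, sub_self]
  exact sub_eq_zero.1 (hsep _ (sub_mem hx hy) h1)

/-- the key lemma -/
theorem lift (hsep : ∀ a ∈ A, a ξ = 0 → a = 0) (T : K →L[ℂ] K)
    (hT : ∀ b ∈ A.commutant, T * r i b = r i b * T) : ∃ a ∈ A, ‖a‖ ≤ ‖T‖ ∧ r i a = T := by
  have hκ : i κ = ξ := S.vec
  have key : ∀ b ∈ A.commutant, ‖b (i (T κ))‖ ≤ ‖T‖ * ‖b ξ‖ := by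
    intro b hb
    have hbb : star b * b ∈ A.commutant := mul_mem (star_mem hb) hb
    set c : K →L[ℂ] K := r i (star b * b) with hc
    have hcq : ∀ k : K, ⟪k, c k⟫_ℂ = ⟪b (i k), b (i k)⟫_ℂ := by
      intro k
      rw [hc, r_apply, ← inner_i]
      change ⟪i k, (star b) (b (i k))⟫_ℂ = _
      rw [ContinuousLinearMap.star_eq_adjoint, adjoint_inner_right]
    have hcpos : (0 : K →L[ℂ] K) ≤ c := by
      rw [ContinuousLinearMap.nonneg_iff_isPositive]
      refine (ContinuousLinearMap.isPositive_iff_complex _).2 fun k => ?_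
      have h1 : ⟪c k, k⟫_ℂ = ((‖b (i k)‖ ^ 2 : ℝ) : ℂ) := by
        have h2 := hcq k
        have h3 : ⟪c k, k⟫_ℂ = (starRingEnd ℂ) ⟪k, c k⟫_ℂ := (inner_conj_symm _ _).symm
        rw [h3, h2, inner_self_eq_norm_sq_to_K]
        simp
      rw [h1]
      refine ⟨?_, ?_⟩
      · rw [RCLike.re_to_complex, Complex.ofReal_re]
      · rw [RCLike.re_to_complex, Complex.ofReal_re]
        positivity
    have hd2 : CFC.sqrt c * CFC.sqrt c = c := CFC.sqrt_mul_sqrt_self c hcpos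
    have hcomm : Commute c T := (hT _ hbb).symm
    have hdT : Commute (CFC.sqrt c) T := by
      unfold CFC.sqrt
      exact hcomm.cfcₙ_nnreal _
    have hds : star (CFC.sqrt c) = CFC.sqrt c := (IsSelfAdjoint.of_nonneg (CFC.sqrt_nonneg c)).star_eq
    set d := CFC.sqrt c with hd
    have hdk : ∀ k : K, ‖d k‖ = ‖b (i k)‖ := by
      intro k
      have h1 : ⟪d k, d k⟫_ℂ = ⟪b (i k), b (i k)⟫_ℂ := by
        rw [← hcq, ← hd2]
        change _ = ⟪k, d (d k)⟫_ℂ
        nth_rewrite 3 [← hds]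
        rw [ContinuousLinearMap.star_eq_adjoint, adjoint_inner_right]
      rw [inner_self_eq_norm_sq_to_K, inner_self_eq_norm_sq_to_K] at h1
      have h2 : ‖d k‖ ^ 2 = ‖b (i k)‖ ^ 2 := by exact_mod_cast h1
      exact (sq_eq_sq₀ (norm_nonneg _) (norm_nonneg _)).1 h2
    have h3 : d (T κ) = T (d κ) := congrArg (fun U : K →L[ℂ] K => U κ) hdT
    rw [← hdk, h3, ← hκ, ← hdk]
    exact T.le_opNorm _
  obtain ⟨a, ha, ha1, ha2⟩ := exists_op A.commutant (norm_nonneg T) (dense_of_separating A ξ hsep)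
    key
  rw [VonNeumannAlgebra.commutant_commutant] at ha
  refine ⟨a, ha, ha2, ?_⟩
  have hcl : IsClosed {v : H | r i a (adjoint i v) = T (adjoint i v)} :=
    isClosed_eq ((r i a).continuous.comp (adjoint i).continuous)
      (T.continuous.comp (adjoint i).continuous)
  have hsub : (orb A.commutant ξ : Set H) ⊆ {v : H | r i a (adjoint i v) = T (adjoint i v)} := by
    rintro _ ⟨b, hb, rfl⟩
    change r i a (adjoint i (b ξ)) = T (adjoint i (b ξ))
    have e1 : adjoint i (b ξ) = r i b κ := by rw [r_apply, hκ]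
    have e2 : T (r i b κ) = r i b (T κ) := congrArg (fun U : K →L[ℂ] K => U κ) (hT b hb)
    have e3 : r i a (r i b κ) = r i b (r i a κ) :=
      (congrArg (fun U : K →L[ℂ] K => U κ) (S.r_comm ha hb)).symm
    have e4 : r i a κ = T κ := by
      refine S.i_inj ?_
      rw [S.i_r ha, hκ]
      have := ha1 1 (one_mem _)
      exact this
    rw [e1, e2, e3, e4]
  ext k
  have h1 : i k ∈ closure (orb A.commutant ξ : Set H) := dense_of_separating A ξ hsep (i k)
  have h2 : r i a (adjoint i (i k)) = T (adjoint i (i k)) := (closure_minimal hsub hcl) h1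
  rwa [S.isom] at h2

end Sub

/-- The von Neumann algebra generated by the compressions. -/
noncomputable def B (A : VonNeumannAlgebra H) (i : K →L[ℂ] H) : VonNeumannAlgebra K where
  toStarSubalgebra := StarSubalgebra.centralizer ℂ {c | ∀ x ∈ A, c * r i x = r i x * c}
  centralizer_centralizer' := Set.centralizer_centralizer_centralizer _

variable (S : Sub A ξ i κ)
include S

lemma mem_B (hsep : ∀ a ∈ A, a ξ = 0 → a = 0) (T : K →L[ℂ] K) :
    T ∈ B A i ↔ ∃ a ∈ A, r i a = T := by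
  have h0 : T ∈ B A i ↔ ∀ g ∈ {c : K →L[ℂ] K | ∀ x ∈ A, c * r i x = r i x * c},
      g * T = T * g ∧ star g * T = T * star g := StarSubalgebra.mem_centralizer_iff ℂ
  rw [h0]
  constructor
  · intro h
    obtain ⟨a, ha, -, h1⟩ := S.lift hsep T fun b hb => (h (r i b) fun x hx => S.r_comm hx hb).1.symm
    exact ⟨a, ha, h1⟩
  · rintro ⟨a, ha, rfl⟩ g hg
    refine ⟨hg a ha, ?_⟩
    have h1 := congrArg star (hg (star a) (star_mem ha))
    rw [star_mul, star_mul, Sub.r_star, star_star] at h1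
    exact h1.symm

lemma exists_lift (hsep : ∀ a ∈ A, a ξ = 0 → a = 0) {T : K →L[ℂ] K} (hT : T ∈ B A i) :
    ∃ a ∈ A, ‖a‖ ≤ ‖T‖ ∧ r i a = T := by
  obtain ⟨a, ha, rfl⟩ := (mem_B S hsep T).1 hT
  exact S.lift hsep _ fun b hb => (S.r_comm ha hb).symm

lemma r_mem (hsep : ∀ a ∈ A, a ξ = 0 → a = 0) {a : H →L[ℂ] H} (ha : a ∈ A) : r i a ∈ B A i :=
  (mem_B S hsep _).2 ⟨a, ha, rfl⟩

lemma dense_B (hsep : ∀ a ∈ A, a ξ = 0 → a = 0) : Dense (orb (B A i) κ : Set K) := by
  intro k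
  rw [Metric.mem_closure_iff]
  intro ε hε
  obtain ⟨a, ha, h1⟩ := S.cyc k ε hε
  refine ⟨r i a κ, ⟨r i a, r_mem S hsep ha, rfl⟩, ?_⟩
  rw [dist_eq_norm, ← S.i_norm, map_sub, S.i_r ha, S.vec, norm_sub_rev]
  exact h1

lemma sep_B (hsep : ∀ a ∈ A, a ξ = 0 → a = 0) : ∀ b ∈ B A i, b κ = 0 → b = 0 := by
  intro b hb hbκ
  obtain ⟨a, ha, rfl⟩ := (mem_B S hsep b).1 hb
  have h1 : a ξ = 0 := by
    rw [← S.vec, ← S.i_r ha, hbκ, map_zero]
  rw [hsep a ha h1]
  ext k
  change adjoint i ((0 : H →L[ℂ] H) (i k)) = (0 : K →L[ℂ] K) k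
  simp

/-- inner products -/
lemma inner_r {a : H →L[ℂ] H} (k l : K) : ⟪k, r i a l⟫_ℂ = ⟪i k, a (i l)⟫_ℂ := by
  have _ := S
  rw [r_apply, ← inner_i]

lemma typeIII (hsep : ∀ a ∈ A, a ξ = 0 → a = 0) (hA : TypeIIIOne A) : TypeIIIOne (B A i) := by
  obtain ⟨⟨v, hv, w, hw, hvv, hww, hvw⟩, h2⟩ := hA
  refine ⟨⟨r i v, r_mem S hsep hv, r i w, r_mem S hsep hw, ?_, ?_, ?_⟩, ?_⟩
  · rw [Sub.r_star, S.r_mul' hv, hvv, S.r_one]
  · rw [Sub.r_star, S.r_mul' hw, hww, S.r_one]
  · rw [Sub.r_star, S.r_mul' hw, hvw]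
    ext k
    change adjoint i ((0 : H →L[ℂ] H) (i k)) = (0 : K →L[ℂ] K) k
    simp
  · intro η η' ζ ζ' h3 h4 ε hε
    obtain ⟨u, hu, hu1, hu2, hu3⟩ := h2 (i η) (i η') (i ζ) (i ζ')
      (by rw [S.i_norm, S.i_norm]; exact h3) (by rw [S.i_norm, S.i_norm]; exact h4) ε hε
    refine ⟨r i u, r_mem S hsep hu, ?_, ?_, fun x hx => ?_⟩
    · rw [Sub.r_star, S.r_mul' hu, hu1, S.r_one]
    · rw [Sub.r_star, S.r_mul hu, hu2, S.r_one]
    · obtain ⟨a, ha, ha1, rfl⟩ := exists_lift S hsep hx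
      rw [inner_r S, inner_r S, inner_r S, inner_r S, S.i_r hu, S.i_r hu]
      exact (hu3 a ha).trans (mul_le_mul_of_nonneg_left ha1 hε.le)

theorem main (hsep : ∀ a ∈ A, a ξ = 0 → a = 0) (hB : TrivialBicentralizer (B A i) κ) :
    TrivialBicentralizer A ξ := by
  intro x hx h
  obtain ⟨c, hc⟩ := hB (r i x) (r_mem S hsep hx) (by
    rintro b ⟨hb1, ⟨C, hC⟩, hb3⟩ k
    have h1 : ∀ n, ∃ a ∈ A, ‖a‖ ≤ ‖b n‖ ∧ r i a = b n := fun n => exists_lift S hsep (hb1 n)
    choose a ha ha1 ha2 using h1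
    have h2 : AsympEigen A ξ 1 a := by
      refine ⟨ha, ⟨C, fun n => (ha1 n).trans (hC n)⟩, fun ε hε => ?_⟩
      filter_upwards [hb3 ε hε] with n hn y hy
      have h3 := hn (r i y) (r_mem S hsep hy)
      rw [← ha2 n, S.r_mul hy, S.r_mul (ha n), inner_r S, inner_r S, S.vec] at h3
      exact h3.trans (mul_le_mul_of_nonneg_left (S.r_norm y) hε.le)
    have h4 := h a h2 (i k)
    have h5 : (fun n => (r i x * b n - b n * r i x) k) =
        fun n => adjoint i ((x * a n - a n * x) (i k)) := by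
      funext n
      rw [← ha2 n, S.r_mul hx, S.r_mul (ha n)]
      rw [sub_apply, sub_apply, map_sub]
      rfl
    rw [h5]
    have h6 := ((adjoint i).continuous.tendsto 0).comp h4
    rw [map_zero] at h6
    exact h6)
  refine ⟨c, ?_⟩
  have h1 : (x - c • (1 : H →L[ℂ] H)) ξ = 0 := by
    have h2 : i (r i x κ) = i (c • κ) := by rw [hc]; rfl
    rw [S.i_r hx, map_smul, S.vec] at h2
    rw [sub_apply, smul_apply, one_apply_eq_self, h2, sub_self]
  exact sub_eq_zero.1 (hsep _ (sub_mem hx (smul_mem' c (one_mem A))) h1)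

end Transport

open Transport in
/-- If the bicentralizer is trivial for cyclic and separating vectors, then it is trivial for
separating vectors. -/
theorem transport
    (hmain : ∀ (K : Type u) [NormedAddCommGroup K] [InnerProductSpace ℂ K] [CompleteSpace K]
      (B : VonNeumannAlgebra K) (κ : K), ‖κ‖ = 1 → Dense (orb B κ : Set K) →
      (∀ b ∈ B, b κ = 0 → b = 0) → TypeIIIOne B → TrivialBicentralizer B κ)
    {H : Type u} [NormedAddCommGroup H] [InnerProductSpace ℂ H] [CompleteSpace H]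
    (A : VonNeumannAlgebra H) (ξ : H) (hξ : ‖ξ‖ = 1) (hsep : ∀ a ∈ A, a ξ = 0 → a = 0)
    (hA : TypeIIIOne A) : TrivialBicentralizer A ξ := by
  set V : Submodule ℂ H := (orb A ξ).topologicalClosure with hV
  have hξV : ξ ∈ V := Submodule.le_topologicalClosure _ ⟨1, one_mem _, rfl⟩
  have hadj : ∀ v : H, V.subtypeL (adjoint V.subtypeL v) = V.starProjection v := by
    intro v
    rw [Submodule.adjoint_subtypeL]
    rfl
  have S : Sub A ξ V.subtypeL (⟨ξ, hξV⟩ : V) := by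
    refine ⟨fun k => ?_, fun x hx k => ?_, rfl, fun k ε hε => ?_⟩
    · refine Subtype.ext ?_
      change V.subtypeL (adjoint V.subtypeL (V.subtypeL k)) = k.1
      rw [hadj]
      exact Submodule.starProjection_eq_self_iff.2 k.2
    · rw [hadj]
      have h1 := mem_comm_iff.1 (proj_orb_mem A ξ) x hx
      have h2 := congrArg (fun T : H →L[ℂ] H => T (V.subtypeL k)) h1
      have h3 : V.starProjection (V.subtypeL k) = V.subtypeL k :=
        Submodule.starProjection_eq_self_iff.2 k.2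
      change x (V.starProjection (V.subtypeL k)) = V.starProjection (x (V.subtypeL k)) at h2
      rw [← h2, h3]
    · have h1 : (V.subtypeL k : H) ∈ closure (orb A ξ : Set H) := k.2
      obtain ⟨_, ⟨a, ha, rfl⟩, h2⟩ := Metric.mem_closure_iff.1 h1 ε hε
      refine ⟨a, ha, ?_⟩
      rw [dist_eq_norm] at h2
      rw [norm_sub_rev]
      exact h2
  refine main S hsep (hmain V (B A V.subtypeL) ⟨ξ, hξV⟩ ?_ (dense_B S hsep) (sep_B S hsep)
    (typeIII S hsep hA))
  exact hξ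

end Pool.Agent.Helper78.BC
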