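import Pool.Agent.Helper23.Basic
import Pool.Agent.Helper23.RBFDefs2

/-!
# Project BC: Connes' bicentralizer problem, definitions

`A` is a von Neumann algebra in standard form with cyclic and separating unit vector `ξ`, modular
conjugation `J` and bounded functional calculus `Ψ` of `ρ = log Δ`.
-/

open scoped InnerProductSpace Topology BoundedContinuousFunction
open ContinuousLinearMap Filter

namespace Pool.Agent.Helper78.BC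

variable {H : Type*} [NormedAddCommGroup H] [InnerProductSpace ℂ H] [CompleteSpace H]

/-- right multiplication `η y = J y* J η` -/
noncomputable def rm (J : H →L[ℝ] H) (y : H →L[ℂ] H) (η : H) : H := J ((star y) (J η))

/-- the commutator `[y, η] = y η - η y` -/
noncomputable def cm (J : H →L[ℝ] H) (y : H →L[ℂ] H) (η : H) : H := y η - rm J y η

/-- The standard form of `(A, ξ)`: `J` is the modular conjugation, `Ψ` the bounded functional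
calculus of `ρ = log Δ`. -/
structure Std (A : VonNeumannAlgebra H) (ξ : H) (J : H →L[ℝ] H)
    (Ψ : (ℝ →ᵇ ℂ) →⋆ₐ[ℂ] (H →L[ℂ] H)) : Prop where
  norm_one : ‖ξ‖ = 1
  cyc : ∀ v : H, ∀ ε : ℝ, 0 < ε → ∃ a ∈ A, ‖a ξ - v‖ < ε
  cyc' : ∀ v : H, ∀ ε : ℝ, 0 < ε → ∃ b ∈ A.commutant, ‖b ξ - v‖ < ε
  sep : ∀ a ∈ A, a ξ = 0 → a = 0
  J_J : ∀ v, J (J v) = v
  J_conj : ∀ (c : ℂ) (v : H), J (c • v) = (starRingEnd ℂ) c • J v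
  J_norm : ∀ v, ‖J v‖ = ‖v‖
  J_inner : ∀ v w, ⟪J v, J w⟫_ℂ = ⟪w, v⟫_ℂ
  J_xi : J ξ = ξ
  /-- `J a J` commutes with `A` -/
  J_comm : ∀ a ∈ A, ∀ y ∈ A, ∀ v, J (a (J (y v))) = y (J (a (J v)))
  /-- every element of the commutant is `J a J` with `a ∈ A` -/
  J_mem : ∀ b ∈ A.commutant, ∃ a ∈ A, ∀ v, b v = J (a (J v))
  /-- `⟪J a ξ, a* ξ⟫ = ⟪Δ^½ a* ξ, a* ξ⟫ ≥ 0` -/
  J_pos : ∀ a ∈ A, 0 ≤ (⟪J (a ξ), (star a) ξ⟫_ℂ).re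
  /-- `J Ψ(G) = Ψ(G') J` with `G'(ρ) = conj G(-ρ)` -/
  psi_J : ∀ G G' : ℝ →ᵇ ℂ, (∀ ρ, G' ρ = (starRingEnd ℂ) (G (-ρ))) →
    ∀ v : H, J (Ψ G v) = Ψ G' (J v)
  psi_cont : ∀ (G : ℕ → (ℝ →ᵇ ℂ)) (G₀ : ℝ →ᵇ ℂ) (C : ℝ), (∀ n, ‖G n‖ ≤ C) →
    (∀ L : ℝ, TendstoUniformlyOn (fun n ρ => G n ρ) (fun ρ => G₀ ρ) atTop (Set.Icc (-L) L)) →
    ∀ v : H, Tendsto (fun n => Ψ (G n) v) atTop (𝓝 (Ψ G₀ v))
  /-- `J a* ξ = Δ^½ a ξ` -/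
  psi_half : ∀ G G' : ℝ →ᵇ ℂ, (∀ ρ, G' ρ = ((Real.exp (ρ / 2) : ℝ) : ℂ) * G ρ) →
    ∀ a ∈ A, Ψ G (J ((star a) ξ)) = Ψ G' (a ξ)
  /-- `A ξ` is a core for `Δ^½` -/
  core : ∀ G G' : ℝ →ᵇ ℂ, HasCompactSupport G →
    (∀ ρ, G' ρ = ((Real.exp (ρ / 2) : ℝ) : ℂ) * G ρ) → ∀ (θ : H) (ε : ℝ), 0 < ε →
    ∃ b ∈ A, ‖b ξ - Ψ G θ‖ ≤ ε ∧ ‖J ((star b) ξ) - Ψ G' θ‖ ≤ ε

/-- finite sums of vectors `a J a ξ` -/
def P0 (A : VonNeumannAlgebra H) (ξ : H) (J : H →L[ℝ] H) : Set H :=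
  {v | ∃ (n : ℕ) (a : Fin n → H →L[ℂ] H), (∀ i, a i ∈ A) ∧ v = ∑ i, (a i) (J ((a i) ξ))}

/-- the natural cone -/
def Pc (A : VonNeumannAlgebra H) (ξ : H) (J : H →L[ℝ] H) : Set H := closure (P0 A ξ J)

/-- `v` is a coisometry of `A` with `v ξ ≈ √l ξ v` up to `ε` -/
def Lev (A : VonNeumannAlgebra H) (ξ : H) (J : H →L[ℝ] H) (l ε : ℝ) (v : H →L[ℂ] H) : Prop :=
  v ∈ A ∧ v * star v = 1 ∧ ‖v ξ - ((Real.sqrt l : ℝ) : ℂ) • rm J v ξ‖ ≤ ε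

/-- the natural family of a Lipschitz vector `ζ`; `z l` belongs to the functional `l φ` -/
structure LevFam (A : VonNeumannAlgebra H) (ξ : H) (J : H →L[ℝ] H) (C : ℝ) (ζ : H)
    (z : ℝ → H) : Prop where
  one : z 1 = ζ
  norm : ∀ l : ℝ, 0 < l → l ≤ 1 → ‖z l‖ ≤ ‖ζ‖
  rel : ∀ l m : ℝ, 0 < l → l ≤ 1 → 0 < m → m ≤ 1 → ∀ y ∈ A,
    ‖y (z l) - rm J y (z m)‖ ≤
      C * ‖((Real.sqrt l : ℝ) : ℂ) • y ξ - ((Real.sqrt m : ℝ) : ℂ) • rm J y ξ‖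

/-- unitaries of `A` -/
def Un (A : VonNeumannAlgebra H) (u : H →L[ℂ] H) : Prop :=
  u ∈ A ∧ star u * u = 1 ∧ u * star u = 1

/-- `x` asymptotically commutes with all asymptotically centralizing sequences -/
def Bic (A : VonNeumannAlgebra H) (ξ : H) (x : H →L[ℂ] H) : Prop :=
  x ∈ A ∧ ∀ a, Pool.Agent.Helper23.RBF.AsympEigen A ξ 1 a → ∀ η : H,
    Tendsto (fun n => (x * a n - a n * x) η) atTop (𝓝 0)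

/-- `ζ` is fixed by the modular group: `Ψ(G) ζ = G(0) ζ` -/
def Fixed (Ψ : (ℝ →ᵇ ℂ) →⋆ₐ[ℂ] (H →L[ℂ] H)) (ζ : H) : Prop := ∀ G : ℝ →ᵇ ℂ, Ψ G ζ = G 0 • ζ

end Pool.Agent.Helper78.BC
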