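import Mathlib

/-!
# Project BC, module 1: the energy estimate
-/

open scoped InnerProductSpace
open ContinuousLinearMap

namespace Pool.Agent.Helper78.BC

variable {H : Type*} [NormedAddCommGroup H] [InnerProductSpace ℂ H] [CompleteSpace H]

namespace Energy

open Finset

attribute [local instance] InnerProductSpace.complexToReal

set_option linter.unusedSectionVars false

/-- The operator as a real linear endomorphism. -/
noncomputable def L (a : H →L[ℂ] H) : Module.End ℝ H := (a.restrictScalars ℝ : H →ₗ[ℝ] H)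

@[simp] theorem L_apply (a : H →L[ℂ] H) (x : H) : L a x = a x := rfl

theorem L_mul (a b : H →L[ℂ] H) : L (a * b) = L a * L b := by
  ext x
  rfl

theorem L_one : L (1 : H →L[ℂ] H) = 1 := by
  ext x
  rfl

theorem inner_star (a : H →L[ℂ] H) (x y : H) : ⟪a x, y⟫_ℝ = ⟪x, (star a) y⟫_ℝ := by
  have h : ⟪a x, y⟫_ℂ = ⟪x, (star a) y⟫_ℂ := by
    rw [star_eq_adjoint, adjoint_inner_right]
  exact congrArg Complex.re h

theorem norm_uni {a : H →L[ℂ] H} (h : star a * a = 1) (x : H) : ‖a x‖ = ‖x‖ := by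
  have h1 : ⟪a x, a x⟫_ℝ = ⟪x, x⟫_ℝ := by
    rw [inner_star]
    have : (star a) (a x) = (star a * a) x := rfl
    rw [this, h]
    rfl
  rw [real_inner_self_eq_norm_sq, real_inner_self_eq_norm_sq] at h1
  exact (pow_left_inj₀ (norm_nonneg _) (norm_nonneg _) two_ne_zero).1 h1

theorem norm_sub_sq' {a : H →L[ℂ] H} (h : star a * a = 1) (x : H) :
    ‖a x - x‖ ^ 2 = 2 * (‖x‖ ^ 2 - ⟪a x, x⟫_ℝ) := by
  rw [@norm_sub_sq_real, norm_uni h]
  ring

/-! ### Averages -/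

/-- The set of all averages of the operators. -/
def Av (S : Set (H →L[ℂ] H)) : Set (Module.End ℝ H) := convexHull ℝ (L '' S)

theorem L_mem_av {S : Set (H →L[ℂ] H)} {a : H →L[ℂ] H} (ha : a ∈ S) : L a ∈ Av S :=
  subset_convexHull ℝ _ ⟨a, ha, rfl⟩

theorem convex_av (S : Set (H →L[ℂ] H)) : Convex ℝ (Av S) := convex_convexHull ℝ _

section Sets

variable {S : Set (H →L[ℂ] H)}

theorem one_mem_av (hone : 1 ∈ S) : (1 : Module.End ℝ H) ∈ Av S := by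
  rw [← L_one]; exact L_mem_av hone

theorem L_mul_mem_av (hmul : ∀ a ∈ S, ∀ b ∈ S, a * b ∈ S) {a : H →L[ℂ] H} (ha : a ∈ S)
    {B : Module.End ℝ H} (hB : B ∈ Av S) : L a * B ∈ Av S := by
  have h : Av S ⊆ (LinearMap.mulLeft ℝ (L a)) ⁻¹' Av S := by
    refine convexHull_min ?_ ((convex_av S).linear_preimage _)
    rintro _ ⟨b, hb, rfl⟩
    simp only [Set.mem_preimage, LinearMap.mulLeft_apply]
    rw [← L_mul]
    exact L_mem_av (hmul a ha b hb)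
  exact h hB

theorem av_apply_mem {V : Set H} (hVc : Convex ℝ V) (hVi : ∀ a ∈ S, ∀ v ∈ V, a v ∈ V)
    {B : Module.End ℝ H} (hB : B ∈ Av S) {v : H} (hv : v ∈ V) : B v ∈ V := by
  have h : Av S ⊆ (LinearMap.applyₗ v : Module.End ℝ H →ₗ[ℝ] H) ⁻¹' V := by
    refine convexHull_min ?_ (hVc.linear_preimage _)
    rintro _ ⟨b, hb, rfl⟩
    exact hVi b hb v hv
  exact h hB

variable {n : ℕ} {a : Fin n → H →L[ℂ] H} {w : Fin n → ℝ}

/-- The mixed operator. -/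
noncomputable def T (a : Fin n → H →L[ℂ] H) (w : Fin n → ℝ) : Module.End ℝ H :=
  ∑ i, w i • ((1 / 2 : ℝ) • L (a i) + (1 / 2 : ℝ) • L (star (a i)))

theorem T_mul_mem_av (hmul : ∀ a ∈ S, ∀ b ∈ S, a * b ∈ S) (hstar : ∀ a ∈ S, star a ∈ S)
    (ha : ∀ i, a i ∈ S) (hw : ∀ i, 0 ≤ w i) (h1 : ∑ i, w i = 1) {B : Module.End ℝ H}
    (hB : B ∈ Av S) : T a w * B ∈ Av S := by
  have h := (convex_av S).sum_mem (t := Finset.univ) (w := w)
    (z := fun i => ((1 / 2 : ℝ) • L (a i) + (1 / 2 : ℝ) • L (star (a i))) * B)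
    (fun i _ => hw i) h1 (fun i _ => by
      rw [add_mul, smul_mul_assoc, smul_mul_assoc]
      exact convex_av S (L_mul_mem_av hmul (ha i) hB) (L_mul_mem_av hmul (hstar _ (ha i)) hB)
        (by norm_num) (by norm_num) (by norm_num))
  have e : T a w * B = ∑ i, w i • (((1 / 2 : ℝ) • L (a i) + (1 / 2 : ℝ) • L (star (a i))) * B) := by
    rw [T, Finset.sum_mul]
    exact Finset.sum_congr rfl fun g _ => smul_mul_assoc _ _ _
  rw [e]
  exact h

theorem T_pow_mem_av (hone : 1 ∈ S) (hmul : ∀ a ∈ S, ∀ b ∈ S, a * b ∈ S)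
    (hstar : ∀ a ∈ S, star a ∈ S) (ha : ∀ i, a i ∈ S) (hw : ∀ i, 0 ≤ w i)
    (h1 : ∑ i, w i = 1) (m : ℕ) : T a w ^ m ∈ Av S := by
  induction m with
  | zero => rw [pow_zero]; exact one_mem_av hone
  | succ m ih => rw [pow_succ']; exact T_mul_mem_av hmul hstar ha hw h1 ih

theorem T_apply (x : H) :
    T a w x = ∑ i, w i • ((1 / 2 : ℝ) • a i x + (1 / 2 : ℝ) • (star (a i)) x) := by
  simp [T, LinearMap.sum_apply]

theorem T_symm (x y : H) : ⟪T a w x, y⟫_ℝ = ⟪x, T a w y⟫_ℝ := by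
  rw [T_apply, T_apply, sum_inner, inner_sum]
  refine Finset.sum_congr rfl fun g _ => ?_
  rw [inner_smul_left, inner_smul_right, inner_add_left, inner_add_right, inner_smul_left,
    inner_smul_left, inner_smul_right, inner_smul_right, inner_star (a g) x y,
    inner_star (star (a g)) x y, star_star]
  simp only [conj_trivial]
  ring

theorem T_sum (huni : ∀ i, star (a i) * a i = 1) (x : H) (h1 : ∑ i, w i = 1) :
    ∑ i, w i * ‖a i x - x‖ ^ 2 = 2 * (‖x‖ ^ 2 - ⟪T a w x, x⟫_ℝ) := by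
  have h2 : ∀ i, w i * ‖a i x - x‖ ^ 2 = 2 * (w i * ‖x‖ ^ 2 -
      ⟪w i • ((1 / 2 : ℝ) • a i x + (1 / 2 : ℝ) • (star (a i)) x), x⟫_ℝ) := by
    intro i
    have h3 : ⟪(star (a i)) x, x⟫_ℝ = ⟪a i x, x⟫_ℝ := by
      rw [inner_star (star (a i)) x x, star_star, real_inner_comm]
    rw [norm_sub_sq' (huni i), inner_smul_left, inner_add_left, inner_smul_left,
      inner_smul_left, h3]
    simp only [conj_trivial]
    ring
  rw [Finset.sum_congr rfl fun g _ => h2 g, ← Finset.mul_sum, Finset.sum_sub_distrib,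
    ← Finset.sum_mul, h1, one_mul, T_apply, sum_inner]

theorem T_norm (huni : ∀ i, star (a i) * a i = 1) (huni' : ∀ i, a i * star (a i) = 1)
    (hw : ∀ i, 0 ≤ w i) (h1 : ∑ i, w i = 1) (x : H) : ‖T a w x‖ ≤ ‖x‖ := by
  rw [T_apply]
  refine (norm_sum_le _ _).trans ?_
  have h : ∀ i ∈ (Finset.univ : Finset (Fin n)),
      ‖w i • ((1 / 2 : ℝ) • a i x + (1 / 2 : ℝ) • (star (a i)) x)‖ ≤ w i * ‖x‖ := by
    intro i _
    rw [norm_smul, Real.norm_of_nonneg (hw i)]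
    refine mul_le_mul_of_nonneg_left ?_ (hw i)
    refine (norm_add_le _ _).trans ?_
    rw [norm_smul, norm_smul, norm_uni (huni i), norm_uni (a := star (a i))
      (by rw [star_star]; exact huni' i)]
    norm_num
    linarith
  refine (Finset.sum_le_sum h).trans ?_
  rw [← Finset.sum_mul, h1, one_mul]

end Sets

/-! ### The form of `1 - T` -/

section Form

variable {A : Module.End ℝ H} (hs : ∀ x y, ⟪A x, y⟫_ℝ = ⟪x, A y⟫_ℝ) (hn : ∀ x, ‖A x‖ ≤ ‖x‖)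

include hs hn

theorem pow_norm (k : ℕ) (x : H) : ‖(A ^ k) x‖ ≤ ‖x‖ := by
  induction k with
  | zero => simp
  | succ k ih => rw [pow_succ', Module.End.mul_apply]; exact (hn _).trans ih

theorem form_nonneg (x : H) : 0 ≤ ⟪x - A x, x⟫_ℝ := by
  rw [inner_sub_left, real_inner_self_eq_norm_sq]
  have h := real_inner_le_norm (A x) x
  nlinarith [hn x, norm_nonneg x, norm_nonneg (A x)]

theorem form_nonneg' (x : H) : 0 ≤ ⟪x + A x, x⟫_ℝ := by
  rw [inner_add_left, real_inner_self_eq_norm_sq]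
  have h := neg_le_of_abs_le (abs_real_inner_le_norm (A x) x)
  nlinarith [hn x, norm_nonneg x, norm_nonneg (A x)]

theorem form_step (x : H) : ⟪A x - A (A x), A x⟫_ℝ ≤ ⟪x - A x, x⟫_ℝ := by
  have h := form_nonneg' hs hn (x - A x)
  have h2 : ⟪x - A x + A (x - A x), x - A x⟫_ℝ = ⟪x - A x, x⟫_ℝ - ⟪A x - A (A x), A x⟫_ℝ := by
    rw [map_sub]
    have e1 : x - A x + (A x - A (A x)) = x - A (A x) := by abel
    rw [e1]
    simp only [inner_sub_left, inner_sub_right]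
    have e2 : ⟪A (A x), x⟫_ℝ = ⟪A x, A x⟫_ℝ := hs _ _
    have e3 : ⟪x, A x⟫_ℝ = ⟪A x, x⟫_ℝ := (hs _ _).symm
    rw [e2, e3]
    ring
  linarith

theorem form_pow (k : ℕ) (x : H) :
    ⟪(A ^ k) x - A ((A ^ k) x), (A ^ k) x⟫_ℝ ≤ ⟪x - A x, x⟫_ℝ := by
  induction k with
  | zero => simp
  | succ k ih =>
    rw [pow_succ', Module.End.mul_apply]
    exact (form_step hs hn _).trans ih

/-- Cauchy-Schwarz for the form of `1 - A`. -/
theorem form_cs (x y : H) :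
    ⟪x - A x, y⟫_ℝ ≤ (⟪x - A x, x⟫_ℝ + ⟪y - A y, y⟫_ℝ) / 2 := by
  have h := form_nonneg hs hn (x - y)
  have h2 : ⟪x - y - A (x - y), x - y⟫_ℝ =
      ⟪x - A x, x⟫_ℝ + ⟪y - A y, y⟫_ℝ - 2 * ⟪x - A x, y⟫_ℝ := by
    rw [map_sub]
    simp only [inner_sub_left, inner_sub_right]
    have e1 : ⟪A y, x⟫_ℝ = ⟪A x, y⟫_ℝ := by rw [hs y x, real_inner_comm]
    have e2 : ⟪y, x⟫_ℝ = ⟪x, y⟫_ℝ := real_inner_comm _ _
    rw [e1, e2]
    ring
  linarith

theorem one_sub_pow (m : ℕ) (x : H) :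
    ⟪x - (A ^ m) x, x⟫_ℝ ≤ m * ⟪x - A x, x⟫_ℝ := by
  induction m with
  | zero => simp
  | succ m ih =>
    have e : x - (A ^ (m + 1)) x = (x - (A ^ m) x) + ((A ^ m) x - A ((A ^ m) x)) := by
      rw [pow_succ', Module.End.mul_apply]; abel
    rw [e, inner_add_left]
    have h1 := form_cs hs hn ((A ^ m) x) x
    have h2 := form_pow hs hn m x
    push_cast
    linarith

end Form

/-! ### The averages move `η` little -/

theorem av_le {S : Set (H →L[ℂ] H)} (huni : ∀ a ∈ S, star a * a = 1) {ξ η : H} {ε C : ℝ}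
    (hyp : ∀ a ∈ S, ‖a η - η‖ ^ 2 ≤ ε + C * ‖a ξ - ξ‖ ^ 2)
    {B : Module.End ℝ H} (hB : B ∈ Av S) :
    ‖B η - η‖ ^ 2 ≤ ε + 2 * C * ⟪ξ - B ξ, ξ⟫_ℝ := by
  have hconv : Convex ℝ {B : Module.End ℝ H | ‖B η - η‖ ^ 2 ≤ ε + 2 * C * ⟪ξ - B ξ, ξ⟫_ℝ} := by
    intro S hS S' hS' a b ha hb hab
    change ‖S η - η‖ ^ 2 ≤ ε + 2 * C * ⟪ξ - S ξ, ξ⟫_ℝ at hS
    change ‖S' η - η‖ ^ 2 ≤ ε + 2 * C * ⟪ξ - S' ξ, ξ⟫_ℝ at hS'
    change ‖(a • S + b • S') η - η‖ ^ 2 ≤ ε + 2 * C * ⟪ξ - (a • S + b • S') ξ, ξ⟫_ℝ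
    have e1 : (a • S + b • S') η - η = a • (S η - η) + b • (S' η - η) := by
      have : η = a • η + b • η := by rw [← add_smul, hab, one_smul]
      simp only [LinearMap.add_apply, LinearMap.smul_apply, smul_sub]
      nth_rewrite 3 [this]
      abel
    have e2 : ⟪ξ - (a • S + b • S') ξ, ξ⟫_ℝ =
        a * ⟪ξ - S ξ, ξ⟫_ℝ + b * ⟪ξ - S' ξ, ξ⟫_ℝ := by
      simp only [LinearMap.add_apply, LinearMap.smul_apply, inner_sub_left, inner_add_left,
        inner_smul_left, conj_trivial]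
      have : ⟪ξ, ξ⟫_ℝ = (a + b) * ⟪ξ, ξ⟫_ℝ := by rw [hab, one_mul]
      linarith
    have h1 : ‖a • (S η - η) + b • (S' η - η)‖ ^ 2 ≤ a * ‖S η - η‖ ^ 2 + b * ‖S' η - η‖ ^ 2 := by
      have h2 : ‖a • (S η - η) + b • (S' η - η)‖ ≤ a * ‖S η - η‖ + b * ‖S' η - η‖ := by
        refine (norm_add_le _ _).trans ?_
        rw [norm_smul, norm_smul, Real.norm_of_nonneg ha, Real.norm_of_nonneg hb]
      have h3 : ‖a • (S η - η) + b • (S' η - η)‖ ^ 2 ≤ (a * ‖S η - η‖ + b * ‖S' η - η‖) ^ 2 :=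
        pow_le_pow_left₀ (norm_nonneg _) h2 2
      refine h3.trans ?_
      have h4 : a = 1 - b := by linarith
      subst h4
      nlinarith [mul_nonneg ha hb, sq_nonneg (‖S η - η‖ - ‖S' η - η‖),
        mul_nonneg (mul_nonneg ha hb) (sq_nonneg (‖S η - η‖ - ‖S' η - η‖))]
    rw [e1, e2]
    have h5 : a * (ε + 2 * C * ⟪ξ - S ξ, ξ⟫_ℝ) + b * (ε + 2 * C * ⟪ξ - S' ξ, ξ⟫_ℝ) =
        ε + 2 * C * (a * ⟪ξ - S ξ, ξ⟫_ℝ + b * ⟪ξ - S' ξ, ξ⟫_ℝ) := by
      have : ε = (a + b) * ε := by rw [hab, one_mul]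
      linarith
    rw [← h5]
    exact h1.trans (add_le_add (mul_le_mul_of_nonneg_left hS ha)
      (mul_le_mul_of_nonneg_left hS' hb))
  refine convexHull_min ?_ hconv hB
  rintro _ ⟨g, hg, rfl⟩
  change ‖g η - η‖ ^ 2 ≤ ε + 2 * C * ⟪ξ - g ξ, ξ⟫_ℝ
  refine (hyp g hg).trans (le_of_eq ?_)
  rw [norm_sub_sq' (huni g hg) ξ, inner_sub_left, real_inner_self_eq_norm_sq]
  ring

/-! ### One averaged inequality -/

/-- The averaged Lipschitz bound with a constant not depending on the weights. -/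
theorem averaged {S : Set (H →L[ℂ] H)} (hone : 1 ∈ S) (hmul : ∀ a ∈ S, ∀ b ∈ S, a * b ∈ S)
    (hstar : ∀ a ∈ S, star a ∈ S) (huni : ∀ a ∈ S, star a * a = 1) {V : Set H}
    (hVc : Convex ℝ V) (hVi : ∀ a ∈ S, ∀ v ∈ V, a v ∈ V) {ξ η : H} (hη : η ∈ V)
    {r C : ℝ} (hr : 0 < r) (hC : 0 < C)
    (hyp : ∀ a ∈ S, ‖a η - η‖ ^ 2 ≤ r ^ 2 / 2 + C * ‖a ξ - ξ‖ ^ 2)
    {k : ℕ} {a : Fin k → H →L[ℂ] H} {w : Fin k → ℝ} (ha : ∀ i, a i ∈ S)
    (hw : ∀ i, 0 ≤ w i) (h1 : ∑ i, w i = 1) {d : ℝ} (hd : 0 < d) :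
    ∃ ζ ∈ V, ‖ζ - η‖ ≤ r ∧ ∑ i, w i * ‖a i ζ - ζ‖ ^ 2 ≤
      16 * ‖η‖ ^ 2 * C / r ^ 2 * (∑ i, w i * ‖a i ξ - ξ‖ ^ 2 + d) := by
  have huni1 : ∀ i, star (a i) * a i = 1 := fun i => huni _ (ha i)
  have huni2 : ∀ i, a i * star (a i) = 1 := fun i => by
    have := huni _ (hstar _ (ha i))
    rwa [star_star] at this
  set E := ∑ i, w i * ‖a i ξ - ξ‖ ^ 2 with hE
  have hE0 : 0 ≤ E := Finset.sum_nonneg fun g _ => mul_nonneg (hw g) (by positivity)
  set τ := r ^ 2 / (2 * C) with hτ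
  have hτ0 : 0 < τ := by positivity
  have hsym := T_symm (a := a) (w := w)
  have hnorm := T_norm huni1 huni2 hw h1
  have hform : ∀ x : H, ∑ i, w i * ‖a i x - x‖ ^ 2 = 2 * ⟪x - T a w x, x⟫_ℝ := by
    intro x
    rw [T_sum huni1 x h1, inner_sub_left, real_inner_self_eq_norm_sq]
  rcases le_or_gt (E + d) τ with hcase | hcase
  · -- long averages
    set n := ⌊τ / (E + d)⌋₊ with hn
    have hx1 : 1 ≤ τ / (E + d) := (one_le_div (by linarith)).2 hcase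
    have hn1 : 1 ≤ n := Nat.le_floor (by exact_mod_cast hx1)
    have hnle : (n : ℝ) ≤ τ / (E + d) := Nat.floor_le (by positivity)
    have hnlt : τ / (E + d) < n + 1 := Nat.lt_floor_add_one _
    have hn0 : (0 : ℝ) < n := by exact_mod_cast hn1
    have hnge : τ / (E + d) ≤ 2 * n := by
      have : (1 : ℝ) ≤ n := by exact_mod_cast hn1
      linarith
    set ζ := (n : ℝ)⁻¹ • ∑ m ∈ range n, (T a w ^ m) η with hζ
    have hdist : ∀ m ∈ range n, ‖(T a w ^ m) η - η‖ ≤ r := by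
      intro m hm
      have hm' : (m : ℝ) ≤ n := by exact_mod_cast (Finset.mem_range.1 hm).le
      have h2 := av_le huni hyp (T_pow_mem_av hone hmul hstar ha hw h1 m)
      have h3 := one_sub_pow hsym hnorm m ξ
      have h4 := form_nonneg hsym hnorm ξ
      have h5 : 2 * ⟪ξ - T a w ξ, ξ⟫_ℝ = E := (hform ξ).symm
      have h6 : 2 * C * ⟪ξ - (T a w ^ m) ξ, ξ⟫_ℝ ≤ C * (n * E) := by
        have h7 : ⟪ξ - (T a w ^ m) ξ, ξ⟫_ℝ ≤ n * ⟪ξ - T a w ξ, ξ⟫_ℝ :=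
          h3.trans (mul_le_mul_of_nonneg_right hm' h4)
        calc 2 * C * ⟪ξ - (T a w ^ m) ξ, ξ⟫_ℝ ≤ 2 * C * (n * ⟪ξ - T a w ξ, ξ⟫_ℝ) :=
              mul_le_mul_of_nonneg_left h7 (by positivity)
          _ = C * (n * (2 * ⟪ξ - T a w ξ, ξ⟫_ℝ)) := by ring
          _ = C * (n * E) := by rw [h5]
      have h8 : C * (n * E) ≤ r ^ 2 / 2 := by
        have h9 : (n : ℝ) * E ≤ τ := by
          have := (le_div_iff₀ (by linarith : 0 < E + d)).1 hnle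
          nlinarith
        calc C * (n * E) ≤ C * τ := mul_le_mul_of_nonneg_left h9 hC.le
          _ = r ^ 2 / 2 := by rw [hτ]; field_simp
      have h10 : ‖(T a w ^ m) η - η‖ ^ 2 ≤ r ^ 2 := by linarith
      exact le_of_sq_le_sq h10 hr.le
    refine ⟨ζ, ?_, ?_, ?_⟩
    · have h2 := hVc.sum_mem (t := range n) (w := fun _ => (n : ℝ)⁻¹)
        (z := fun m => (T a w ^ m) η) (fun _ _ => by positivity) (by
          rw [Finset.sum_const, Finset.card_range, nsmul_eq_mul, mul_inv_cancel₀ hn0.ne'])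
        (fun m _ => av_apply_mem hVc hVi (T_pow_mem_av hone hmul hstar ha hw h1 m) hη)
      rw [hζ, Finset.smul_sum]
      exact h2
    · have e : ζ - η = (n : ℝ)⁻¹ • ∑ m ∈ range n, ((T a w ^ m) η - η) := by
        rw [Finset.sum_sub_distrib, smul_sub, ← hζ, Finset.sum_const, Finset.card_range,
          ← Nat.cast_smul_eq_nsmul ℝ, smul_smul, inv_mul_cancel₀ hn0.ne', one_smul]
      rw [e, norm_smul, norm_inv, Real.norm_of_nonneg hn0.le]
      have h2 : ‖∑ m ∈ range n, ((T a w ^ m) η - η)‖ ≤ n * r := by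
        refine (norm_sum_le _ _).trans ((Finset.sum_le_sum hdist).trans ?_)
        simp
      calc (n : ℝ)⁻¹ * ‖∑ m ∈ range n, ((T a w ^ m) η - η)‖ ≤ (n : ℝ)⁻¹ * (n * r) :=
            mul_le_mul_of_nonneg_left h2 (by positivity)
        _ = r := by field_simp
    · rw [hform ζ]
      have e : ζ - T a w ζ = (n : ℝ)⁻¹ • (η - (T a w ^ n) η) := by
        rw [hζ, map_smul, ← smul_sub, map_sum, ← Finset.sum_sub_distrib]
        congr 1
        have h3 := Finset.sum_range_sub' (fun m => (T a w ^ m) η) n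
        simp only [pow_zero, Module.End.one_apply] at h3
        rw [← h3]
        refine Finset.sum_congr rfl fun m _ => ?_
        rw [pow_succ', Module.End.mul_apply]
      have h2 : ‖ζ - T a w ζ‖ ≤ (n : ℝ)⁻¹ * (2 * ‖η‖) := by
        rw [e, norm_smul, norm_inv, Real.norm_of_nonneg hn0.le]
        refine mul_le_mul_of_nonneg_left ?_ (by positivity)
        refine (norm_sub_le _ _).trans ?_
        have := pow_norm hsym hnorm n η
        linarith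
      have h3 : ‖ζ‖ ≤ ‖η‖ := by
        rw [hζ, norm_smul, norm_inv, Real.norm_of_nonneg hn0.le]
        have h4 : ‖∑ m ∈ range n, (T a w ^ m) η‖ ≤ n * ‖η‖ := by
          refine (norm_sum_le _ _).trans ((Finset.sum_le_sum fun m _ =>
            pow_norm hsym hnorm m η).trans ?_)
          simp
        calc (n : ℝ)⁻¹ * ‖∑ m ∈ range n, (T a w ^ m) η‖ ≤ (n : ℝ)⁻¹ * (n * ‖η‖) :=
              mul_le_mul_of_nonneg_left h4 (by positivity)
          _ = ‖η‖ := by field_simp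
      have h5 : ⟪ζ - T a w ζ, ζ⟫_ℝ ≤ (n : ℝ)⁻¹ * (2 * ‖η‖) * ‖η‖ :=
        (real_inner_le_norm _ _).trans (mul_le_mul h2 h3 (norm_nonneg _) (by positivity))
      have h6 : (n : ℝ)⁻¹ ≤ 2 * (E + d) / τ := by
        rw [inv_le_comm₀ hn0 (by positivity)]
        rw [inv_div, div_le_iff₀ (by positivity)]
        have := (div_le_iff₀ (by linarith : 0 < E + d)).1 hnge
        linarith
      calc 2 * ⟪ζ - T a w ζ, ζ⟫_ℝ ≤ 2 * ((n : ℝ)⁻¹ * (2 * ‖η‖) * ‖η‖) := by linarith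
        _ = 4 * ‖η‖ ^ 2 * (n : ℝ)⁻¹ := by ring
        _ ≤ 4 * ‖η‖ ^ 2 * (2 * (E + d) / τ) := mul_le_mul_of_nonneg_left h6 (by positivity)
        _ = 16 * ‖η‖ ^ 2 * C / r ^ 2 * (E + d) := by rw [hτ]; field_simp; ring
  · refine ⟨η, hη, by simpa using hr.le, ?_⟩
    have h2 : ∑ i, w i * ‖a i η - η‖ ^ 2 ≤ 4 * ‖η‖ ^ 2 := by
      have h3 : ∀ i ∈ (Finset.univ : Finset (Fin k)),
          w i * ‖a i η - η‖ ^ 2 ≤ w i * (4 * ‖η‖ ^ 2) := by
        intro i _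
        refine mul_le_mul_of_nonneg_left ?_ (hw i)
        have h4 : ‖a i η - η‖ ≤ 2 * ‖η‖ := by
          refine (norm_sub_le _ _).trans ?_
          rw [norm_uni (huni1 i)]; linarith
        nlinarith [norm_nonneg (a i η - η), norm_nonneg η]
      refine (Finset.sum_le_sum h3).trans ?_
      rw [← Finset.sum_mul, h1, one_mul]
    refine h2.trans ?_
    have h5 : 1 ≤ (E + d) / τ := (one_le_div hτ0).2 hcase.le
    have h6 : 16 * ‖η‖ ^ 2 * C / r ^ 2 * (E + d) = 8 * ‖η‖ ^ 2 * ((E + d) / τ) := by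
      rw [hτ]; field_simp; ring
    rw [h6]
    nlinarith [sq_nonneg ‖η‖]

end Energy

/-- Energy estimate for finitely supported measures on a set `S` of unitaries. -/
theorem energy {S : Set (H →L[ℂ] H)} (hone : 1 ∈ S) (hmul : ∀ a ∈ S, ∀ b ∈ S, a * b ∈ S)
    (hstar : ∀ a ∈ S, star a ∈ S) (huni : ∀ a ∈ S, star a * a = 1) {V : Set H}
    (hVc : Convex ℝ V) (hVi : ∀ a ∈ S, ∀ v ∈ V, a v ∈ V) {ξ η : H} (hη : η ∈ V)
    (h : ∀ ε : ℝ, 0 < ε → ∃ C : ℝ, ∀ a ∈ S, ‖a η - η‖ ^ 2 ≤ ε + C * ‖a ξ - ξ‖ ^ 2)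
    {r : ℝ} (hr : 0 < r) :
    ∃ K : ℝ, 0 ≤ K ∧ ∀ (n : ℕ) (a : Fin n → H →L[ℂ] H), (∀ i, a i ∈ S) →
      ∀ t : Fin n → ℝ, (∀ i, 0 ≤ t i) → ∀ δ : ℝ, 0 < δ →
        ∃ ζ ∈ V, ‖ζ - η‖ ≤ r ∧
          ∑ i, t i * ‖a i ζ - ζ‖ ^ 2 ≤ ∑ i, t i * (K * ‖a i ξ - ξ‖ ^ 2 + δ) := by
  obtain ⟨C₀, hC₀⟩ := h (r ^ 2 / 2) (by positivity)
  set C := max C₀ 1 with hCdef
  have hC : 0 < C := lt_of_lt_of_le one_pos (le_max_right _ _)
  have hyp' : ∀ a ∈ S, ‖a η - η‖ ^ 2 ≤ r ^ 2 / 2 + C * ‖a ξ - ξ‖ ^ 2 := fun a ha =>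
    (hC₀ a ha).trans (by
      have := mul_le_mul_of_nonneg_right (le_max_left C₀ 1) (sq_nonneg ‖a ξ - ξ‖)
      linarith)
  set K := 16 * ‖η‖ ^ 2 * C / r ^ 2 with hK
  have hK0 : 0 ≤ K := by positivity
  refine ⟨K, hK0, ?_⟩
  intro n a ha t ht δ hδ
  have hW0 : 0 ≤ ∑ i, t i := Finset.sum_nonneg fun i _ => ht i
  rcases eq_or_lt_of_le hW0 with h0 | hW
  · have h1 : ∀ i, t i = 0 := fun i =>
      (Finset.sum_eq_zero_iff_of_nonneg (fun i _ => ht i)).1 h0.symm i (Finset.mem_univ _)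
    exact ⟨η, hη, by simpa using hr.le, by simp [h1]⟩
  set W := ∑ i, t i with hWdef
  have hw1 : ∑ i, t i / W = 1 := by
    rw [← Finset.sum_div, ← hWdef, div_self hW.ne']
  obtain ⟨ζ, hζV, hζ1, hζ2⟩ := Energy.averaged hone hmul hstar huni hVc hVi hη hr hC hyp'
    (a := a) (w := fun i => t i / W) ha (fun i => div_nonneg (ht i) hW.le) hw1
    (d := δ / (K + 1)) (by positivity)
  refine ⟨ζ, hζV, hζ1, ?_⟩
  rw [← hK] at hζ2
  have hs : ∀ F : Fin n → ℝ, ∑ i, t i * F i = W * ∑ i, t i / W * F i := by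
    intro F
    rw [Finset.mul_sum]
    refine Finset.sum_congr rfl fun i _ => ?_
    field_simp
  have e2 : ∑ i, t i * (K * ‖a i ξ - ξ‖ ^ 2 + δ) =
      W * (K * ∑ i, t i / W * ‖a i ξ - ξ‖ ^ 2 + δ) := by
    rw [hs, Finset.mul_sum (a := K)]
    congr 1
    have : δ = ∑ i, t i / W * δ := by rw [← Finset.sum_mul, hw1, one_mul]
    conv_rhs => rw [this]
    rw [← Finset.sum_add_distrib]
    refine Finset.sum_congr rfl fun i _ => ?_
    ring
  rw [hs, e2]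
  refine mul_le_mul_of_nonneg_left (hζ2.trans ?_) hW.le
  have h3 : K * (δ / (K + 1)) ≤ δ := by
    have h4 : K * (δ / (K + 1)) = δ * (K / (K + 1)) := by ring
    rw [h4]
    have h5 : K / (K + 1) ≤ 1 := (div_le_one (by linarith)).2 (by linarith)
    nlinarith
  rw [mul_add]
  linarith

end Pool.Agent.Helper78.BC
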