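import Pool.Agent.Helper78.BC.Defs

/-!
# Project BC, module 10: the natural family of a Lipschitz vector
-/

open scoped InnerProductSpace Topology BoundedContinuousFunction
open ContinuousLinearMap Filter

namespace Pool.Agent.Helper78.BC

variable {H : Type*} [NormedAddCommGroup H] [InnerProductSpace ℂ H] [CompleteSpace H]
variable {A : VonNeumannAlgebra H} {ξ : H} {J : H →L[ℝ] H}
  {Ψ : (ℝ →ᵇ ℂ) →⋆ₐ[ℂ] (H →L[ℂ] H)}

namespace Fam

/-- `v ζ v*` -/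
noncomputable def cj (J : H →L[ℝ] H) (v : H →L[ℂ] H) (ζ : H) : H := v (J (v (J ζ)))

theorem norm_coiso {v : H →L[ℂ] H} (hv : v * star v = 1) : ‖v‖ ≤ 1 := by
  have h1 : ‖v * star v‖ = ‖v‖ * ‖v‖ := CStarRing.norm_self_mul_star
  rw [hv] at h1
  have h2 : ‖(1 : H →L[ℂ] H)‖ ≤ 1 := ContinuousLinearMap.norm_id_le
  nlinarith [norm_nonneg v]

theorem coiso_apply {v : H →L[ℂ] H} (hv : v * star v = 1) (x : H) : v ((star v) x) = x := by
  have := congrArg (fun T : H →L[ℂ] H => T x) hv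
  simpa using this

theorem app_le {v : H →L[ℂ] H} (hv : ‖v‖ ≤ 1) (x : H) : ‖v x‖ ≤ ‖x‖ := by
  have := v.le_of_opNorm_le hv x
  simpa using this

theorem norm_cj (h : Std A ξ J Ψ) {v : H →L[ℂ] H} (hv : v * star v = 1) (ζ : H) :
    ‖cj J v ζ‖ ≤ ‖ζ‖ := by
  have h1 := norm_coiso hv
  calc ‖cj J v ζ‖ ≤ ‖J (v (J ζ))‖ := app_le h1 _
    _ = ‖v (J ζ)‖ := h.J_norm _
    _ ≤ ‖J ζ‖ := app_le h1 _
    _ = ‖ζ‖ := h.J_norm _

theorem key (h : Std A ξ J Ψ) {v w y : H →L[ℂ] H} (hv : v ∈ A) (hw : w ∈ A) (hy : y ∈ A)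
    (hvv : v * star v = 1) (hww : w * star w = 1) (ζ : H) :
    y (cj J v ζ) - rm J y (cj J w ζ) = w (J (v (J (cm J (star w * y * v) ζ)))) := by
  have hT : star w * y * v ∈ A := mul_mem (mul_mem (star_mem hw) hy) hv
  have e1 : w (J (v (J ((star w * y * v) ζ)))) = y (cj J v ζ) := by
    rw [h.J_comm v hv _ hT ζ]
    change w ((star w) (y (v (J (v (J ζ)))))) = _
    rw [coiso_apply hww]
    rfl
  have e2 : w (J (v (J (rm J (star w * y * v) ζ)))) = rm J y (cj J w ζ) := by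
    have hs : star (star w * y * v) = star v * (star y * w) := by
      simp [star_mul, mul_assoc]
    rw [rm, h.J_J, hs]
    change w (J (v ((star v) ((star y) (w (J ζ)))))) = _
    rw [coiso_apply hvv]
    unfold rm cj
    rw [h.J_comm (star y) (star_mem hy) w hw, h.J_J]
  rw [cm, map_sub, map_sub, map_sub, map_sub, e1, e2]

theorem cm_est (h : Std A ξ J Ψ) {v w y : H →L[ℂ] H} {l m e1 e2 : ℝ} (hv : Lev A ξ J l e1 v)
    (hw : Lev A ξ J m e2 w) (hy : y ∈ A) :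
    ‖cm J (star w * y * v) ξ‖ ≤
      ‖((Real.sqrt l : ℝ) : ℂ) • y ξ - ((Real.sqrt m : ℝ) : ℂ) • rm J y ξ‖ + (e1 + e2) * ‖y‖ := by
  obtain ⟨hvA, hvv, hv1⟩ := hv
  obtain ⟨hwA, hww, hw1⟩ := hw
  have nv := norm_coiso hvv
  have nw := norm_coiso hww
  have nv' : ‖star v‖ ≤ 1 := by rwa [norm_star]
  have nw' : ‖star w‖ ≤ 1 := by rwa [norm_star]
  set a : ℂ := ((Real.sqrt l : ℝ) : ℂ) with ha
  set b : ℂ := ((Real.sqrt m : ℝ) : ℂ) with hb
  have hbc : (starRingEnd ℂ) b = b := Complex.conj_ofReal _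
  have hac : (starRingEnd ℂ) a = a := Complex.conj_ofReal _
  have hs : star (star w * y * v) = star v * (star y * w) := by
    simp [star_mul, mul_assoc]
  -- the main term
  have hmain : (star w) (J ((star v) (J (a • y ξ - b • rm J y ξ)))) =
      a • (star w) (y (rm J v ξ)) - b • J ((star v) ((star y) (rm J w ξ))) := by
    have e1 : (star w) (y (rm J v ξ)) = (star w) (J ((star v) (J (y ξ)))) := by
      unfold rm
      rw [h.J_comm (star v) (star_mem hvA) y hy ξ]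
    have e2 : J ((star v) ((star y) (rm J w ξ))) = (star w) (J ((star v) (J (rm J y ξ)))) := by
      unfold rm
      rw [h.J_xi, h.J_J]
      have := h.J_comm (star v * star y) (mul_mem (star_mem hvA) (star_mem hy)) (star w)
        (star_mem hwA) ξ
      rw [h.J_xi] at this
      exact this
    rw [e1, e2]
    simp only [map_sub, h.J_conj, ContinuousLinearMap.map_smul, hac, hbc]
  have hid : cm J (star w * y * v) ξ =
      (star w) (J ((star v) (J (a • y ξ - b • rm J y ξ)))) +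
      ((star w) (y (v ξ - a • rm J v ξ)) - J ((star v) ((star y) (w ξ - b • rm J w ξ)))) := by
    rw [hmain]
    unfold cm
    have : rm J (star w * y * v) ξ = J ((star v) ((star y) (w ξ))) := by
      rw [rm, hs, h.J_xi]
      rfl
    rw [this]
    simp only [map_sub, map_smul, h.J_conj, hbc]
    change (star w) (y (v ξ)) - _ = _
    abel
  rw [hid]
  refine (norm_add_le _ _).trans ?_
  refine add_le_add ?_ ?_
  · calc ‖(star w) (J ((star v) (J (a • y ξ - b • rm J y ξ))))‖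
        ≤ ‖J ((star v) (J (a • y ξ - b • rm J y ξ)))‖ := app_le nw' _
      _ = ‖(star v) (J (a • y ξ - b • rm J y ξ))‖ := h.J_norm _
      _ ≤ ‖J (a • y ξ - b • rm J y ξ)‖ := app_le nv' _
      _ = ‖a • y ξ - b • rm J y ξ‖ := h.J_norm _
  · have f1 : ‖(star w) (y (v ξ - a • rm J v ξ))‖ ≤ e1 * ‖y‖ := by
      calc ‖(star w) (y (v ξ - a • rm J v ξ))‖ ≤ ‖y (v ξ - a • rm J v ξ)‖ := app_le nw' _
        _ ≤ ‖y‖ * ‖v ξ - a • rm J v ξ‖ := y.le_opNorm _
        _ ≤ ‖y‖ * e1 := by gcongr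
        _ = e1 * ‖y‖ := mul_comm _ _
    have f2 : ‖J ((star v) ((star y) (w ξ - b • rm J w ξ)))‖ ≤ e2 * ‖y‖ := by
      calc ‖J ((star v) ((star y) (w ξ - b • rm J w ξ)))‖
          = ‖(star v) ((star y) (w ξ - b • rm J w ξ))‖ := h.J_norm _
        _ ≤ ‖(star y) (w ξ - b • rm J w ξ)‖ := app_le nv' _
        _ ≤ ‖star y‖ * ‖w ξ - b • rm J w ξ‖ := (star y).le_opNorm _
        _ = ‖y‖ * ‖w ξ - b • rm J w ξ‖ := by rw [norm_star]
        _ ≤ ‖y‖ * e2 := by gcongr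
        _ = e2 * ‖y‖ := mul_comm _ _
    calc _ ≤ ‖(star w) (y (v ξ - a • rm J v ξ))‖ +
          ‖J ((star v) ((star y) (w ξ - b • rm J w ξ)))‖ := norm_sub_le _ _
      _ ≤ e1 * ‖y‖ + e2 * ‖y‖ := add_le_add f1 f2
      _ = _ := by ring

theorem est (h : Std A ξ J Ψ) {ζ : H} {C : ℝ} (hC : 0 ≤ C)
    (hζ : ∀ y ∈ A, ‖cm J y ζ‖ ≤ C * ‖cm J y ξ‖) {v w y : H →L[ℂ] H} {l m e1 e2 : ℝ}
    (hv : Lev A ξ J l e1 v) (hw : Lev A ξ J m e2 w) (hy : y ∈ A) :
    ‖y (cj J v ζ) - rm J y (cj J w ζ)‖ ≤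
      C * (‖((Real.sqrt l : ℝ) : ℂ) • y ξ - ((Real.sqrt m : ℝ) : ℂ) • rm J y ξ‖ +
        (e1 + e2) * ‖y‖) := by
  rw [key h hv.1 hw.1 hy hv.2.1 hw.2.1]
  have nv := norm_coiso hv.2.1
  have nw := norm_coiso hw.2.1
  have hT : star w * y * v ∈ A := mul_mem (mul_mem (star_mem hw.1) hy) hv.1
  calc ‖w (J (v (J (cm J (star w * y * v) ζ))))‖ ≤ ‖J (v (J (cm J (star w * y * v) ζ)))‖ :=
        app_le nw _
    _ = ‖v (J (cm J (star w * y * v) ζ))‖ := h.J_norm _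
    _ ≤ ‖J (cm J (star w * y * v) ζ)‖ := app_le nv _
    _ = ‖cm J (star w * y * v) ζ‖ := h.J_norm _
    _ ≤ C * ‖cm J (star w * y * v) ξ‖ := hζ _ hT
    _ ≤ _ := by
      gcongr
      exact cm_est h hv hw hy

theorem est_one (h : Std A ξ J Ψ) {ζ : H} {C : ℝ} (hC : 0 ≤ C)
    (hζ : ∀ y ∈ A, ‖cm J y ζ‖ ≤ C * ‖cm J y ξ‖) {v w : H →L[ℂ] H} {l e1 e2 : ℝ}
    (he1 : 0 ≤ e1) (he2 : 0 ≤ e2)
    (hv : Lev A ξ J l e1 v) (hw : Lev A ξ J l e2 w) :
    ‖cj J v ζ - cj J w ζ‖ ≤ C * (e1 + e2) := by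
  have h1 := est h hC hζ hv hw (one_mem A)
  have hr : ∀ x, rm J (1 : H →L[ℂ] H) x = x := by
    intro x
    rw [rm, star_one]
    exact h.J_J x
  rw [hr, hr] at h1
  have h2 : ‖(1 : H →L[ℂ] H)‖ ≤ 1 := ContinuousLinearMap.norm_id_le
  have h3 : (e1 + e2) * ‖(1 : H →L[ℂ] H)‖ ≤ e1 + e2 := by
    calc (e1 + e2) * ‖(1 : H →L[ℂ] H)‖ ≤ (e1 + e2) * 1 := by gcongr
      _ = _ := mul_one _
  refine h1.trans (mul_le_mul_of_nonneg_left ?_ hC)
  have h4 : (1 : H →L[ℂ] H) ξ = ξ := rfl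
  rw [h4, sub_self, norm_zero, zero_add]
  exact h3

theorem lev_one (h : Std A ξ J Ψ) : Lev A ξ J 1 0 1 := by
  refine ⟨one_mem A, by simp, ?_⟩
  have hr : rm J (1 : H →L[ℂ] H) ξ = ξ := by
    rw [rm, star_one]
    exact h.J_J ξ
  rw [hr]
  simp

end Fam

open Fam in
theorem exists_fam (h : Std A ξ J Ψ)
    (hlev : ∀ l : ℝ, 0 < l → l ≤ 1 → ∀ ε : ℝ, 0 < ε → ∃ v, Lev A ξ J l ε v)
    {ζ : H} {C : ℝ} (hC : 0 ≤ C) (hζ : ∀ y ∈ A, ‖cm J y ζ‖ ≤ C * ‖cm J y ξ‖) :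
    ∃ z : ℝ → H, LevFam A ξ J C ζ z := by
  have hpos : ∀ n : ℕ, (0 : ℝ) < 1 / ((n : ℝ) + 1) := fun n => by positivity
  choose! V hV using fun (l : ℝ) (hl : 0 < l) (hl1 : l ≤ 1) (n : ℕ) => hlev l hl hl1 _ (hpos n)
  have hlim0 : Tendsto (fun n : ℕ => 1 / ((n : ℝ) + 1)) atTop (𝓝 0) :=
    tendsto_one_div_add_atTop_nhds_zero_nat
  have hcau : ∀ l : ℝ, 0 < l → l ≤ 1 → CauchySeq (fun n => cj J (V l n) ζ) := by
    intro l hl hl1
    have hb : Tendsto (fun N : ℕ => C * (1 / ((N : ℝ) + 1) + 1 / ((N : ℝ) + 1))) atTop (𝓝 0) := by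
      have := (hlim0.add hlim0).const_mul C
      simpa using this
    refine cauchySeq_of_le_tendsto_0 _ ?_ hb
    intro n m N hn hm
    rw [dist_eq_norm]
    refine (est_one h hC hζ (hpos n).le (hpos m).le (hV l hl hl1 n) (hV l hl hl1 m)).trans ?_
    have a1 : 1 / ((n : ℝ) + 1) ≤ 1 / ((N : ℝ) + 1) := by
      apply one_div_le_one_div_of_le (by positivity)
      have : (N : ℝ) ≤ n := by exact_mod_cast hn
      linarith
    have a2 : 1 / ((m : ℝ) + 1) ≤ 1 / ((N : ℝ) + 1) := by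
      apply one_div_le_one_div_of_le (by positivity)
      have : (N : ℝ) ≤ m := by exact_mod_cast hm
      linarith
    gcongr
  have hex : ∀ l : ℝ, ∃ x : H, 0 < l → l ≤ 1 → Tendsto (fun n => cj J (V l n) ζ) atTop (𝓝 x) := by
    intro l
    by_cases hl : 0 < l ∧ l ≤ 1
    · obtain ⟨x, hx⟩ := cauchySeq_tendsto_of_complete (hcau l hl.1 hl.2)
      exact ⟨x, fun _ _ => hx⟩
    · exact ⟨0, fun h1 h2 => absurd ⟨h1, h2⟩ hl⟩
  choose z hz using hex
  refine ⟨z, ?_, ?_, ?_⟩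
  · have h1 := hz 1 one_pos le_rfl
    have hc1 : cj J (1 : H →L[ℂ] H) ζ = ζ := by
      change J (J ζ) = ζ
      exact h.J_J ζ
    have h2 : Tendsto (fun n => cj J (V 1 n) ζ) atTop (𝓝 ζ) := by
      rw [tendsto_iff_norm_sub_tendsto_zero]
      have hb : Tendsto (fun N : ℕ => C * (1 / ((N : ℝ) + 1) + 0)) atTop (𝓝 0) := by
        have := (hlim0.add (tendsto_const_nhds (x := (0 : ℝ)))).const_mul C
        simpa using this
      refine squeeze_zero (fun n => norm_nonneg _) (fun n => ?_) hb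
      have := est_one h hC hζ (hpos n).le le_rfl (hV 1 one_pos le_rfl n) (lev_one h)
      rwa [hc1] at this
    exact tendsto_nhds_unique h1 h2
  · intro l hl hl1
    exact le_of_tendsto' (hz l hl hl1).norm fun n => norm_cj h (hV l hl hl1 n).2.1 ζ
  · intro l m hl hl1 hm hm1 y hy
    have t1 : Tendsto (fun n => ‖y (cj J (V l n) ζ) - rm J y (cj J (V m n) ζ)‖) atTop
        (𝓝 ‖y (z l) - rm J y (z m)‖) := by
      refine Tendsto.norm (Tendsto.sub ?_ ?_)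
      · exact (y.continuous.tendsto _).comp (hz l hl hl1)
      · have hc : Continuous (fun x : H => rm J y x) := by
          unfold rm
          exact J.continuous.comp ((star y).continuous.comp J.continuous)
        exact (hc.tendsto _).comp (hz m hm hm1)
    have t2 : Tendsto (fun n : ℕ => C * (‖((Real.sqrt l : ℝ) : ℂ) • y ξ -
        ((Real.sqrt m : ℝ) : ℂ) • rm J y ξ‖ + (1 / ((n : ℝ) + 1) + 1 / ((n : ℝ) + 1)) * ‖y‖)) atTop
        (𝓝 (C * ‖((Real.sqrt l : ℝ) : ℂ) • y ξ - ((Real.sqrt m : ℝ) : ℂ) • rm J y ξ‖)) := by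
      have h0 : Tendsto (fun n : ℕ => (1 / ((n : ℝ) + 1) + 1 / ((n : ℝ) + 1)) * ‖y‖) atTop
          (𝓝 0) := by
        have := (hlim0.add hlim0).mul_const ‖y‖
        simpa using this
      have := (h0.const_add ‖((Real.sqrt l : ℝ) : ℂ) • y ξ -
        ((Real.sqrt m : ℝ) : ℂ) • rm J y ξ‖).const_mul C
      simpa using this
    exact le_of_tendsto_of_tendsto' t1 t2 fun n =>
      est h hC hζ (hV l hl hl1 n) (hV m hm hm1 n) hy

end Pool.Agent.Helper78.BC
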