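import Pool.Agent.Helper78.BC.Defs

/-!
# Project BC, module 11: spectral form of the relations between levels
-/

open scoped InnerProductSpace Topology BoundedContinuousFunction
open ContinuousLinearMap Filter

namespace Pool.Agent.Helper78.BC

variable {H : Type*} [NormedAddCommGroup H] [InnerProductSpace ℂ H] [CompleteSpace H]
variable {A : VonNeumannAlgebra H} {ξ : H} {J : H →L[ℝ] H}
  {Ψ : (ℝ →ᵇ ℂ) →⋆ₐ[ℂ] (H →L[ℂ] H)}

namespace FamPsi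

/-- `Ψ` is a contraction. -/
lemma norm_psi_le (Ψ : (ℝ →ᵇ ℂ) →⋆ₐ[ℂ] (H →L[ℂ] H)) (F : ℝ →ᵇ ℂ) : ‖Ψ F‖ ≤ ‖F‖ := by
  exact NonUnitalStarAlgHom.norm_apply_le Ψ F

/-- the relation paired with `ξ` -/
lemma rel_pair (h : Std A ξ J Ψ) {C : ℝ} {ζ : H} {z : ℝ → H}
    (hz : LevFam A ξ J C ζ z) {l m : ℝ} (hl : 0 < l) (hl1 : l ≤ 1) (hm : 0 < m) (hm1 : m ≤ 1)
    {b : H →L[ℂ] H} (hb : b ∈ A) :
    ‖⟪b ξ, z l⟫_ℂ - ⟪J ((star b) ξ), z m⟫_ℂ‖ ≤
      C * ‖((Real.sqrt l : ℝ) : ℂ) • J ((star b) ξ) - ((Real.sqrt m : ℝ) : ℂ) • b ξ‖ := by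
  have h1 := hz.rel l m hl hl1 hm hm1 (star b) (star_mem hb)
  have h2 : ‖((Real.sqrt l : ℝ) : ℂ) • (star b) ξ - ((Real.sqrt m : ℝ) : ℂ) • rm J (star b) ξ‖ =
      ‖((Real.sqrt l : ℝ) : ℂ) • J ((star b) ξ) - ((Real.sqrt m : ℝ) : ℂ) • b ξ‖ := by
    rw [← h.J_norm, map_sub, h.J_conj, h.J_conj, rm, star_star, h.J_J, h.J_xi, Complex.conj_ofReal,
      Complex.conj_ofReal]
  rw [h2] at h1
  have h3 : ⟪b ξ, z l⟫_ℂ - ⟪J ((star b) ξ), z m⟫_ℂ =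
      ⟪ξ, (star b) (z l) - rm J (star b) (z m)⟫_ℂ := by
    rw [inner_sub_right]
    congr 1
    · rw [ContinuousLinearMap.star_eq_adjoint, ContinuousLinearMap.adjoint_inner_right]
    · rw [rm, star_star]
      conv_rhs => rw [← h.J_xi, h.J_inner]
      conv_lhs => rw [← h.J_J (z m), h.J_inner, ContinuousLinearMap.star_eq_adjoint,
        ContinuousLinearMap.adjoint_inner_right]
  rw [h3]
  refine (norm_inner_le_norm _ _).trans ?_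
  rw [h.norm_one, one_mul]
  exact h1

end FamPsi

open FamPsi in
theorem fam_psi (h : Std A ξ J Ψ) {C : ℝ} (hC : 0 ≤ C) {ζ : H} {z : ℝ → H}
    (hz : LevFam A ξ J C ζ z) {l m : ℝ} (hl : 0 < l) (hl1 : l ≤ 1) (hm : 0 < m) (hm1 : m ≤ 1)
    {G G' : ℝ →ᵇ ℂ} (hG : HasCompactSupport G) (hreal : ∀ ρ, (G ρ).im = 0)
    (hG' : ∀ ρ, G' ρ = ((Real.exp (ρ / 2) : ℝ) : ℂ) * G ρ) {s : ℝ}
    (hs : ∀ ρ, ‖G ρ‖ * |Real.sqrt l * Real.exp (ρ / 2) - Real.sqrt m| ≤ s) :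
    ‖Ψ G (z l) - Ψ G' (z m)‖ ≤ C * s := by
  have hs0 : 0 ≤ s := (mul_nonneg (norm_nonneg _) (abs_nonneg _)).trans (hs 0)
  -- self-adjointness
  have sG : star G = G := by
    ext ρ
    simp only [BoundedContinuousFunction.star_apply]
    exact Complex.conj_eq_iff_im.2 (hreal ρ)
  have sG' : star G' = G' := by
    ext ρ
    simp only [BoundedContinuousFunction.star_apply]
    refine Complex.conj_eq_iff_im.2 ?_
    rw [hG', Complex.im_ofReal_mul, hreal, mul_zero]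
  have aG : ∀ u v : H, ⟪Ψ G u, v⟫_ℂ = ⟪u, Ψ G v⟫_ℂ := by
    intro u v
    have : Ψ G = star (Ψ G) := by rw [← map_star, sG]
    conv_rhs => rw [this, ContinuousLinearMap.star_eq_adjoint,
      ContinuousLinearMap.adjoint_inner_right]
  have aG' : ∀ u v : H, ⟪Ψ G' u, v⟫_ℂ = ⟪u, Ψ G' v⟫_ℂ := by
    intro u v
    have : Ψ G' = star (Ψ G') := by rw [← map_star, sG']
    conv_rhs => rw [this, ContinuousLinearMap.star_eq_adjoint,
      ContinuousLinearMap.adjoint_inner_right]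
  -- the combination
  have hF : ∀ θ : H, ‖((Real.sqrt l : ℝ) : ℂ) • Ψ G' θ - ((Real.sqrt m : ℝ) : ℂ) • Ψ G θ‖ ≤
      s * ‖θ‖ := by
    intro θ
    have e : ((Real.sqrt l : ℝ) : ℂ) • Ψ G' θ - ((Real.sqrt m : ℝ) : ℂ) • Ψ G θ =
        Ψ (((Real.sqrt l : ℝ) : ℂ) • G' - ((Real.sqrt m : ℝ) : ℂ) • G) θ := by
      rw [map_sub, map_smul, map_smul]
      rfl
    rw [e]
    refine (ContinuousLinearMap.le_opNorm _ _).trans ?_
    refine mul_le_mul_of_nonneg_right ((norm_psi_le Ψ _).trans ?_) (norm_nonneg _)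
    refine (BoundedContinuousFunction.norm_le hs0).2 fun ρ => ?_
    have : ((((Real.sqrt l : ℝ) : ℂ) • G' - ((Real.sqrt m : ℝ) : ℂ) • G : ℝ →ᵇ ℂ)) ρ =
        G ρ * ((Real.sqrt l * Real.exp (ρ / 2) - Real.sqrt m : ℝ) : ℂ) := by
      simp only [BoundedContinuousFunction.coe_sub, BoundedContinuousFunction.coe_smul,
        Pi.sub_apply, smul_eq_mul, hG']
      push_cast
      ring
    rw [this, norm_mul, Complex.norm_real, Real.norm_eq_abs]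
    exact hs ρ
  -- the estimate for every `θ`
  have key : ∀ θ : H, ‖⟪Ψ G θ, z l⟫_ℂ - ⟪Ψ G' θ, z m⟫_ℂ‖ ≤ C * (s * ‖θ‖) := by
    intro θ
    refine le_of_forall_pos_le_add fun δ hδ => ?_
    set K : ℝ := ‖z l‖ + ‖z m‖ + C * (Real.sqrt l + Real.sqrt m) + 1 with hK
    have hK0 : 0 < K := by positivity
    obtain ⟨b, hb, h1, h2⟩ := h.core G G' hG hG' θ (δ / K) (by positivity)
    have h3 := rel_pair h hz hl hl1 hm hm1 hb
    set ε := δ / K with hε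
    have hε0 : 0 < ε := by positivity
    have h4 : ‖⟪Ψ G θ - b ξ, z l⟫_ℂ‖ ≤ ε * ‖z l‖ := by
      refine (norm_inner_le_norm _ _).trans ?_
      rw [norm_sub_rev]
      exact mul_le_mul_of_nonneg_right h1 (norm_nonneg _)
    have h5 : ‖⟪Ψ G' θ - J ((star b) ξ), z m⟫_ℂ‖ ≤ ε * ‖z m‖ := by
      refine (norm_inner_le_norm _ _).trans ?_
      rw [norm_sub_rev]
      exact mul_le_mul_of_nonneg_right h2 (norm_nonneg _)
    have h6 : ‖((Real.sqrt l : ℝ) : ℂ) • J ((star b) ξ) - ((Real.sqrt m : ℝ) : ℂ) • b ξ‖ ≤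
        s * ‖θ‖ + ε * (Real.sqrt l + Real.sqrt m) := by
      have e : ((Real.sqrt l : ℝ) : ℂ) • J ((star b) ξ) - ((Real.sqrt m : ℝ) : ℂ) • b ξ =
          (((Real.sqrt l : ℝ) : ℂ) • Ψ G' θ - ((Real.sqrt m : ℝ) : ℂ) • Ψ G θ) +
          (((Real.sqrt l : ℝ) : ℂ) • (J ((star b) ξ) - Ψ G' θ) -
            ((Real.sqrt m : ℝ) : ℂ) • (b ξ - Ψ G θ)) := by
        simp only [smul_sub]
        abel
      rw [e]
      refine (norm_add_le _ _).trans (add_le_add (hF θ) ?_)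
      refine (norm_sub_le _ _).trans ?_
      rw [norm_smul, norm_smul, Complex.norm_real, Complex.norm_real, Real.norm_eq_abs,
        Real.norm_eq_abs, abs_of_nonneg (Real.sqrt_nonneg _), abs_of_nonneg (Real.sqrt_nonneg _)]
      have a1 := mul_le_mul_of_nonneg_left h2 (Real.sqrt_nonneg l)
      have a2 := mul_le_mul_of_nonneg_left h1 (Real.sqrt_nonneg m)
      linarith
    have e : ⟪Ψ G θ, z l⟫_ℂ - ⟪Ψ G' θ, z m⟫_ℂ =
        (⟪b ξ, z l⟫_ℂ - ⟪J ((star b) ξ), z m⟫_ℂ) +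
        (⟪Ψ G θ - b ξ, z l⟫_ℂ - ⟪Ψ G' θ - J ((star b) ξ), z m⟫_ℂ) := by
      rw [inner_sub_left, inner_sub_left]
      ring
    rw [e]
    have h7 : ‖⟪Ψ G θ - b ξ, z l⟫_ℂ - ⟪Ψ G' θ - J ((star b) ξ), z m⟫_ℂ‖ ≤
        ε * ‖z l‖ + ε * ‖z m‖ := (norm_sub_le _ _).trans (add_le_add h4 h5)
    have h8 : C * ‖((Real.sqrt l : ℝ) : ℂ) • J ((star b) ξ) - ((Real.sqrt m : ℝ) : ℂ) • b ξ‖ ≤
        C * (s * ‖θ‖ + ε * (Real.sqrt l + Real.sqrt m)) := mul_le_mul_of_nonneg_left h6 hC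
    have h9 : ε * K = δ := by rw [hε]; field_simp
    have h10 : ε * ‖z l‖ + ε * ‖z m‖ + C * (ε * (Real.sqrt l + Real.sqrt m)) ≤ δ := by
      rw [← h9, hK]
      nlinarith
    calc _ ≤ ‖⟪b ξ, z l⟫_ℂ - ⟪J ((star b) ξ), z m⟫_ℂ‖ +
          ‖⟪Ψ G θ - b ξ, z l⟫_ℂ - ⟪Ψ G' θ - J ((star b) ξ), z m⟫_ℂ‖ := norm_add_le _ _
      _ ≤ C * (s * ‖θ‖ + ε * (Real.sqrt l + Real.sqrt m)) + (ε * ‖z l‖ + ε * ‖z m‖) :=
          add_le_add (h3.trans h8) h7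
      _ ≤ C * (s * ‖θ‖) + δ := by
          rw [mul_add]
          linarith
  -- conclusion
  set θ := Ψ G (z l) - Ψ G' (z m) with hθ
  have h1 := key θ
  rw [aG, aG', ← inner_sub_right, ← hθ, inner_self_eq_norm_sq_to_K, norm_pow] at h1
  simp only [RCLike.ofReal_eq_complex_ofReal, Complex.norm_real, norm_norm] at h1
  rcases eq_or_lt_of_le (norm_nonneg θ) with h0 | h0
  · rw [← h0]
    positivity
  · have : ‖θ‖ * ‖θ‖ ≤ C * s * ‖θ‖ := by nlinarith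
    exact le_of_mul_le_mul_right this h0

end Pool.Agent.Helper78.BC
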