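import Mathlib

/-!
# Project BC, module 3: finite intersection property in Hilbert space
-/

namespace Pool.Agent.Helper78.BC

theorem fip {H : Type*} [NormedAddCommGroup H] [InnerProductSpace ℝ H] [CompleteSpace H]
    {ι : Type*} (F : ι → Set H) (hc : ∀ i, Convex ℝ (F i)) (hcl : ∀ i, IsClosed (F i))
    (hb : ∀ i, Bornology.IsBounded (F i))
    (h : ∀ s : Finset ι, (⋂ i ∈ s, F i).Nonempty) : (⋂ i, F i).Nonempty := by
  classical
  rcases isEmpty_or_nonempty ι with hι | ⟨⟨i0⟩⟩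
  · rw [Set.iInter_of_empty]
    exact ⟨0, trivial⟩
  have hconv : ∀ s : Finset ι, Convex ℝ (⋂ i ∈ s, F i) := fun s =>
    convex_iInter₂ fun i _ => hc i
  have hclos : ∀ s : Finset ι, IsClosed (⋂ i ∈ s, F i) := fun s =>
    isClosed_biInter fun i _ => hcl i
  have hex : ∀ s : Finset ι, ∃ v ∈ (⋂ i ∈ s, F i), ∀ w ∈ (⋂ i ∈ s, F i), ‖v‖ ≤ ‖w‖ := by
    intro s
    obtain ⟨v, hv, hmin⟩ := exists_norm_eq_iInf_of_complete_convex (h s) (hclos s).isComplete
      (hconv s) (0 : H)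
    refine ⟨v, hv, fun w hw => ?_⟩
    have h1 : (⨅ w : ((⋂ i ∈ s, F i : Set H)), ‖(0 : H) - w‖) ≤ ‖(0 : H) - w‖ :=
      ciInf_le ⟨0, by rintro _ ⟨y, rfl⟩; exact norm_nonneg _⟩ (⟨w, hw⟩ : ((⋂ i ∈ s, F i : Set H)))
    rw [← hmin, zero_sub, zero_sub, norm_neg, norm_neg] at h1
    exact h1
  choose m hm hmin using hex
  have hsub : ∀ s t : Finset ι, s ⊆ t → m t ∈ (⋂ i ∈ s, F i) := by
    intro s t hst
    have := hm t
    rw [Set.mem_iInter₂] at this ⊢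
    exact fun i hi => this i (hst hi)
  have hmono : Monotone fun s : Finset ι => ‖m s‖ ^ 2 := by
    intro s t hst
    have h1 := hmin s (m t) (hsub s t hst)
    show ‖m s‖ ^ 2 ≤ ‖m t‖ ^ 2
    gcongr
  have hpar : ∀ s t : Finset ι, s ⊆ t → ‖m t - m s‖ ^ 2 ≤ 2 * (‖m t‖ ^ 2 - ‖m s‖ ^ 2) := by
    intro s t hst
    have hmid : (1 / 2 : ℝ) • m s + (1 / 2 : ℝ) • m t ∈ (⋂ i ∈ s, F i) :=
      hconv s (hm s) (hsub s t hst) (by norm_num) (by norm_num) (by norm_num)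
    have h1 := hmin s _ hmid
    rw [← smul_add, norm_smul] at h1
    have h2 : ‖(1 / 2 : ℝ)‖ = 1 / 2 := by norm_num
    rw [h2] at h1
    have h3 := parallelogram_law_with_norm ℝ (m t) (m s)
    have h4 : 2 * ‖m s‖ ≤ ‖m t + m s‖ := by rw [add_comm (m t)]; linarith
    have h5 := norm_nonneg (m s)
    nlinarith [norm_nonneg (m t - m s), norm_nonneg (m t + m s)]
  obtain ⟨R, hR⟩ := (hb i0).exists_norm_le
  have hbdd : BddAbove (Set.range fun s : Finset ι => ‖m s‖ ^ 2) := by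
    refine ⟨R ^ 2, ?_⟩
    rintro _ ⟨s, rfl⟩
    have h1 : m (insert i0 s) ∈ F i0 := by
      have := hm (insert i0 s)
      rw [Set.mem_iInter₂] at this
      exact this i0 (Finset.mem_insert_self _ _)
    have h2 := hR _ h1
    have h3 : ‖m s‖ ^ 2 ≤ ‖m (insert i0 s)‖ ^ 2 := hmono (Finset.subset_insert _ _)
    have h4 : ‖m (insert i0 s)‖ ^ 2 ≤ R ^ 2 := by gcongr
    exact h3.trans h4
  have hcau : CauchySeq m := by
    rw [Metric.cauchySeq_iff']
    intro ε hε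
    obtain ⟨s, hs⟩ := exists_lt_of_lt_ciSup
      (show (⨆ s : Finset ι, ‖m s‖ ^ 2) - ε ^ 2 / 4 < ⨆ s : Finset ι, ‖m s‖ ^ 2 by
        have := pow_pos hε 2
        linarith)
    refine ⟨s, fun t ht => ?_⟩
    rw [dist_eq_norm]
    have h1 := hpar s t ht
    have h2 : ‖m t‖ ^ 2 ≤ ⨆ s : Finset ι, ‖m s‖ ^ 2 := le_ciSup hbdd t
    have h3 : ‖m t - m s‖ ^ 2 < ε ^ 2 := by
      have := pow_pos hε 2
      linarith
    exact lt_of_pow_lt_pow_left₀ 2 hε.le h3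
  obtain ⟨v, hv⟩ := cauchySeq_tendsto_of_complete hcau
  refine ⟨v, Set.mem_iInter.2 fun i => ?_⟩
  refine (hcl i).mem_of_tendsto hv ?_
  filter_upwards [Filter.eventually_ge_atTop ({i} : Finset ι)] with s hs
  have := hm s
  rw [Set.mem_iInter₂] at this
  exact this i (hs (Finset.mem_singleton_self i))

end Pool.Agent.Helper78.BC
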