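import Pool.Agent.Helper78.BC.Defs

/-!
# Project BC, module 13: vectors without spectrum off zero are fixed
-/

open scoped InnerProductSpace Topology BoundedContinuousFunction
open ContinuousLinearMap Filter

namespace Pool.Agent.Helper78.BC

namespace FixAux

/-- the real cut-off: `0` for `ρ ≤ 1/(n+1)` and for `ρ ≥ n+2`, `1` on `[2/(n+1), n+1]` -/
noncomputable def kap (n : ℕ) (ρ : ℝ) : ℝ :=
  min 1 (max 0 (((n : ℝ) + 1) * ρ - 1)) * min 1 (max 0 ((n : ℝ) + 2 - ρ))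

theorem kap_cont (n : ℕ) : Continuous (kap n) := by
  unfold kap
  fun_prop

theorem mm_nonneg (t : ℝ) : 0 ≤ min 1 (max 0 t) := le_min zero_le_one (le_max_left _ _)

theorem mm_le (t : ℝ) : min 1 (max 0 t) ≤ 1 := min_le_left _ _

theorem mm_zero {t : ℝ} (h : t ≤ 0) : min 1 (max 0 t) = 0 := by
  rw [max_eq_left h]
  exact min_eq_right zero_le_one

theorem mm_one {t : ℝ} (h : 1 ≤ t) : min 1 (max 0 t) = 1 :=
  min_eq_left (h.trans (le_max_right _ _))

theorem kap_nonneg (n : ℕ) (ρ : ℝ) : 0 ≤ kap n ρ := mul_nonneg (mm_nonneg _) (mm_nonneg _)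

theorem kap_le (n : ℕ) (ρ : ℝ) : kap n ρ ≤ 1 :=
  mul_le_one₀ (mm_le _) (mm_nonneg _) (mm_le _)

theorem kap_zero_left {n : ℕ} {ρ : ℝ} (h : ρ ≤ 1 / ((n : ℝ) + 1)) : kap n ρ = 0 := by
  unfold kap
  have hn : (0 : ℝ) < (n : ℝ) + 1 := by positivity
  rw [mm_zero, zero_mul]
  rw [le_div_iff₀ hn] at h
  linarith

theorem kap_zero_right {n : ℕ} {ρ : ℝ} (h : (n : ℝ) + 2 ≤ ρ) : kap n ρ = 0 := by
  unfold kap
  rw [mm_zero (t := (n : ℝ) + 2 - ρ) (by linarith), mul_zero]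

theorem kap_one {n : ℕ} {ρ : ℝ} (h : 2 / ((n : ℝ) + 1) ≤ ρ) (h' : ρ ≤ (n : ℝ) + 1) :
    kap n ρ = 1 := by
  unfold kap
  have hn : (0 : ℝ) < (n : ℝ) + 1 := by positivity
  rw [div_le_iff₀ hn] at h
  rw [mm_one (by linarith), mm_one (by linarith), one_mul]

/-- the cut-off on the right half line -/
noncomputable def Kp (n : ℕ) : ℝ →ᵇ ℂ :=
  BoundedContinuousFunction.ofNormedAddCommGroup (fun ρ : ℝ => ((kap n ρ : ℝ) : ℂ))
    (Complex.continuous_ofReal.comp (kap_cont n)) 1 (fun ρ => by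
      rw [Complex.norm_real, Real.norm_of_nonneg (kap_nonneg n ρ)]
      exact kap_le n ρ)

/-- the cut-off on the left half line -/
noncomputable def Km (n : ℕ) : ℝ →ᵇ ℂ :=
  BoundedContinuousFunction.ofNormedAddCommGroup (fun ρ : ℝ => ((kap n (-ρ) : ℝ) : ℂ))
    (Complex.continuous_ofReal.comp ((kap_cont n).comp continuous_neg)) 1 (fun ρ => by
      rw [Complex.norm_real, Real.norm_of_nonneg (kap_nonneg n (-ρ))]
      exact kap_le n (-ρ))

theorem Kp_apply (n : ℕ) (ρ : ℝ) : Kp n ρ = ((kap n ρ : ℝ) : ℂ) := rfl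

theorem Km_apply (n : ℕ) (ρ : ℝ) : Km n ρ = ((kap n (-ρ) : ℝ) : ℂ) := rfl

theorem norm_Kp_le (n : ℕ) : ‖Kp n‖ ≤ 1 :=
  BoundedContinuousFunction.norm_ofNormedAddCommGroup_le _ zero_le_one _

theorem norm_Km_le (n : ℕ) : ‖Km n‖ ≤ 1 :=
  BoundedContinuousFunction.norm_ofNormedAddCommGroup_le _ zero_le_one _

/-- reflection and conjugation of a bounded continuous function -/
noncomputable def refl (G : ℝ →ᵇ ℂ) : ℝ →ᵇ ℂ :=
  BoundedContinuousFunction.ofNormedAddCommGroup (fun ρ : ℝ => (starRingEnd ℂ) (G (-ρ)))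
    (Complex.continuous_conj.comp (G.continuous.comp continuous_neg)) ‖G‖ (fun ρ => by
      rw [RCLike.norm_conj]
      exact G.norm_coe_le_norm _)

theorem refl_apply (G : ℝ →ᵇ ℂ) (ρ : ℝ) : refl G ρ = (starRingEnd ℂ) (G (-ρ)) := rfl

/-- the plateau function: `1` on `[-n, n]`, `0` off `[-n-1, n+1]` -/
noncomputable def plat (n : ℕ) (ρ : ℝ) : ℝ := min 1 (max 0 ((n : ℝ) + 1 - |ρ|))

theorem plat_cont (n : ℕ) : Continuous (plat n) := by
  unfold plat
  fun_prop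

noncomputable def Pl (n : ℕ) : ℝ →ᵇ ℂ :=
  BoundedContinuousFunction.ofNormedAddCommGroup (fun ρ : ℝ => ((plat n ρ : ℝ) : ℂ))
    (Complex.continuous_ofReal.comp (plat_cont n)) 1 (fun ρ => by
      rw [Complex.norm_real, Real.norm_of_nonneg (show 0 ≤ plat n ρ from mm_nonneg _)]
      exact mm_le _)

theorem Pl_apply (n : ℕ) (ρ : ℝ) : Pl n ρ = ((plat n ρ : ℝ) : ℂ) := rfl

theorem norm_Pl_le (n : ℕ) : ‖Pl n‖ ≤ 1 :=
  BoundedContinuousFunction.norm_ofNormedAddCommGroup_le _ zero_le_one _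

theorem exp_plat_le (n : ℕ) (ρ : ℝ) :
    ‖((Real.exp (ρ / 2) : ℝ) : ℂ) * ((plat n ρ : ℝ) : ℂ)‖ ≤ Real.exp (((n : ℝ) + 1) / 2) := by
  rw [norm_mul, Complex.norm_real, Complex.norm_real, Real.norm_of_nonneg (Real.exp_pos _).le,
    Real.norm_of_nonneg (show 0 ≤ plat n ρ from mm_nonneg _)]
  rcases le_or_gt |ρ| ((n : ℝ) + 1) with h | h
  · have h1 : Real.exp (ρ / 2) ≤ Real.exp (((n : ℝ) + 1) / 2) :=
      Real.exp_le_exp.2 (by linarith [le_abs_self ρ])
    calc Real.exp (ρ / 2) * plat n ρ ≤ Real.exp (ρ / 2) * 1 :=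
          mul_le_mul_of_nonneg_left (mm_le _) (Real.exp_pos _).le
      _ ≤ _ := by rw [mul_one]; exact h1
  · rw [show plat n ρ = 0 from mm_zero (by linarith), mul_zero]
    exact (Real.exp_pos _).le

noncomputable def Pe (n : ℕ) : ℝ →ᵇ ℂ :=
  BoundedContinuousFunction.ofNormedAddCommGroup
    (fun ρ : ℝ => ((Real.exp (ρ / 2) : ℝ) : ℂ) * ((plat n ρ : ℝ) : ℂ))
    ((Complex.continuous_ofReal.comp (by fun_prop)).mul
      (Complex.continuous_ofReal.comp (plat_cont n))) (Real.exp (((n : ℝ) + 1) / 2))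
    (exp_plat_le n)

theorem Pe_apply (n : ℕ) (ρ : ℝ) :
    Pe n ρ = ((Real.exp (ρ / 2) : ℝ) : ℂ) * ((plat n ρ : ℝ) : ℂ) := rfl

theorem plat_one {n : ℕ} {ρ : ℝ} (h : |ρ| ≤ n) : plat n ρ = 1 := mm_one (by linarith)

theorem Pe_zero (n : ℕ) : Pe n 0 = 1 := by
  rw [Pe_apply, plat_one (by rw [abs_zero]; exact Nat.cast_nonneg n)]
  simp

/-- `Pl n → 1` locally uniformly -/
theorem Pl_tendsto (L : ℝ) :
    TendstoUniformlyOn (fun n ρ => Pl n ρ) (fun ρ => (1 : ℝ →ᵇ ℂ) ρ) atTop (Set.Icc (-L) L) := by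
  rw [Metric.tendstoUniformlyOn_iff]
  intro ε hε
  obtain ⟨N, hN⟩ := exists_nat_ge L
  filter_upwards [eventually_ge_atTop N] with n hn ρ hρ
  have h1 : |ρ| ≤ (n : ℝ) := by
    have h2 : (N : ℝ) ≤ n := by exact_mod_cast hn
    rw [abs_le]
    constructor
    · linarith [hρ.1]
    · linarith [hρ.2]
  rw [Pl_apply, plat_one h1]
  simpa using hε

end FixAux

open FixAux

variable {H : Type*} [NormedAddCommGroup H] [InnerProductSpace ℂ H] [CompleteSpace H]
variable {A : VonNeumannAlgebra H} {ξ : H} {J : H →L[ℝ] H}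
  {Ψ : (ℝ →ᵇ ℂ) →⋆ₐ[ℂ] (H →L[ℂ] H)}

namespace FixAux

/-- functions vanishing at zero annihilate `ζ` -/
theorem psi_zero_of_zero (h : Std A ξ J Ψ) {ζ : H} (hJ : J ζ = ζ)
    (h0 : ∀ a b : ℝ, 0 < a → a < b → ∀ G : ℝ →ᵇ ℂ, (∀ ρ, ρ ∉ Set.Icc a b → G ρ = 0) →
      Ψ G ζ = 0) (G : ℝ →ᵇ ℂ) (hG : G 0 = 0) : Ψ G ζ = 0 := by
  have ha : ∀ n : ℕ, (0 : ℝ) < 1 / ((n : ℝ) + 1) := fun n => by positivity
  have hab : ∀ n : ℕ, 1 / ((n : ℝ) + 1) < (n : ℝ) + 2 := fun n => by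
    have h1 : 1 / ((n : ℝ) + 1) ≤ 1 := by
      rw [div_le_one (by positivity)]
      linarith [Nat.cast_nonneg (α := ℝ) n]
    linarith [Nat.cast_nonneg (α := ℝ) n]
  have hp : ∀ n : ℕ, Ψ (G * Kp n) ζ = 0 := by
    intro n
    refine h0 _ _ (ha n) (hab n) _ fun ρ hρ => ?_
    rw [BoundedContinuousFunction.coe_mul, Pi.mul_apply, Kp_apply]
    rw [Set.mem_Icc, not_and_or, not_le, not_le] at hρ
    rcases hρ with hρ | hρ
    · rw [kap_zero_left hρ.le, Complex.ofReal_zero, mul_zero]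
    · rw [kap_zero_right hρ.le, Complex.ofReal_zero, mul_zero]
  have hm : ∀ n : ℕ, Ψ (G * Km n) ζ = 0 := by
    intro n
    have h1 := h.psi_J (G * Km n) (refl (G * Km n)) (fun ρ => rfl) ζ
    rw [hJ] at h1
    have h2 : Ψ (refl (G * Km n)) ζ = 0 := by
      refine h0 _ _ (ha n) (hab n) _ fun ρ hρ => ?_
      rw [refl_apply, BoundedContinuousFunction.coe_mul, Pi.mul_apply, Km_apply, neg_neg]
      rw [Set.mem_Icc, not_and_or, not_le, not_le] at hρ
      rcases hρ with hρ | hρ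
      · rw [kap_zero_left hρ.le, Complex.ofReal_zero, mul_zero, map_zero]
      · rw [kap_zero_right hρ.le, Complex.ofReal_zero, mul_zero, map_zero]
    rw [h2] at h1
    rw [← h.J_J (Ψ (G * Km n) ζ), h1, map_zero]
  have hlim := h.psi_cont (fun n => G * Kp n + G * Km n) G (2 * ‖G‖) ?_ ?_ ζ
  · refine tendsto_nhds_unique hlim ?_
    have h1 : (fun n => Ψ (G * Kp n + G * Km n) ζ) = fun _ => (0 : H) := by
      funext n
      rw [map_add, ContinuousLinearMap.add_apply, hp n, hm n, add_zero]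
    rw [h1]
    exact tendsto_const_nhds
  · intro n
    have h1 : ‖G * Kp n‖ ≤ ‖G‖ :=
      (norm_mul_le _ _).trans (mul_le_of_le_one_right (norm_nonneg _) (norm_Kp_le n))
    have h2 : ‖G * Km n‖ ≤ ‖G‖ :=
      (norm_mul_le _ _).trans (mul_le_of_le_one_right (norm_nonneg _) (norm_Km_le n))
    have h3 := norm_add_le (G * Kp n) (G * Km n)
    linarith
  · intro L
    rw [Metric.tendstoUniformlyOn_iff]
    intro ε hε
    have hc0 : ContinuousAt (fun ρ : ℝ => G ρ) 0 := G.continuous.continuousAt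
    obtain ⟨δ, hδ, hδε⟩ := Metric.continuousAt_iff.1 hc0 ε hε
    obtain ⟨N, hN⟩ := exists_nat_ge (max L (2 / δ))
    filter_upwards [eventually_ge_atTop N] with n hn ρ hρ
    have hnN : (N : ℝ) ≤ n := by exact_mod_cast hn
    have hL : L ≤ n := (le_max_left _ _).trans (hN.trans hnN)
    have hd : 2 / ((n : ℝ) + 1) < δ := by
      have h1 : 2 / δ ≤ n := (le_max_right _ _).trans (hN.trans hnN)
      rw [div_le_iff₀ hδ] at h1
      rw [div_lt_iff₀ (by positivity)]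
      nlinarith
    have hval : (G * Kp n + G * Km n) ρ =
        G ρ * (((kap n ρ + kap n (-ρ) : ℝ)) : ℂ) := by
      rw [BoundedContinuousFunction.coe_add, Pi.add_apply, BoundedContinuousFunction.coe_mul,
        BoundedContinuousFunction.coe_mul, Pi.mul_apply, Pi.mul_apply, Kp_apply, Km_apply,
        Complex.ofReal_add, mul_add]
    rw [hval]
    have hpos : (0 : ℝ) < 1 / ((n : ℝ) + 1) := ha n
    rcases le_or_gt (2 / ((n : ℝ) + 1)) |ρ| with h1 | h1
    · have h2 : kap n ρ + kap n (-ρ) = 1 := by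
        have h20 : (0 : ℝ) < 2 / ((n : ℝ) + 1) := by positivity
        rcases le_total 0 ρ with h3 | h3
        · rw [abs_of_nonneg h3] at h1
          rw [kap_one h1 (by linarith [hρ.2]), kap_zero_left (by linarith), add_zero]
        · rw [abs_of_nonpos h3] at h1
          rw [kap_one (ρ := -ρ) h1 (by linarith [hρ.1]), kap_zero_left (by linarith), zero_add]
      rw [h2, Complex.ofReal_one, mul_one, dist_self]
      exact hε
    · have h2 : dist (G ρ) (G 0) < ε := hδε (by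
        rw [Real.dist_eq, sub_zero]
        exact h1.trans hd)
      rw [hG, dist_zero_right] at h2
      have h3 : 0 ≤ kap n ρ + kap n (-ρ) := add_nonneg (kap_nonneg _ _) (kap_nonneg _ _)
      have h4 : kap n ρ + kap n (-ρ) ≤ 1 := by
        rcases le_total 0 ρ with h5 | h5
        · rw [kap_zero_left (n := n) (ρ := -ρ) (by linarith), add_zero]
          exact kap_le _ _
        · rw [kap_zero_left (n := n) (ρ := ρ) (by linarith), zero_add]
          exact kap_le _ _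
      rw [dist_eq_norm]
      have h5 : G ρ - G ρ * (((kap n ρ + kap n (-ρ) : ℝ)) : ℂ) =
          G ρ * (((1 - (kap n ρ + kap n (-ρ)) : ℝ)) : ℂ) := by
        rw [Complex.ofReal_sub, Complex.ofReal_one]
        ring
      rw [h5, norm_mul, Complex.norm_real, Real.norm_of_nonneg (by linarith)]
      calc ‖G ρ‖ * (1 - (kap n ρ + kap n (-ρ))) ≤ ‖G ρ‖ * 1 :=
            mul_le_mul_of_nonneg_left (by linarith) (norm_nonneg _)
        _ < ε := by rw [mul_one]; exact h2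

end FixAux

theorem fixed_of (h : Std A ξ J Ψ) {ζ : H} (hJ : J ζ = ζ)
    (h0 : ∀ a b : ℝ, 0 < a → a < b → ∀ G : ℝ →ᵇ ℂ, (∀ ρ, ρ ∉ Set.Icc a b → G ρ = 0) →
      Ψ G ζ = 0) : Fixed Ψ ζ := by
  intro G
  have h1 := FixAux.psi_zero_of_zero h hJ h0 (G - G 0 • (1 : ℝ →ᵇ ℂ)) (by simp)
  rw [map_sub, map_smul, map_one, ContinuousLinearMap.sub_apply, ContinuousLinearMap.smul_apply,
    ContinuousLinearMap.one_apply, sub_eq_zero] at h1
  exact h1

/-- If `x ξ` is fixed then `x` commutes with `ξ`. -/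
theorem J_of_fixed (h : Std A ξ J Ψ) {x : H →L[ℂ] H} (hx : x ∈ A) (hf : Fixed Ψ (x ξ)) :
    J ((star x) ξ) = x ξ := by
  have h1 : ∀ n : ℕ, Ψ (Pl n) (J ((star x) ξ)) = x ξ := by
    intro n
    rw [h.psi_half (Pl n) (Pe n) (fun ρ => rfl) x hx, hf (Pe n), Pe_zero, one_smul]
  have h2 := h.psi_cont (fun n => Pl n) 1 1 norm_Pl_le Pl_tendsto (J ((star x) ξ))
  rw [map_one, ContinuousLinearMap.one_apply] at h2
  refine tendsto_nhds_unique h2 ?_
  simp only [h1]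
  exact tendsto_const_nhds

end Pool.Agent.Helper78.BC
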