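import Pool.Agent.Helper78.BC.PS

/-!
# Project BC, module 9: coisometries of type III₁ algebras
-/

open scoped InnerProductSpace Topology BoundedContinuousFunction
open ContinuousLinearMap Filter

namespace Pool.Agent.Helper78.BC

variable {H : Type*} [NormedAddCommGroup H] [InnerProductSpace ℂ H] [CompleteSpace H]
variable {A : VonNeumannAlgebra H} {ξ : H} {J : H →L[ℝ] H}
  {Ψ : (ℝ →ᵇ ℂ) →⋆ₐ[ℂ] (H →L[ℂ] H)}

namespace LevAux

lemma inner_iso {S : H →L[ℂ] H} (hS : star S * S = 1) (v w : H) : ⟪S v, S w⟫_ℂ = ⟪v, w⟫_ℂ := by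
  have h1 : (star S) (S w) = w := by
    have := congrArg (fun T : H →L[ℂ] H => T w) hS
    simpa using this
  have h2 : ⟪v, (star S) (S w)⟫_ℂ = ⟪S v, S w⟫_ℂ := by
    rw [star_eq_adjoint, adjoint_inner_right]
  rw [← h2, h1]

lemma inner_orth {S T : H →L[ℂ] H} (h : star S * T = 0) (v w : H) : ⟪S v, T w⟫_ℂ = 0 := by
  have h1 : (star S) (T w) = 0 := by
    have := congrArg (fun T : H →L[ℂ] H => T w) h
    simpa using this
  have h2 : ⟪v, (star S) (T w)⟫_ℂ = ⟪S v, T w⟫_ℂ := by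
    rw [star_eq_adjoint, adjoint_inner_right]
  rw [← h2, h1, inner_zero_right]

lemma norm_iso {S : H →L[ℂ] H} (hS : star S * S = 1) (v : H) : ‖S v‖ = ‖v‖ := by
  have h1 := inner_iso hS v v
  rw [inner_self_eq_norm_sq_to_K, inner_self_eq_norm_sq_to_K] at h1
  have h2 : ‖S v‖ ^ 2 = ‖v‖ ^ 2 := by exact_mod_cast h1
  exact (pow_left_inj₀ (norm_nonneg _) (norm_nonneg _) two_ne_zero).1 h2

lemma norm_star_le {S : H →L[ℂ] H} (hS : star S * S = 1) (v : H) : ‖(star S) v‖ ≤ ‖v‖ := by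
  have h1 : ‖star S‖ ≤ 1 := by
    rw [norm_star]
    refine opNorm_le_bound _ zero_le_one fun v => ?_
    rw [norm_iso hS, one_mul]
  calc ‖(star S) v‖ ≤ ‖star S‖ * ‖v‖ := le_opNorm _ _
    _ ≤ 1 * ‖v‖ := by gcongr
    _ = ‖v‖ := one_mul _

lemma J_real (h : Std A ξ J Ψ) (t : ℝ) (v : H) : J ((t : ℂ) • v) = (t : ℂ) • J v := by
  rw [h.J_conj, Complex.conj_ofReal]

/-- `⟪J S J v, x (J T J w)⟫ = ⟪v, x w⟫` resp. `0` -/
lemma inner_J (h : Std A ξ J Ψ) {S T x : H →L[ℂ] H} (hT : T ∈ A) (hx : x ∈ A)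
    (v w : H) : ⟪J (S (J v)), x (J (T (J w)))⟫_ℂ = ⟪T (J (x w)), S (J v)⟫_ℂ := by
  rw [← h.J_comm T hT x hx w, h.J_inner]

lemma flip (h : Std A ξ J Ψ) {S : H →L[ℂ] H} (hS : S ∈ A) :
    S (J (S ξ)) = J (S (J (S ξ))) := by
  have h1 := h.J_comm S hS S hS ξ
  rw [h.J_xi] at h1
  exact h1.symm

end LevAux

open LevAux in
theorem exists_lev (h : Std A ξ J Ψ) (hN : Pool.Agent.Helper23.RBF.TypeIIIOne A) {l : ℝ}
    (hl : 0 < l) (hl1 : l ≤ 1) {ε : ℝ} (hε : 0 < ε) : ∃ v, Lev A ξ J l ε v := by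
  obtain ⟨⟨S1, hS1, S2, hS2, h11, h22, h12⟩, htr⟩ := hN
  have h21 : star S2 * S1 = 0 := by
    have := congrArg star h12
    rwa [star_mul, star_star, star_zero] at this
  have hl' : 0 ≤ 1 - l := by linarith
  set s : ℝ := Real.sqrt l with hs
  set t : ℝ := Real.sqrt (1 - l) with ht
  have hs0 : 0 ≤ s := Real.sqrt_nonneg _
  have ht0 : 0 ≤ t := Real.sqrt_nonneg _
  have hss : s ^ 2 = l := Real.sq_sqrt hl.le
  have htt : t ^ 2 = 1 - l := Real.sq_sqrt hl'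
  have hn1 : ‖ξ‖ ^ 2 + ‖(0 : H)‖ ^ 2 = 1 := by rw [h.norm_one, norm_zero]; norm_num
  have hn2 : ‖(s : ℂ) • S1 ξ‖ ^ 2 + ‖(t : ℂ) • S2 ξ‖ ^ 2 = 1 := by
    rw [norm_smul, norm_smul, norm_iso h11, norm_iso h22, h.norm_one, Complex.norm_real,
      Complex.norm_real, Real.norm_of_nonneg hs0, Real.norm_of_nonneg ht0, mul_one, mul_one, hss,
      htt]
    ring
  obtain ⟨u, hu, hu1, hu2, hux⟩ := htr ξ 0 ((s : ℂ) • S1 ξ) ((t : ℂ) • S2 ξ) hn1 hn2 (ε ^ 2)
    (by positivity)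
  -- the two vectors of the cone
  set k1 : H := u (J (u ξ)) with hk1
  set k2 : H := (s : ℂ) • S1 (J (S1 ξ)) + (t : ℂ) • S2 (J (S2 ξ)) with hk2
  have hk1P : k1 ∈ Pc A ξ J := by
    refine subset_closure ⟨1, fun _ => u, fun _ => hu, ?_⟩
    simp [hk1]
  have hk2P : k2 ∈ Pc A ξ J := by
    set c1 : ℝ := Real.sqrt s with hc1
    set c2 : ℝ := Real.sqrt t with hc2
    have e1 : (c1 : ℂ) * (c1 : ℂ) = (s : ℂ) := by
      rw [← Complex.ofReal_mul, hc1, Real.mul_self_sqrt hs0]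
    have e2 : (c2 : ℂ) * (c2 : ℂ) = (t : ℂ) := by
      rw [← Complex.ofReal_mul, hc2, Real.mul_self_sqrt ht0]
    refine subset_closure ⟨2, ![(c1 : ℂ) • S1, (c2 : ℂ) • S2], ?_, ?_⟩
    · intro i
      fin_cases i
      · exact Pool.Agent.Helper23.smul_mem' _ hS1
      · exact Pool.Agent.Helper23.smul_mem' _ hS2
    · rw [Fin.sum_univ_two]
      simp only [Matrix.cons_val_zero, Matrix.cons_val_one, smul_apply]
      rw [J_real h, J_real h, map_smul, map_smul, smul_smul, smul_smul, e1, e2]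
  -- the states
  have hq1 : ∀ x ∈ A, ⟪k1, x k1⟫_ℂ = ⟪u ξ, x (u ξ)⟫_ℂ := by
    intro x hx
    rw [hk1, flip h hu, inner_J h hu hx, inner_iso hu1, h.J_inner]
  have hq2 : ∀ x ∈ A, ⟪k2, x k2⟫_ℂ = ⟪(s : ℂ) • S1 ξ, x ((s : ℂ) • S1 ξ)⟫_ℂ +
      ⟪(t : ℂ) • S2 ξ, x ((t : ℂ) • S2 ξ)⟫_ℂ := by
    intro x hx
    have a11 : ⟪J (S1 (J (S1 ξ))), x (J (S1 (J (S1 ξ))))⟫_ℂ = ⟪S1 ξ, x (S1 ξ)⟫_ℂ := by
      rw [inner_J h hS1 hx, inner_iso h11, h.J_inner]
    have a22 : ⟪J (S2 (J (S2 ξ))), x (J (S2 (J (S2 ξ))))⟫_ℂ = ⟪S2 ξ, x (S2 ξ)⟫_ℂ := by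
      rw [inner_J h hS2 hx, inner_iso h22, h.J_inner]
    have a12 : ⟪J (S1 (J (S1 ξ))), x (J (S2 (J (S2 ξ))))⟫_ℂ = 0 := by
      rw [inner_J h hS2 hx, inner_orth h21]
    have a21 : ⟪J (S2 (J (S2 ξ))), x (J (S1 (J (S1 ξ))))⟫_ℂ = 0 := by
      rw [inner_J h hS1 hx, inner_orth h12]
    rw [hk2, flip h hS1, flip h hS2]
    simp only [map_add, map_smul, inner_add_left, inner_add_right, inner_smul_left,
      inner_smul_right, a11, a22, a12, a21, mul_zero, add_zero, zero_add]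
  have hps : ‖k1 - k2‖ ^ 2 ≤ ε ^ 2 := by
    refine powers_stormer h hk1P hk2P ?_
    intro x hx
    have h3 := hux x hx
    rw [map_zero, map_zero, inner_zero_right, add_zero] at h3
    rw [hq1 x hx, hq2 x hx]
    exact h3
  have hk : ‖k1 - k2‖ ≤ ε := by
    exact (pow_le_pow_iff_left₀ (norm_nonneg _) hε.le two_ne_zero).1 hps
  refine ⟨star S1 * u, ⟨mul_mem (star_mem hS1) hu, ?_, ?_⟩⟩
  · rw [star_mul, star_star]
    calc star S1 * u * (star u * S1) = star S1 * (u * star u) * S1 := by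
          simp only [mul_assoc]
      _ = 1 := by rw [hu2, mul_one, h11]
  · have hS1k2 : (star S1) k2 = (s : ℂ) • J (S1 ξ) := by
      have e1 : (star S1) (S1 (J (S1 ξ))) = J (S1 ξ) := by
        have := congrArg (fun T : H →L[ℂ] H => T (J (S1 ξ))) h11
        simpa using this
      have e2 : (star S1) (S2 (J (S2 ξ))) = 0 := by
        have := congrArg (fun T : H →L[ℂ] H => T (J (S2 ξ))) h12
        simpa using this
      rw [hk2, map_add, map_smul, map_smul, e1, e2, smul_zero, add_zero]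
    have hstar : star (star S1 * u) = star u * S1 := by rw [star_mul, star_star]
    have huu : (star u) (u ξ) = ξ := by
      have := congrArg (fun T : H →L[ℂ] H => T ξ) hu1
      simpa using this
    have hmem : star S1 * u ∈ A := mul_mem (star_mem hS1) hu
    -- apply `J u* J`
    have hkey : (star S1 * u) ξ - ((s : ℝ) : ℂ) • rm J (star S1 * u) ξ =
        J ((star u) (J ((star S1) (k1 - k2)))) := by
      rw [map_sub (star S1), hS1k2, map_sub, map_sub, map_sub, J_real h, h.J_J, map_smul,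
        J_real h, rm, h.J_xi, hstar]
      congr 1
      rw [hk1]
      have h5 := h.J_comm (star u) (star_mem hu) (star S1 * u) hmem (J (u ξ))
      rw [h.J_J, huu, h.J_xi] at h5
      exact h5.symm
    rw [hkey, h.J_norm]
    calc ‖(star u) (J ((star S1) (k1 - k2)))‖ ≤ ‖J ((star S1) (k1 - k2))‖ := norm_star_le hu1 _
      _ = ‖(star S1) (k1 - k2)‖ := h.J_norm _
      _ ≤ ‖k1 - k2‖ := norm_star_le h11 _
      _ ≤ ε := hk

end Pool.Agent.Helper78.BC
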