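import Pool.Agent.Helper78.BC.Defs

/-!
# Project BC, module 5: uniform form of the bicentralizer condition
-/

open scoped InnerProductSpace Topology BoundedContinuousFunction
open ContinuousLinearMap Filter

namespace Pool.Agent.Helper78.BC

variable {H : Type*} [NormedAddCommGroup H] [InnerProductSpace ℂ H] [CompleteSpace H]
variable {A : VonNeumannAlgebra H} {ξ : H} {J : H →L[ℝ] H}
  {Ψ : (ℝ →ᵇ ℂ) →⋆ₐ[ℂ] (H →L[ℂ] H)}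

namespace Lip1

theorem inner_star (y : H →L[ℂ] H) (v w : H) : ⟪(star y) v, w⟫_ℂ = ⟪v, y w⟫_ℂ := by
  rw [ContinuousLinearMap.star_eq_adjoint, ContinuousLinearMap.adjoint_inner_left]

theorem inner_star' (y : H →L[ℂ] H) (v w : H) : ⟪v, (star y) w⟫_ℂ = ⟪y v, w⟫_ℂ := by
  rw [ContinuousLinearMap.star_eq_adjoint, ContinuousLinearMap.adjoint_inner_right]

theorem norm_le_one {u : H →L[ℂ] H} (hu : star u * u = 1) : ‖u‖ ≤ 1 := by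
  have h1 : ‖u‖ * ‖u‖ ≤ 1 := by
    rw [← CStarRing.norm_star_mul_self, hu]
    exact ContinuousLinearMap.norm_id_le
  nlinarith [norm_nonneg u]

/-- commutator of a unitary with `x ξ` -/
theorem cm_eq (h : Std A ξ J Ψ) {x u : H →L[ℂ] H} (hx : x ∈ A) (hu : u ∈ A) :
    cm J u (x ξ) = x (cm J u ξ) - (x * u - u * x) ξ := by
  unfold cm rm
  rw [h.J_comm (star u) (star_mem hu) x hx ξ]
  simp only [map_sub, ContinuousLinearMap.sub_apply, ContinuousLinearMap.mul_apply]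
  abel

theorem norm_cm_le (h : Std A ξ J Ψ) {u : H →L[ℂ] H} (hu : Un A u) (v : H) :
    ‖cm J u v‖ ≤ 2 * ‖v‖ := by
  unfold cm rm
  have h1 : ‖u v‖ ≤ ‖v‖ := by
    calc ‖u v‖ ≤ ‖u‖ * ‖v‖ := u.le_opNorm v
      _ ≤ 1 * ‖v‖ := by gcongr; exact norm_le_one hu.2.1
      _ = ‖v‖ := one_mul _
  have h2 : ‖J ((star u) (J v))‖ ≤ ‖v‖ := by
    rw [h.J_norm]
    calc ‖(star u) (J v)‖ ≤ ‖star u‖ * ‖J v‖ := (star u).le_opNorm _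
      _ ≤ 1 * ‖J v‖ := by
        gcongr
        rw [norm_star]
        exact norm_le_one hu.2.1
      _ = ‖v‖ := by rw [one_mul, h.J_norm]
  calc ‖u v - J ((star u) (J v))‖ ≤ ‖u v‖ + ‖J ((star u) (J v))‖ := norm_sub_le _ _
    _ ≤ 2 * ‖v‖ := by linarith

end Lip1

/-- `|φ(x y) - φ(y x)| ≤ 2 ‖x‖ ‖y ξ - ξ y‖` -/
theorem asymp_of_cm (h : Std A ξ J Ψ) {x y : H →L[ℂ] H} (hx : x ∈ A) (hy : y ∈ A) :
    ‖⟪ξ, (x * y) ξ⟫_ℂ - ⟪ξ, (y * x) ξ⟫_ℂ‖ ≤ 2 * ‖x‖ * ‖cm J y ξ‖ := by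
  have e1 : ⟪ξ, (x * y) ξ⟫_ℂ = ⟪(star x) ξ, y ξ⟫_ℂ := by
    rw [ContinuousLinearMap.mul_apply, Lip1.inner_star]
  have e2 : ⟪ξ, (y * x) ξ⟫_ℂ = ⟪J (x ξ), J ((star y) ξ)⟫_ℂ := by
    rw [ContinuousLinearMap.mul_apply, h.J_inner, Lip1.inner_star]
  have e3 : ⟪(star x) ξ, J ((star y) ξ)⟫_ℂ = ⟪J (x ξ), y ξ⟫_ℂ := by
    have h1 : ⟪(star x) ξ, J ((star y) ξ)⟫_ℂ = ⟪(star y) ξ, J ((star x) ξ)⟫_ℂ := by
      have := h.J_inner (J ((star x) ξ)) ((star y) ξ)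
      rw [h.J_J] at this
      exact this
    have h2 : y (J ((star x) ξ)) = J ((star x) (J (y ξ))) := by
      rw [h.J_comm (star x) (star_mem hx) y hy ξ, h.J_xi]
    have h3 : ⟪ξ, J ((star x) (J (y ξ)))⟫_ℂ = ⟪(star x) (J (y ξ)), ξ⟫_ℂ := by
      have := h.J_inner ξ ((star x) (J (y ξ)))
      rw [h.J_xi] at this
      exact this
    have h4 : ⟪J (y ξ), x ξ⟫_ℂ = ⟪J (x ξ), y ξ⟫_ℂ := by
      have := h.J_inner (y ξ) (J (x ξ))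
      rw [h.J_J] at this
      exact this
    rw [h1, Lip1.inner_star, h2, h3, Lip1.inner_star, h4]
  have hd : cm J y ξ = y ξ - J ((star y) ξ) := by
    unfold cm rm
    rw [h.J_xi]
  have e4 : ⟪ξ, (x * y) ξ⟫_ℂ - ⟪ξ, (y * x) ξ⟫_ℂ =
      ⟪(star x) ξ, cm J y ξ⟫_ℂ + ⟪J (x ξ), cm J y ξ⟫_ℂ := by
    rw [e1, e2, hd, inner_sub_right, inner_sub_right, e3]
    ring
  have hn1 : ‖(star x) ξ‖ ≤ ‖x‖ := by
    calc ‖(star x) ξ‖ ≤ ‖star x‖ * ‖ξ‖ := (star x).le_opNorm ξ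
      _ = ‖x‖ := by rw [norm_star, h.norm_one, mul_one]
  have hn2 : ‖J (x ξ)‖ ≤ ‖x‖ := by
    rw [h.J_norm]
    calc ‖x ξ‖ ≤ ‖x‖ * ‖ξ‖ := x.le_opNorm ξ
      _ = ‖x‖ := by rw [h.norm_one, mul_one]
  rw [e4]
  calc ‖⟪(star x) ξ, cm J y ξ⟫_ℂ + ⟪J (x ξ), cm J y ξ⟫_ℂ‖
      ≤ ‖⟪(star x) ξ, cm J y ξ⟫_ℂ‖ + ‖⟪J (x ξ), cm J y ξ⟫_ℂ‖ := norm_add_le _ _
    _ ≤ ‖(star x) ξ‖ * ‖cm J y ξ‖ + ‖J (x ξ)‖ * ‖cm J y ξ‖ :=
        add_le_add (norm_inner_le_norm _ _) (norm_inner_le_norm _ _)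
    _ ≤ ‖x‖ * ‖cm J y ξ‖ + ‖x‖ * ‖cm J y ξ‖ := by gcongr
    _ = 2 * ‖x‖ * ‖cm J y ξ‖ := by ring

/-- The bicentralizer condition along unitaries, in uniform form. -/
theorem bic_uniform (h : Std A ξ J Ψ) {x : H →L[ℂ] H} (hx : Bic A ξ x) {ε : ℝ} (hε : 0 < ε) :
    ∃ C : ℝ, ∀ u, Un A u → ‖cm J u (x ξ)‖ ^ 2 ≤ ε + C * ‖cm J u ξ‖ ^ 2 := by
  by_contra hcon
  push Not at hcon
  choose u hu hlt using fun n : ℕ => hcon n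
  have hxn : ‖x ξ‖ ≤ ‖x‖ := by
    calc ‖x ξ‖ ≤ ‖x‖ * ‖ξ‖ := x.le_opNorm ξ
      _ = ‖x‖ := by rw [h.norm_one, mul_one]
  have hb : ∀ n : ℕ, ‖cm J (u n) (x ξ)‖ ^ 2 ≤ 4 * ‖x‖ ^ 2 := by
    intro n
    have h1 := Lip1.norm_cm_le h (hu n) (x ξ)
    have h2 : ‖cm J (u n) (x ξ)‖ ≤ 2 * ‖x‖ := h1.trans (by linarith)
    calc ‖cm J (u n) (x ξ)‖ ^ 2 ≤ (2 * ‖x‖) ^ 2 :=
          pow_le_pow_left₀ (norm_nonneg _) h2 2
      _ = 4 * ‖x‖ ^ 2 := by ring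
  have hsq : Tendsto (fun n : ℕ => ‖cm J (u n) ξ‖ ^ 2) atTop (𝓝 0) := by
    have h0 : Tendsto (fun n : ℕ => (4 * ‖x‖ ^ 2) / (n : ℝ)) atTop (𝓝 0) :=
      tendsto_const_div_atTop_nhds_zero_nat _
    refine squeeze_zero' (Eventually.of_forall fun n => by positivity) ?_ h0
    filter_upwards [eventually_gt_atTop 0] with n hn
    have hn' : (0 : ℝ) < n := by exact_mod_cast hn
    rw [le_div_iff₀ hn']
    have h1 := hlt n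
    have h2 := hb n
    linarith
  have hcm : Tendsto (fun n : ℕ => ‖cm J (u n) ξ‖) atTop (𝓝 0) := by
    have h1 := (Real.continuous_sqrt.tendsto 0).comp hsq
    rw [Real.sqrt_zero] at h1
    refine h1.congr fun n => ?_
    exact Real.sqrt_sq (norm_nonneg _)
  have has : Pool.Agent.Helper23.RBF.AsympEigen A ξ 1 u := by
    refine ⟨fun n => (hu n).1, ⟨1, fun n => Lip1.norm_le_one (hu n).2.1⟩, ?_⟩
    intro δ hδ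
    have h1 : ∀ᶠ n in atTop, ‖cm J (u n) ξ‖ < δ / 2 :=
      hcm.eventually_lt_const (by positivity)
    filter_upwards [h1] with n hn y hy
    have h2 := asymp_of_cm h hy (hu n).1
    rw [Complex.ofReal_one, one_mul]
    calc ‖⟪ξ, (y * u n) ξ⟫_ℂ - ⟪ξ, (u n * y) ξ⟫_ℂ‖ ≤ 2 * ‖y‖ * ‖cm J (u n) ξ‖ := h2
      _ ≤ 2 * ‖y‖ * (δ / 2) := by gcongr
      _ = δ * ‖y‖ := by ring
  have hlim := (hx.2 u has ξ).norm
  rw [norm_zero] at hlim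
  have htot : Tendsto (fun n : ℕ => ‖x‖ * ‖cm J (u n) ξ‖ + ‖(x * u n - u n * x) ξ‖) atTop
      (𝓝 (‖x‖ * 0 + 0)) := (hcm.const_mul _).add hlim
  rw [mul_zero, add_zero] at htot
  have hsmall : ∀ᶠ n in atTop, ‖x‖ * ‖cm J (u n) ξ‖ + ‖(x * u n - u n * x) ξ‖ < Real.sqrt ε :=
    htot.eventually_lt_const (Real.sqrt_pos.2 hε)
  obtain ⟨n, hn⟩ := hsmall.exists
  have h1 : ‖cm J (u n) (x ξ)‖ ≤ ‖x‖ * ‖cm J (u n) ξ‖ + ‖(x * u n - u n * x) ξ‖ := by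
    rw [Lip1.cm_eq h hx.1 (hu n).1]
    exact (norm_sub_le _ _).trans (by gcongr; exact x.le_opNorm _)
  have h2 : ‖cm J (u n) (x ξ)‖ ^ 2 < ε := by
    have h3 : ‖cm J (u n) (x ξ)‖ < Real.sqrt ε := lt_of_le_of_lt h1 hn
    calc ‖cm J (u n) (x ξ)‖ ^ 2 < Real.sqrt ε ^ 2 :=
          pow_lt_pow_left₀ h3 (norm_nonneg _) two_ne_zero
      _ = ε := Real.sq_sqrt hε.le
  have h3 := hlt n
  have h4 : (0 : ℝ) ≤ n * ‖cm J (u n) ξ‖ ^ 2 := by positivity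
  linarith

end Pool.Agent.Helper78.BC
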