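import Pool.Agent.Helper78.BC.Lipschitz
import Pool.Agent.Helper78.BC.Lip1

/-!
# Project BC, module 6: Lipschitz vectors near the bicentralizer
-/

open scoped InnerProductSpace Topology BoundedContinuousFunction
open ContinuousLinearMap Filter

namespace Pool.Agent.Helper78.BC

variable {H : Type*} [NormedAddCommGroup H] [InnerProductSpace ℂ H] [CompleteSpace H]
variable {A : VonNeumannAlgebra H} {ξ : H} {J : H →L[ℝ] H}
  {Ψ : (ℝ →ᵇ ℂ) →⋆ₐ[ℂ] (H →L[ℂ] H)}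

namespace Lip2

/-- the complex linear operator `J y J` -/
noncomputable def jy (h : Std A ξ J Ψ) (y : H →L[ℂ] H) : H →L[ℂ] H :=
  LinearMap.mkContinuous
    { toFun := fun v => J (y (J v))
      map_add' := fun v w => by simp only [map_add]
      map_smul' := fun c v => by
        rw [h.J_conj, map_smul, h.J_conj]
        simp }
    ‖y‖ (fun v => by
      change ‖J (y (J v))‖ ≤ ‖y‖ * ‖v‖
      rw [h.J_norm]
      calc ‖y (J v)‖ ≤ ‖y‖ * ‖J v‖ := y.le_opNorm _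
        _ = ‖y‖ * ‖v‖ := by rw [h.J_norm])

lemma jy_apply (h : Std A ξ J Ψ) (y : H →L[ℂ] H) (v : H) : jy h y v = J (y (J v)) := rfl

/-- the operator `y J y J` -/
noncomputable def tt (h : Std A ξ J Ψ) (y : H →L[ℂ] H) : H →L[ℂ] H := y * jy h y

lemma tt_apply (h : Std A ξ J Ψ) (y : H →L[ℂ] H) (v : H) : tt h y v = y (J (y (J v))) := rfl

lemma jy_star (h : Std A ξ J Ψ) (y : H →L[ℂ] H) : star (jy h y) = jy h (star y) := by
  rw [ContinuousLinearMap.star_eq_adjoint]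
  refine (ContinuousLinearMap.eq_adjoint_iff _ _).2 (fun v w => ?_) |>.symm
  rw [jy_apply, jy_apply]
  have h1 : ⟪J ((star y) (J v)), w⟫_ℂ = ⟪J w, (star y) (J v)⟫_ℂ := by
    conv_lhs => rw [← h.J_J w]
    rw [h.J_inner]
  have h2 : ⟪v, J (y (J w))⟫_ℂ = ⟪y (J w), J v⟫_ℂ := by
    conv_lhs => rw [← h.J_J v]
    rw [h.J_inner]
  rw [h1, h2, ContinuousLinearMap.star_eq_adjoint, ContinuousLinearMap.adjoint_inner_right]

lemma jy_comm (h : Std A ξ J Ψ) {a y : H →L[ℂ] H} (ha : a ∈ A) (hy : y ∈ A) :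
    jy h a * y = y * jy h a := by
  ext v
  exact h.J_comm a ha y hy v

lemma tt_mul (h : Std A ξ J Ψ) {u w : H →L[ℂ] H} (hu : u ∈ A) (hw : w ∈ A) :
    tt h u * tt h w = tt h (u * w) := by
  ext v
  change u (J (u (J (w (J (w (J v))))))) = u (w (J (u (w (J v)))))
  rw [h.J_comm u hu w hw, h.J_J]

lemma tt_one (h : Std A ξ J Ψ) : tt h (1 : H →L[ℂ] H) = 1 := by
  ext v
  change J (J v) = v
  exact h.J_J v

lemma tt_star (h : Std A ξ J Ψ) {u : H →L[ℂ] H} (hu : u ∈ A) :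
    star (tt h u) = tt h (star u) := by
  rw [tt, star_mul, jy_star, tt]
  exact jy_comm h (star_mem hu) (star_mem hu)

lemma un_star {u : H →L[ℂ] H} (hu : Un A u) : Un A (star u) :=
  ⟨star_mem hu.1, by rw [star_star]; exact hu.2.2, by rw [star_star]; exact hu.2.1⟩

lemma un_one : Un A (1 : H →L[ℂ] H) := ⟨one_mem A, by simp, by simp⟩

lemma un_mul {u w : H →L[ℂ] H} (hu : Un A u) (hw : Un A w) : Un A (u * w) := by
  refine ⟨mul_mem hu.1 hw.1, ?_, ?_⟩
  · rw [star_mul, mul_assoc, ← mul_assoc (star u), hu.2.1, one_mul, hw.2.1]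
  · rw [star_mul, mul_assoc, ← mul_assoc w, hw.2.2, one_mul, hu.2.2]

lemma un_norm {u : H →L[ℂ] H} (hu : Un A u) (v : H) : ‖u v‖ = ‖v‖ := by
  have h1 : ⟪u v, u v⟫_ℂ = ⟪v, v⟫_ℂ := by
    rw [← ContinuousLinearMap.adjoint_inner_right, ← ContinuousLinearMap.star_eq_adjoint]
    have : (star u) (u v) = v := by
      have := congrArg (fun T : H →L[ℂ] H => T v) hu.2.1
      exact this
    rw [this]
  rw [inner_self_eq_norm_sq_to_K, inner_self_eq_norm_sq_to_K] at h1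
  have h2 : ‖u v‖ ^ 2 = ‖v‖ ^ 2 := by exact_mod_cast h1
  exact (sq_eq_sq₀ (norm_nonneg _) (norm_nonneg _)).1 h2

lemma tt_norm (h : Std A ξ J Ψ) {u : H →L[ℂ] H} (hu : Un A u) (v : H) :
    ‖tt h u v - v‖ = ‖cm J u v‖ := by
  have h1 : jy h u (cm J u v) = tt h u v - v := by
    rw [cm, map_sub]
    congr 1
    · exact h.J_comm u hu.1 u hu.1 v
    · rw [jy_apply, rm, h.J_J]
      have : u ((star u) (J v)) = J v := by
        have := congrArg (fun T : H →L[ℂ] H => T (J v)) hu.2.2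
        exact this
      rw [this, h.J_J]
  rw [← h1, jy_apply, h.J_norm, un_norm hu, h.J_norm]

lemma cm_add (u : H →L[ℂ] H) (v w : H) : cm J u (v + w) = cm J u v + cm J u w := by
  simp only [cm, rm, map_add]
  abel

lemma cm_sub (u : H →L[ℂ] H) (v w : H) : cm J u (v - w) = cm J u v - cm J u w := by
  simp only [cm, rm, map_sub]
  abel

lemma cm_smul (h : Std A ξ J Ψ) (u : H →L[ℂ] H) (c : ℂ) (v : H) :
    cm J u (c • v) = c • cm J u v := by
  simp only [cm, rm]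
  rw [h.J_conj, map_smul, map_smul, h.J_conj, smul_sub]
  simp

lemma cm_J (h : Std A ξ J Ψ) (u : H →L[ℂ] H) (v : H) :
    ‖cm J u (J v)‖ = ‖cm J (star u) v‖ := by
  have : cm J u (J v) = - J (cm J (star u) v) := by
    simp only [cm, rm, map_sub, star_star, h.J_J]
    abel
  rw [this, norm_neg, h.J_norm]

lemma cm_star_xi (h : Std A ξ J Ψ) (u : H →L[ℂ] H) :
    ‖cm J (star u) ξ‖ = ‖cm J u ξ‖ := by
  rw [← cm_J h, h.J_xi]

end Lip2

open Lip2 in
theorem exists_lip (h : Std A ξ J Ψ) {x : H →L[ℂ] H} (hx : Bic A ξ x) {η : H}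
    (hη : η = x ξ + J (x ξ) ∨ η = Complex.I • (x ξ - J (x ξ))) {r : ℝ} (hr : 0 < r) :
    ∃ ζ : H, J ζ = ζ ∧ ‖ζ - η‖ ≤ r ∧ ∃ K : ℝ, 0 ≤ K ∧
      ∀ u, Un A u → ‖cm J u ζ‖ ≤ K * ‖cm J u ξ‖ := by
  have hηV : J η = η := by
    rcases hη with rfl | rfl
    · rw [map_add, h.J_J, add_comm]
    · rw [h.J_conj, map_sub, h.J_J, Complex.conj_I, neg_smul, ← smul_neg, neg_sub]
  have hbound : ∀ u : H →L[ℂ] H,
      ‖cm J u η‖ ≤ ‖cm J u (x ξ)‖ + ‖cm J (star u) (x ξ)‖ := by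
    intro u
    rcases hη with rfl | rfl
    · rw [cm_add, ← cm_J h]
      exact norm_add_le _ _
    · rw [cm_smul h, norm_smul, Complex.norm_I, one_mul, cm_sub, ← cm_J h]
      exact norm_sub_le _ _
  obtain ⟨ζ, hζ, hζη, K, hK, hKS⟩ := lipschitz
    (S := {T : H →L[ℂ] H | ∃ u, Un A u ∧ T = tt h u}) (V := {v : H | J v = v})
    (ξ := ξ) (η := η) (r := r)
    ⟨1, un_one, (tt_one h).symm⟩
    (by
      rintro _ ⟨u, hu, rfl⟩ _ ⟨w, hw, rfl⟩
      exact ⟨u * w, un_mul hu hw, tt_mul h hu.1 hw.1⟩)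
    (by
      rintro _ ⟨u, hu, rfl⟩
      exact ⟨star u, un_star hu, tt_star h hu.1⟩)
    (by
      rintro _ ⟨u, hu, rfl⟩
      rw [tt_star h hu.1, tt_mul h (star_mem hu.1) hu.1, hu.2.1, tt_one])
    (by
      intro v hv w hw a b _ _ _
      change J (a • v + b • w) = a • v + b • w
      rw [map_add, map_smul, map_smul]
      rw [Set.mem_setOf_eq] at hv hw
      rw [hv, hw])
    (isClosed_eq J.continuous continuous_id)
    (by
      rintro _ ⟨u, hu, rfl⟩ v hv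
      rw [Set.mem_setOf_eq] at hv ⊢
      rw [tt_apply]
      conv_lhs => rw [hv]
      exact h.J_comm u hu.1 u hu.1 v)
    hηV
    (by
      intro ε hε
      obtain ⟨C, hC⟩ := bic_uniform h hx (ε := ε / 4) (by positivity)
      refine ⟨4 * C, ?_⟩
      rintro _ ⟨u, hu, rfl⟩
      rw [tt_norm h hu, tt_norm h hu]
      have h1 := hC u hu
      have h2 := hC (star u) (un_star hu)
      rw [cm_star_xi h] at h2
      have h3 := hbound u
      have h4 : ‖cm J u η‖ ^ 2 ≤ (‖cm J u (x ξ)‖ + ‖cm J (star u) (x ξ)‖) ^ 2 :=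
        pow_le_pow_left₀ (norm_nonneg _) h3 2
      nlinarith [sq_nonneg (‖cm J u (x ξ)‖ - ‖cm J (star u) (x ξ)‖)])
    hr
  refine ⟨ζ, hζ, hζη, K, hK, ?_⟩
  intro u hu
  have := hKS _ ⟨u, hu, rfl⟩
  rwa [tt_norm h hu, tt_norm h hu] at this

end Pool.Agent.Helper78.BC
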