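import Pool.Agent.Helper78.BC.Defs

/-!
# Project BC, module 7: from unitaries to all elements of the algebra
-/

open scoped InnerProductSpace Topology BoundedContinuousFunction
open ContinuousLinearMap Filter

namespace Pool.Agent.Helper78.BC

variable {H : Type*} [NormedAddCommGroup H] [InnerProductSpace ℂ H] [CompleteSpace H]
variable {A : VonNeumannAlgebra H} {ξ : H} {J : H →L[ℝ] H}
  {Ψ : (ℝ →ᵇ ℂ) →⋆ₐ[ℂ] (H →L[ℂ] H)}

namespace LipAll

/-- `cm` is complex linear in the operator: additivity -/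
theorem cm_add (J : H →L[ℝ] H) (x y : H →L[ℂ] H) (v : H) :
    cm J (x + y) v = cm J x v + cm J y v := by
  simp only [cm, rm, star_add, add_apply, map_add]
  abel

/-- `cm` is complex linear in the operator: homogeneity -/
theorem cm_smul (hJ : ∀ (c : ℂ) (v : H), J (c • v) = (starRingEnd ℂ) c • J v)
    (c : ℂ) (y : H →L[ℂ] H) (v : H) : cm J (c • y) v = c • cm J y v := by
  simp only [cm, rm, star_smul, smul_apply, hJ, smul_sub]
  simp

/-- the exponential of an element of the algebra is in the algebra -/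
theorem exp_mem {x : H →L[ℂ] H} (hx : x ∈ A) : NormedSpace.exp x ∈ A := by
  rw [Pool.Agent.Helper23.mem_iff_commutes]
  intro g hg
  have h1 : Commute g x := (Pool.Agent.Helper23.mem_iff_commutes.1 hx) g hg
  exact h1.exp_right

/-- the derivative at `0` of the commutator with `exp (t x)` -/
theorem hasDerivAt_cm (x : H →L[ℂ] H) (v : H) :
    HasDerivAt (fun t : ℝ => cm J (NormedSpace.exp (t • x)) v) (cm J x v) 0 := by
  have key : ∀ (z : H →L[ℂ] H) (w : H),
      HasDerivAt (fun t : ℝ => (NormedSpace.exp (t • z)) w) (z w) 0 := by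
    intro z w
    have h1 := hasDerivAt_exp_smul_const (𝕂 := ℝ) z 0
    rw [zero_smul, NormedSpace.exp_zero, one_mul] at h1
    have h2 := (((ContinuousLinearMap.apply ℂ H w).restrictScalars ℝ).hasFDerivAt
      (x := NormedSpace.exp ((0 : ℝ) • z))).comp_hasDerivAt (0 : ℝ) h1
    exact h2
  have h1 := key x v
  have h2 := key (star x) (J v)
  have h3 := (J.hasFDerivAt (x := (NormedSpace.exp ((0 : ℝ) • star x)) (J v))).comp_hasDerivAt
    (0 : ℝ) h2
  have h4 := h1.sub h3
  refine h4.congr_of_eventuallyEq (Eventually.of_forall fun t => ?_)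
  show NormedSpace.exp (t • x) v - J ((star (NormedSpace.exp (t • x))) (J v)) = _
  rw [NormedSpace.star_exp, star_smul, star_trivial]
  rfl

/-- the inequality passes to skew-adjoint elements -/
theorem skew (h : Std A ξ J Ψ) {ζ : H} {K : ℝ}
    (hu : ∀ u, Un A u → ‖cm J u ζ‖ ≤ K * ‖cm J u ξ‖) {x : H →L[ℂ] H} (hx : x ∈ A)
    (hs : star x = -x) : ‖cm J x ζ‖ ≤ K * ‖cm J x ξ‖ := by
  have hU : ∀ t : ℝ, Un A (NormedSpace.exp (t • x)) := by
    intro t
    let _ : NormedAlgebra ℚ (H →L[ℂ] H) := NormedAlgebra.restrictScalars ℚ ℂ _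
    have e1 : star (t • x) = -(t • x) := by rw [star_smul, star_trivial, hs, smul_neg]
    refine ⟨exp_mem ?_, ?_, ?_⟩
    · have : t • x = (t : ℂ) • x := (Complex.coe_smul t x).symm
      rw [this]
      exact Pool.Agent.Helper23.smul_mem' _ hx
    · rw [NormedSpace.star_exp, e1, ← NormedSpace.exp_add_of_commute
        (Commute.refl _).neg_left, neg_add_cancel, NormedSpace.exp_zero]
    · rw [NormedSpace.star_exp, e1, ← NormedSpace.exp_add_of_commute
        (Commute.refl _).neg_right, add_neg_cancel, NormedSpace.exp_zero]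
  have h0 : ∀ v, cm J (NormedSpace.exp ((0 : ℝ) • x)) v = 0 := by
    intro v
    rw [zero_smul, NormedSpace.exp_zero]
    show v - J ((star (1 : H →L[ℂ] H)) (J v)) = 0
    rw [star_one]
    show v - J (J v) = 0
    rw [h.J_J, sub_self]
  have hl : ∀ v, Tendsto (fun t : ℝ => ‖t⁻¹ • cm J (NormedSpace.exp (t • x)) v‖) (𝓝[≠] 0)
      (𝓝 ‖cm J x v‖) := by
    intro v
    have h1 := hasDerivAt_iff_tendsto_slope_zero.1 (hasDerivAt_cm (J := J) x v)
    simp only [zero_add, h0, sub_zero] at h1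
    exact h1.norm
  refine le_of_tendsto_of_tendsto (hl ζ) ((hl ξ).const_mul K) (Eventually.of_forall fun t => ?_)
  show ‖t⁻¹ • cm J (NormedSpace.exp (t • x)) ζ‖ ≤ K * ‖t⁻¹ • cm J (NormedSpace.exp (t • x)) ξ‖
  rw [norm_smul, norm_smul]
  calc ‖t⁻¹‖ * ‖cm J (NormedSpace.exp (t • x)) ζ‖
      ≤ ‖t⁻¹‖ * (K * ‖cm J (NormedSpace.exp (t • x)) ξ‖) :=
        mul_le_mul_of_nonneg_left (hu _ (hU t)) (norm_nonneg _)
    _ = K * (‖t⁻¹‖ * ‖cm J (NormedSpace.exp (t • x)) ξ‖) := by ring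

/-- the commutators of `y` and `y*` with `ξ` have the same norm -/
theorem norm_cm_star (h : Std A ξ J Ψ) (y : H →L[ℂ] H) :
    ‖cm J (star y) ξ‖ = ‖cm J y ξ‖ := by
  have e : cm J (star y) ξ = -J (cm J y ξ) := by
    simp only [cm, rm, star_star, map_sub, h.J_J, h.J_xi]
    abel
  rw [e, norm_neg, h.J_norm]

end LipAll

open LipAll in
theorem lip_all (h : Std A ξ J Ψ) {ζ : H} {K : ℝ} (hK : 0 ≤ K)
    (hu : ∀ u, Un A u → ‖cm J u ζ‖ ≤ K * ‖cm J u ξ‖) :
    ∀ y ∈ A, ‖cm J y ζ‖ ≤ 2 * K * ‖cm J y ξ‖ := by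
  intro y hy
  have hy' : star y ∈ A := star_mem hy
  -- `y = p + i q` with `p` and `q` skew-adjoint
  let p : H →L[ℂ] H := (1 / 2 : ℂ) • (y - star y)
  let q : H →L[ℂ] H := (-(Complex.I / 2) : ℂ) • (y + star y)
  have hp : p ∈ A := Pool.Agent.Helper23.smul_mem' _ (sub_mem hy hy')
  have hq : q ∈ A := Pool.Agent.Helper23.smul_mem' _ (add_mem hy hy')
  have hps : star p = -p := by
    show star ((1 / 2 : ℂ) • (y - star y)) = -((1 / 2 : ℂ) • (y - star y))
    rw [star_smul, star_sub, star_star, ← smul_neg, neg_sub]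
    congr 1
    simp
  have hqs : star q = -q := by
    show star ((-(Complex.I / 2) : ℂ) • (y + star y)) = -((-(Complex.I / 2) : ℂ) • (y + star y))
    rw [star_smul, star_add, star_star, ← neg_smul, add_comm (star y) y]
    congr 1
    simp [neg_div]
  have hy2 : y = p + Complex.I • q := by
    show y = (1 / 2 : ℂ) • (y - star y) + Complex.I • ((-(Complex.I / 2) : ℂ) • (y + star y))
    rw [smul_smul]
    have e : Complex.I * -(Complex.I / 2) = 1 / 2 := by
      have := Complex.I_mul_I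
      linear_combination (-1 / 2) * this
    rw [e, ← smul_add, sub_add_add_cancel, ← two_smul ℂ y, smul_smul]
    norm_num
  have b1 : ‖cm J p ξ‖ ≤ ‖cm J y ξ‖ := by
    have e : cm J p ξ = (1 / 2 : ℂ) • (cm J y ξ - cm J (star y) ξ) := by
      show cm J ((1 / 2 : ℂ) • (y - star y)) ξ = _
      rw [cm_smul h.J_conj, sub_eq_add_neg, cm_add, ← neg_one_smul ℂ (star y),
        cm_smul h.J_conj, neg_one_smul, ← sub_eq_add_neg]
    rw [e, norm_smul]
    have := norm_sub_le (cm J y ξ) (cm J (star y) ξ)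
    rw [norm_cm_star h] at this
    have e2 : ‖(1 / 2 : ℂ)‖ = 1 / 2 := by norm_num
    rw [e2]
    linarith
  have b2 : ‖cm J q ξ‖ ≤ ‖cm J y ξ‖ := by
    have e : cm J q ξ = (-(Complex.I / 2) : ℂ) • (cm J y ξ + cm J (star y) ξ) := by
      show cm J ((-(Complex.I / 2) : ℂ) • (y + star y)) ξ = _
      rw [cm_smul h.J_conj, cm_add]
    rw [e, norm_smul]
    have := norm_add_le (cm J y ξ) (cm J (star y) ξ)
    rw [norm_cm_star h] at this
    have e2 : ‖(-(Complex.I / 2) : ℂ)‖ = 1 / 2 := by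
      rw [norm_neg, norm_div, Complex.norm_I]
      norm_num
    rw [e2]
    linarith
  have c1 := skew h hu hp hps
  have c2 := skew h hu hq hqs
  have e : cm J y ζ = cm J p ζ + Complex.I • cm J q ζ := by
    conv_lhs => rw [hy2]
    rw [cm_add J p, cm_smul h.J_conj Complex.I q]
  rw [e]
  calc ‖cm J p ζ + Complex.I • cm J q ζ‖ ≤ ‖cm J p ζ‖ + ‖Complex.I • cm J q ζ‖ := norm_add_le _ _
    _ = ‖cm J p ζ‖ + ‖cm J q ζ‖ := by rw [norm_smul, Complex.norm_I, one_mul]
    _ ≤ K * ‖cm J p ξ‖ + K * ‖cm J q ξ‖ := add_le_add c1 c2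
    _ ≤ K * ‖cm J y ξ‖ + K * ‖cm J y ξ‖ :=
        add_le_add (mul_le_mul_of_nonneg_left b1 hK) (mul_le_mul_of_nonneg_left b2 hK)
    _ = 2 * K * ‖cm J y ξ‖ := by ring

end Pool.Agent.Helper78.BC
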