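import Mathlib

/-!
# Project BC, module 2: a finite minimax lemma
-/

namespace Pool.Agent.Helper78.BC

theorem minimax {E : Type*} [AddCommGroup E] [Module ℝ E] {W : Set E} (hW : Convex ℝ W)
    (hne : W.Nonempty) {n : ℕ} (f : Fin n → E → ℝ) (hf : ∀ i, ConvexOn ℝ W (f i))
    (c : Fin n → ℝ)
    (h : ∀ t : Fin n → ℝ, (∀ i, 0 ≤ t i) → ∀ δ : ℝ, 0 < δ →
      ∃ ζ ∈ W, ∑ i, t i * f i ζ ≤ ∑ i, t i * (c i + δ)) :
    ∀ δ : ℝ, 0 < δ → ∃ ζ ∈ W, ∀ i, f i ζ ≤ c i + δ := by
  intro δ hδ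
  by_contra hcon
  push Not at hcon
  set U : Set (Fin n → ℝ) := {a | ∃ z ∈ W, ∀ i, f i z < a i} with hU
  have hUo : IsOpen U := by
    have : U = ⋃ z ∈ W, ⋂ i, {a : Fin n → ℝ | f i z < a i} := by
      ext a
      simp [hU]
    rw [this]
    exact isOpen_biUnion fun z _ => isOpen_iInter_of_finite fun i =>
      isOpen_lt continuous_const (continuous_apply i)
  have hUc : Convex ℝ U := by
    rintro a ⟨z, hz, hza⟩ b ⟨w, hw, hwb⟩ s t hs ht hst
    refine ⟨s • z + t • w, hW hz hw hs ht hst, fun i => ?_⟩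
    have h1 := (hf i).2 hz hw hs ht hst
    refine h1.trans_lt ?_
    simp only [Pi.add_apply, Pi.smul_apply, smul_eq_mul]
    rcases hs.eq_or_lt with h0 | h0
    · have ht1 : t = 1 := by linarith
      rw [← h0, ht1]
      linarith [hwb i]
    · have h2 : s * f i z < s * a i := mul_lt_mul_of_pos_left (hza i) h0
      have h3 : t * f i w ≤ t * b i := mul_le_mul_of_nonneg_left (hwb i).le ht
      linarith
  have hx : (fun i => c i + δ) ∉ U := by
    rintro ⟨z, hz, hzi⟩
    obtain ⟨i, hi⟩ := hcon z hz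
    exact absurd (hzi i) (not_lt.2 hi.le)
  obtain ⟨g, hg⟩ := geometric_hahn_banach_open_point hUc hUo hx
  set e : Fin n → (Fin n → ℝ) := fun i => Pi.single i 1 with he
  have hsum : ∀ a : Fin n → ℝ, g a = ∑ i, a i * g (e i) := by
    intro a
    have h1 : a = ∑ i, a i • e i := by
      ext j
      simp [he, Finset.sum_apply, Pi.single_apply]
    conv_lhs => rw [h1]
    rw [map_sum]
    refine Finset.sum_congr rfl fun i _ => ?_
    rw [map_smul, smul_eq_mul]
  obtain ⟨z0, hz0⟩ := hne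
  have hup : ∀ a ∈ U, ∀ i, ∀ s : ℝ, 0 ≤ s → a + s • e i ∈ U := by
    rintro a ⟨z, hz, hza⟩ i s hs
    refine ⟨z, hz, fun j => ?_⟩
    have h1 : 0 ≤ s * e i j := by
      refine mul_nonneg hs ?_
      simp only [he, Pi.single_apply]
      split_ifs <;> norm_num
    simp only [Pi.add_apply, Pi.smul_apply, smul_eq_mul]
    linarith [hza j]
  have hneg : ∀ i, g (e i) ≤ 0 := by
    intro i
    by_contra hpos
    push Not at hpos
    have ha : (fun i => f i z0 + 1) ∈ U := ⟨z0, hz0, fun i => by linarith⟩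
    set a : Fin n → ℝ := fun i => f i z0 + 1 with haa
    set M : ℝ := g (fun i => c i + δ) - g a with hM
    have hMpos : 0 < M := by
      have := hg a ha
      linarith
    have h1 := hg _ (hup a ha i (M / g (e i)) (by positivity))
    rw [map_add, map_smul, smul_eq_mul, div_mul_cancel₀ _ hpos.ne'] at h1
    linarith
  obtain ⟨ζ, hζ, hle⟩ := h (fun i => - g (e i)) (fun i => by linarith [hneg i]) (δ / 2)
    (by linarith)
  have h2 := hg (fun i => f i ζ + δ / 4) ⟨ζ, hζ, fun i => by linarith⟩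
  rw [hsum, hsum] at h2
  have h3 : ∑ i, (c i + δ) * g (e i) - ∑ i, (f i ζ + δ / 4) * g (e i) =
      (∑ i, -g (e i) * f i ζ - ∑ i, -g (e i) * (c i + δ / 2)) + ∑ i, (δ / 4) * g (e i) := by
    rw [← Finset.sum_sub_distrib, ← Finset.sum_sub_distrib, ← Finset.sum_add_distrib]
    refine Finset.sum_congr rfl fun i _ => ?_
    ring
  have h4 : ∑ i, (δ / 4) * g (e i) ≤ 0 :=
    Finset.sum_nonpos fun i _ => mul_nonpos_of_nonneg_of_nonpos (by linarith) (hneg i)
  linarith

end Pool.Agent.Helper78.BC
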