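import Pool.Agent.Helper78.BC.Energy
import Pool.Agent.Helper78.BC.Minimax
import Pool.Agent.Helper78.BC.Fip

/-!
# Project BC, module 4: the Lipschitz lemma
-/

open scoped InnerProductSpace
open ContinuousLinearMap

namespace Pool.Agent.Helper78.BC

variable {H : Type*} [NormedAddCommGroup H] [InnerProductSpace ℂ H] [CompleteSpace H]

omit [CompleteSpace H] in
private theorem convexOn_move (a : H →L[ℂ] H) :
    ConvexOn ℝ Set.univ (fun ζ : H => ‖a ζ - ζ‖ ^ 2) := by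
  have h1 : ConvexOn ℝ Set.univ (fun ζ : H => ‖a ζ - ζ‖) := by
    refine ⟨convex_univ, fun x _ y _ s t hs ht hst => ?_⟩
    have e : a (s • x + t • y) - (s • x + t • y) = s • (a x - x) + t • (a y - y) := by
      rw [map_add]
      have e1 : a (s • x) = s • a x := by
        rw [← Complex.coe_smul, map_smul, Complex.coe_smul]
      have e2 : a (t • y) = t • a y := by
        rw [← Complex.coe_smul, map_smul, Complex.coe_smul]
      rw [e1, e2, smul_sub, smul_sub]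
      abel
    simp only
    rw [e]
    refine (norm_add_le _ _).trans ?_
    rw [norm_smul, norm_smul, Real.norm_of_nonneg hs, Real.norm_of_nonneg ht, smul_eq_mul,
      smul_eq_mul]
  exact h1.pow (fun _ _ => norm_nonneg _) 2

/-- A vector `η` that moves uniformly little when `ξ` moves little can be approximated by vectors
that move at most proportionally to `ξ`. -/
theorem lipschitz {S : Set (H →L[ℂ] H)} (hone : 1 ∈ S) (hmul : ∀ a ∈ S, ∀ b ∈ S, a * b ∈ S)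
    (hstar : ∀ a ∈ S, star a ∈ S) (huni : ∀ a ∈ S, star a * a = 1) {V : Set H}
    (hVc : Convex ℝ V) (hVcl : IsClosed V) (hVi : ∀ a ∈ S, ∀ v ∈ V, a v ∈ V) {ξ η : H}
    (hη : η ∈ V)
    (h : ∀ ε : ℝ, 0 < ε → ∃ C : ℝ, ∀ a ∈ S, ‖a η - η‖ ^ 2 ≤ ε + C * ‖a ξ - ξ‖ ^ 2)
    {r : ℝ} (hr : 0 < r) :
    ∃ ζ ∈ V, ‖ζ - η‖ ≤ r ∧ ∃ K : ℝ, 0 ≤ K ∧ ∀ a ∈ S, ‖a ζ - ζ‖ ≤ K * ‖a ξ - ξ‖ := by
  obtain ⟨K, hK, hen⟩ := energy hone hmul hstar huni hVc hVi hη h hr
  set W : Set H := V ∩ Metric.closedBall η r with hWdef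
  have hWc : Convex ℝ W := hVc.inter (convex_closedBall η r)
  have hηW : η ∈ W := ⟨hη, Metric.mem_closedBall_self hr.le⟩
  -- finitely many elements at once
  have hfin : ∀ (n : ℕ) (a : Fin n → H →L[ℂ] H), (∀ i, a i ∈ S) → ∀ δ : ℝ, 0 < δ →
      ∃ ζ ∈ W, ∀ i, ‖a i ζ - ζ‖ ^ 2 ≤ K * ‖a i ξ - ξ‖ ^ 2 + δ := by
    intro n a ha
    refine minimax hWc ⟨η, hηW⟩ (fun i ζ => ‖a i ζ - ζ‖ ^ 2)
      (fun i => (convexOn_move (a i)).subset (Set.subset_univ _) hWc)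
      (fun i => K * ‖a i ξ - ξ‖ ^ 2) ?_
    intro t ht δ hδ
    obtain ⟨ζ, hζV, hζr, hζ⟩ := hen n a ha t ht δ hδ
    exact ⟨ζ, ⟨hζV, by rw [Metric.mem_closedBall, dist_eq_norm]; exact hζr⟩, hζ⟩
  -- all elements at once
  let F : S × ℕ → Set H := fun i =>
    W ∩ {ζ | ‖i.1.1 ζ - ζ‖ ^ 2 ≤ K * ‖i.1.1 ξ - ξ‖ ^ 2 + 1 / ((i.2 : ℝ) + 1)}
  have hWcl : IsClosed W := hVcl.inter Metric.isClosed_closedBall
  have hF : (⋂ i, F i).Nonempty := by
    let _ : InnerProductSpace ℝ H := InnerProductSpace.rclikeToReal ℂ H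
    refine fip F ?_ ?_ ?_ ?_
    · intro i
      refine hWc.inter ?_
      have := (convexOn_move (i.1.1)).convex_le
        (K * ‖i.1.1 ξ - ξ‖ ^ 2 + 1 / ((i.2 : ℝ) + 1))
      simpa using this
    · intro i
      refine hWcl.inter ?_
      exact isClosed_le (by fun_prop) continuous_const
    · intro i
      exact (Metric.isBounded_closedBall (x := η) (r := r)).subset
        (Set.inter_subset_left.trans Set.inter_subset_right)
    · intro s
      set M : ℕ := s.sup (fun i => i.2) with hM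
      obtain ⟨ζ, hζW, hζ⟩ := hfin s.card (fun j => (s.equivFin.symm j).1.1.1)
        (fun j => (s.equivFin.symm j).1.1.2) (1 / ((M : ℝ) + 1)) (by positivity)
      refine ⟨ζ, ?_⟩
      rw [Set.mem_iInter₂]
      intro i hi
      refine ⟨hζW, ?_⟩
      have h1 := hζ (s.equivFin ⟨i, hi⟩)
      simp only [Equiv.symm_apply_apply] at h1
      refine h1.trans (add_le_add le_rfl ?_)
      have h2 : i.2 ≤ M := Finset.le_sup (f := fun i : S × ℕ => i.2) hi
      have h3 : (i.2 : ℝ) ≤ M := by exact_mod_cast h2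
      exact one_div_le_one_div_of_le (by positivity) (by linarith)
  obtain ⟨ζ, hζ⟩ := hF
  rw [Set.mem_iInter] at hζ
  have h0 := (hζ (⟨1, hone⟩, 0)).1
  refine ⟨ζ, h0.1, by simpa [dist_eq_norm] using h0.2, Real.sqrt K, Real.sqrt_nonneg K, ?_⟩
  intro a ha
  have h1 : ‖a ζ - ζ‖ ^ 2 ≤ K * ‖a ξ - ξ‖ ^ 2 := by
    refine le_of_forall_pos_le_add fun ε hε => ?_
    obtain ⟨m, hm⟩ := exists_nat_one_div_lt hε
    have h2 : ‖a ζ - ζ‖ ^ 2 ≤ K * ‖a ξ - ξ‖ ^ 2 + 1 / ((m : ℝ) + 1) := (hζ (⟨a, ha⟩, m)).2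
    linarith
  have h2 : 0 ≤ Real.sqrt K * ‖a ξ - ξ‖ := by positivity
  refine abs_le_of_sq_le_sq' ?_ h2 |>.2
  rw [mul_pow, Real.sq_sqrt hK]
  exact h1

end Pool.Agent.Helper78.BC
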