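import Pool.Agent.Helper78.BC.PS
import Pool.Agent.Helper78.BC.Lip1

/-!
# Project BC, module 14: no nontrivial projections in the bicentralizer
-/

open scoped InnerProductSpace Topology BoundedContinuousFunction
open ContinuousLinearMap Filter

namespace Pool.Agent.Helper78.BC

variable {H : Type*} [NormedAddCommGroup H] [InnerProductSpace ℂ H] [CompleteSpace H]
variable {A : VonNeumannAlgebra H} {ξ : H} {J : H →L[ℝ] H}
  {Ψ : (ℝ →ᵇ ℂ) →⋆ₐ[ℂ] (H →L[ℂ] H)}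

namespace NoProj

lemma inner_star_left (s : H →L[ℂ] H) (v w : H) : ⟪(star s) v, w⟫_ℂ = ⟪v, s w⟫_ℂ := by
  rw [star_eq_adjoint, adjoint_inner_left]

lemma apply_of_mul_eq_one {s t : H →L[ℂ] H} (h : s * t = 1) (v : H) : s (t v) = v := by
  have := congrArg (fun T : H →L[ℂ] H => T v) h
  simpa using this

lemma apply_of_mul_eq_zero {s t : H →L[ℂ] H} (h : s * t = 0) (v : H) : s (t v) = 0 := by
  have := congrArg (fun T : H →L[ℂ] H => T v) h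
  simpa using this

lemma apply_of_mul_eq_self {p : H →L[ℂ] H} (h : p * p = p) (v : H) : p (p v) = p v := by
  have := congrArg (fun T : H →L[ℂ] H => T v) h
  simpa using this

lemma inner_iso {s : H →L[ℂ] H} (hs : star s * s = 1) (v w : H) : ⟪s v, s w⟫_ℂ = ⟪v, w⟫_ℂ := by
  rw [← inner_star_left, apply_of_mul_eq_one hs]

lemma norm_iso {s : H →L[ℂ] H} (hs : star s * s = 1) (v : H) : ‖s v‖ = ‖v‖ := by
  have h1 := inner_iso hs v v
  rw [inner_self_eq_norm_sq_to_K, inner_self_eq_norm_sq_to_K] at h1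
  have h2 : ‖s v‖ ^ 2 = ‖v‖ ^ 2 := by exact_mod_cast h1
  exact (sq_eq_sq₀ (norm_nonneg _) (norm_nonneg _)).1 h2

lemma opnorm_iso {s : H →L[ℂ] H} (hs : star s * s = 1) : ‖s‖ ≤ 1 :=
  opNorm_le_bound _ zero_le_one fun v => by rw [norm_iso hs, one_mul]

lemma opnorm_proj {p : H →L[ℂ] H} (hpp : p * p = p) (hps : star p = p) : ‖p‖ ≤ 1 := by
  have h1 : ‖star p * p‖ = ‖p‖ * ‖p‖ := CStarRing.norm_star_mul_self
  rw [hps, hpp] at h1
  by_contra hcon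
  push Not at hcon
  nlinarith

lemma norm_le_of_le_one {s : H →L[ℂ] H} (hs : ‖s‖ ≤ 1) (v : H) : ‖s v‖ ≤ ‖v‖ := by
  calc ‖s v‖ ≤ ‖s‖ * ‖v‖ := s.le_opNorm v
    _ ≤ 1 * ‖v‖ := by gcongr
    _ = ‖v‖ := one_mul _

lemma norm_jj (h : Std A ξ J Ψ) {s : H →L[ℂ] H} (hs : ‖s‖ ≤ 1) (v : H) :
    ‖J (s (J v))‖ ≤ ‖v‖ := by
  rw [h.J_norm]
  exact (norm_le_of_le_one hs _).trans (h.J_norm v).le

lemma inner_jj (h : Std A ξ J Ψ) {s : H →L[ℂ] H} (hs : star s * s = 1) (v w : H) :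
    ⟪J (s (J v)), J (s (J w))⟫_ℂ = ⟪v, w⟫_ℂ := by
  rw [h.J_inner, inner_iso hs, h.J_inner]

lemma norm_jj_iso (h : Std A ξ J Ψ) {s : H →L[ℂ] H} (hs : star s * s = 1) (v : H) :
    ‖J (s (J v))‖ = ‖v‖ := by
  rw [h.J_norm, norm_iso hs, h.J_norm]

lemma inner_jj_zero (h : Std A ξ J Ψ) {s t : H →L[ℂ] H} (hs : star t * s = 0) (v w : H) :
    ⟪J (s (J v)), J (t (J w))⟫_ℂ = 0 := by
  have h1 := inner_star_left (star t) (J w) (s (J v))
  rw [star_star] at h1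
  rw [h.J_inner, h1, apply_of_mul_eq_zero hs, inner_zero_right]

/-- `u p J u p ξ = (J u J) (u p ξ)` -/
lemma cone_eq (h : Std A ξ J Ψ) {u p : H →L[ℂ] H} (hu : u ∈ A) (hp : p ∈ A) (hpp : p * p = p)
    (hJ : J (p ξ) = p ξ) : u (p (J (u (p ξ)))) = J (u (J (u (p ξ)))) := by
  have h1 : p (J (u (p ξ))) = J (u (J (p ξ))) := by
    conv_lhs => rw [← hJ]
    rw [← h.J_comm u hu p hp, apply_of_mul_eq_self hpp]
  rw [h1, ← h.J_comm u hu u hu]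

lemma inner_cone (h : Std A ξ J Ψ) {u x : H →L[ℂ] H} (hu : u ∈ A) (hx : x ∈ A)
    (hs : star u * u = 1) (w : H) :
    ⟪J (u (J w)), x (J (u (J w)))⟫_ℂ = ⟪w, x w⟫_ℂ := by
  rw [← h.J_comm u hu x hx, inner_jj h hs]

lemma norm_sq_add (h : Std A ξ J Ψ) {p : H →L[ℂ] H} (hpp : p * p = p) (hps : star p = p) :
    ‖p ξ‖ ^ 2 + ‖(1 - p) ξ‖ ^ 2 = 1 := by
  have h1 : ⟪p ξ, (1 - p) ξ⟫_ℂ = 0 := by
    have h2 : ⟪p ξ, (1 - p) ξ⟫_ℂ = ⟪(star p) ξ, (1 - p) ξ⟫_ℂ := by rw [hps]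
    rw [h2, inner_star_left]
    have h3 : p ((1 - p) ξ) = 0 := by
      simp [sub_apply, apply_of_mul_eq_self hpp]
    rw [h3, inner_zero_right]
  have h4 := @norm_add_sq ℂ H _ _ _ (p ξ) ((1 - p) ξ)
  rw [h1] at h4
  have h5 : p ξ + (1 - p) ξ = ξ := by simp [sub_apply]
  rw [h5, h.norm_one, map_zero, mul_zero, add_zero, one_pow] at h4
  exact h4.symm

lemma step (h : Std A ξ J Ψ) (hN : Pool.Agent.Helper23.RBF.TypeIIIOne A)
    {p : H →L[ℂ] H} (hpA : p ∈ A) (hpp : p * p = p) (hps : star p = p)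
    (hJ : J (p ξ) = p ξ) (hl : ‖p ξ‖ ^ 2 ≤ 1 / 2) {ε : ℝ} (hε : 0 < ε) :
    ∃ y ∈ A, ‖y‖ ≤ 1 ∧ p * y = y ∧ y * p = 0 ∧ ‖cm J y ξ‖ ≤ Real.sqrt ε ∧
      ‖p ξ‖ - Real.sqrt ε ≤ ‖y ξ‖ := by
  obtain ⟨⟨S1, hS1A, S2, hS2A, h11, h22, h12⟩, hapx⟩ := hN
  have hsum := norm_sq_add h hpp hps
  set q : H →L[ℂ] H := 1 - p with hq
  have hqA : q ∈ A := sub_mem (one_mem A) hpA
  have hqq : q * q = q := by
    rw [hq, sub_mul, mul_sub, mul_sub, hpp]; simp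
  have hqs : star q = q := by rw [hq, star_sub, star_one, hps]
  have hqp : q * p = 0 := by rw [hq, sub_mul, hpp]; simp
  have hJq : J (q ξ) = q ξ := by
    rw [hq]
    simp only [sub_apply, one_apply_eq_self, map_sub, h.J_xi, hJ]
  set l : ℝ := ‖p ξ‖ ^ 2 with hldef
  have hl0 : 0 ≤ l := sq_nonneg _
  have hql : ‖q ξ‖ ^ 2 = 1 - l := by linarith
  have h1l : 0 < 1 - l := by linarith
  have h2l : 0 ≤ 1 - 2 * l := by linarith
  set c : ℝ := (Real.sqrt (1 - l))⁻¹ with hc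
  set d : ℝ := Real.sqrt ((1 - 2 * l) / (1 - l)) with hd
  set t : ℝ := Real.sqrt (1 - 2 * l) with ht
  have hc2 : c ^ 2 = 1 / (1 - l) := by
    rw [hc, inv_pow, Real.sq_sqrt h1l.le, one_div]
  have hd2 : d ^ 2 = c ^ 2 * (1 - 2 * l) := by
    rw [hd, Real.sq_sqrt (div_nonneg h2l h1l.le), hc2]; ring
  have ht2 : t ^ 2 = 1 - 2 * l := by rw [ht, Real.sq_sqrt h2l]
  have hc1 : 1 ≤ c ^ 2 := by
    rw [hc2, le_div_iff₀ h1l]; linarith
  have hn1 : ‖(c : ℂ) • q ξ‖ ^ 2 + ‖(0 : H)‖ ^ 2 = 1 := by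
    rw [norm_smul, mul_pow, hql, norm_zero, Complex.norm_real, Real.norm_eq_abs, sq_abs, hc2]
    field_simp
    ring
  have hn2 : ‖(c : ℂ) • S1 (p ξ)‖ ^ 2 + ‖(d : ℂ) • S2 ξ‖ ^ 2 = 1 := by
    rw [norm_smul, norm_smul, mul_pow, mul_pow, norm_iso h11, norm_iso h22, h.norm_one,
      Complex.norm_real, Complex.norm_real, Real.norm_eq_abs, Real.norm_eq_abs, sq_abs, sq_abs,
      hd2, hc2, ← hldef]
    field_simp
    ring
  obtain ⟨u, huA, hu1, hu2, hux⟩ := hapx _ _ _ _ hn1 hn2 ε hε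
  -- rescaled estimate
  have key : ∀ x ∈ A, ‖⟪u (q ξ), x (u (q ξ))⟫_ℂ -
      (⟪S1 (p ξ), x (S1 (p ξ))⟫_ℂ + ((1 - 2 * l : ℝ) : ℂ) * ⟪S2 ξ, x (S2 ξ)⟫_ℂ)‖ ≤ ε * ‖x‖ := by
    intro x hx
    have h1 := hux x hx
    have h2 : ⟪u ((c : ℂ) • q ξ), x (u ((c : ℂ) • q ξ))⟫_ℂ + ⟪u (0 : H), x (u (0 : H))⟫_ℂ -
        (⟪(c : ℂ) • S1 (p ξ), x ((c : ℂ) • S1 (p ξ))⟫_ℂ +
          ⟪(d : ℂ) • S2 ξ, x ((d : ℂ) • S2 ξ)⟫_ℂ) =
        ((c ^ 2 : ℝ) : ℂ) * (⟪u (q ξ), x (u (q ξ))⟫_ℂ -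
      (⟪S1 (p ξ), x (S1 (p ξ))⟫_ℂ + ((1 - 2 * l : ℝ) : ℂ) * ⟪S2 ξ, x (S2 ξ)⟫_ℂ)) := by
      have h3 : ((d : ℂ)) * d = ((c ^ 2 : ℝ) : ℂ) * ((1 - 2 * l : ℝ) : ℂ) := by
        rw [← Complex.ofReal_mul, ← Complex.ofReal_mul, ← hd2, sq]
      simp only [map_smul, inner_smul_left, inner_smul_right, Complex.conj_ofReal, map_zero,
        inner_zero_left, add_zero]
      rw [← mul_assoc, ← mul_assoc, ← mul_assoc, h3]
      push_cast
      ring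
    rw [h2, norm_mul, Complex.norm_real, Real.norm_eq_abs, abs_of_nonneg (sq_nonneg c)] at h1
    refine le_trans ?_ h1
    exact le_mul_of_one_le_left (norm_nonneg _) hc1
  set κ1 : H := u (q (J (u (q ξ)))) with hκ1
  set κ2 : H := S1 (p (J (S1 (p ξ)))) + (t : ℂ) • S2 (J (S2 ξ)) with hκ2
  have hP1 : κ1 ∈ P0 A ξ J := by
    refine ⟨1, fun _ => u * q, fun _ => mul_mem huA hqA, ?_⟩
    simp [hκ1]
  have hP2 : κ2 ∈ P0 A ξ J := by
    refine ⟨2, ![S1 * p, ((Real.sqrt t : ℝ) : ℂ) • S2], ?_, ?_⟩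
    · intro i
      fin_cases i
      · exact mul_mem hS1A hpA
      · exact A.toStarSubalgebra.smul_mem hS2A _
    · have h3 : ((Real.sqrt t : ℝ) : ℂ) * ((Real.sqrt t : ℝ) : ℂ) = (t : ℂ) := by
        rw [← Complex.ofReal_mul, Real.mul_self_sqrt (Real.sqrt_nonneg _)]
      rw [Fin.sum_univ_two, hκ2]
      simp only [Matrix.cons_val_zero, Matrix.cons_val_one, smul_apply]
      rw [h.J_conj, map_smul, smul_smul, Complex.conj_ofReal, h3]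
      rfl
  have hκ1' : κ1 = J (u (J (u (q ξ)))) := cone_eq h huA hqA hqq hJq
  have hκ2' : κ2 = J (S1 (J (S1 (p ξ)))) + (t : ℂ) • J (S2 (J (S2 ξ))) := by
    rw [hκ2, cone_eq h hS1A hpA hpp hJ]
    congr 2
    rw [h.J_comm S2 hS2A S2 hS2A, h.J_xi]
  have hin1 : ∀ x ∈ A, ⟪κ1, x κ1⟫_ℂ = ⟪u (q ξ), x (u (q ξ))⟫_ℂ := by
    intro x hx
    rw [hκ1', inner_cone h huA hx hu1]
  have h21 : star S2 * S1 = 0 := by
    have := congrArg star h12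
    rwa [star_mul, star_star, star_zero] at this
  have hin2 : ∀ x ∈ A, ⟪κ2, x κ2⟫_ℂ = ⟪S1 (p ξ), x (S1 (p ξ))⟫_ℂ +
      ((1 - 2 * l : ℝ) : ℂ) * ⟪S2 ξ, x (S2 ξ)⟫_ℂ := by
    intro x hx
    have h3 : (t : ℂ) * t = ((1 - 2 * l : ℝ) : ℂ) := by
      rw [← Complex.ofReal_mul, ← ht2, sq]
    rw [hκ2', map_add, map_smul, ← h.J_comm S1 hS1A x hx, ← h.J_comm S2 hS2A x hx]
    simp only [inner_add_left, inner_add_right, inner_smul_left, inner_smul_right,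
      inner_jj h h11, inner_jj h h22, inner_jj_zero h h12, inner_jj_zero h h21,
      Complex.conj_ofReal]
    rw [← h3]
    ring
  have hPS : ‖κ1 - κ2‖ ^ 2 ≤ ε := by
    refine powers_stormer h (subset_closure hP1) (subset_closure hP2) ?_
    intro x hx
    rw [hin1 x hx, hin2 x hx]
    exact key x hx
  have hD : ‖κ1 - κ2‖ ≤ Real.sqrt ε := Real.le_sqrt_of_sq_le hPS
  set y : H →L[ℂ] H := p * star S1 * u * q with hy
  have hyA : y ∈ A := mul_mem (mul_mem (mul_mem hpA (star_mem hS1A)) huA) hqA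
  have hp1 : ‖p‖ ≤ 1 := opnorm_proj hpp hps
  have hq1 : ‖q‖ ≤ 1 := opnorm_proj hqq hqs
  have hs1 : ‖star S1‖ ≤ 1 := by rw [norm_star]; exact opnorm_iso h11
  have hun : ‖u‖ ≤ 1 := opnorm_iso hu1
  have hus : ‖star u‖ ≤ 1 := by rw [norm_star]; exact hun
  have hyapp : ∀ v, y v = p ((star S1) (u (q v))) := fun v => rfl
  have hstary : star y = q * star u * S1 * p := by
    rw [hy, star_mul, star_mul, star_mul, star_star, hqs, hps]
    simp only [mul_assoc]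
  -- `p S1* (κ1 - κ2)`
  have hD2 : p ((star S1) (κ1 - κ2)) = J (u (J (y ξ))) - J (S1 (J (p ξ))) := by
    have e1 : p ((star S1) κ1) = J (u (J (y ξ))) := by
      rw [hκ1', hyapp, ← h.J_comm u huA _ (star_mem hS1A), ← h.J_comm u huA p hpA]
    have e2 : p ((star S1) κ2) = J (S1 (J (p ξ))) := by
      rw [hκ2, map_add, map_smul, apply_of_mul_eq_one h11, apply_of_mul_eq_zero h12, smul_zero,
        add_zero, apply_of_mul_eq_self hpp]
      conv_lhs => rw [← hJ]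
      rw [← h.J_comm S1 hS1A p hpA, apply_of_mul_eq_self hpp]
    rw [map_sub, map_sub, e1, e2]
  have hnD2 : ‖p ((star S1) (κ1 - κ2))‖ ≤ Real.sqrt ε :=
    ((norm_le_of_le_one hp1 _).trans (norm_le_of_le_one hs1 _)).trans hD
  refine ⟨y, hyA, ?_, ?_, ?_, ?_, ?_⟩
  · calc ‖y‖ ≤ ‖p‖ * ‖star S1‖ * ‖u‖ * ‖q‖ := by
          rw [hy]
          refine (norm_mul_le _ _).trans ?_
          gcongr
          refine (norm_mul_le _ _).trans ?_
          gcongr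
          exact norm_mul_le _ _
      _ ≤ 1 * 1 * 1 * 1 := by gcongr
      _ = 1 := by norm_num
  · rw [hy, ← mul_assoc, ← mul_assoc, ← mul_assoc, hpp]
  · rw [hy, mul_assoc, hqp, mul_zero]
  · have e3 : J (q (J (J ((star u) (J (p ((star S1) (κ1 - κ2)))))))) = cm J y ξ := by
      rw [h.J_J, hD2, map_sub, map_sub, h.J_J, h.J_J, apply_of_mul_eq_one hu1, hJ, map_sub,
        map_sub]
      have e4 : J (q (J (y ξ))) = y ξ := by
        rw [h.J_comm q hqA y hyA, h.J_xi, hJq, hyapp, hyapp, apply_of_mul_eq_self hqq]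
      rw [e4]
      unfold cm rm
      rw [h.J_xi, hstary]
      rfl
    rw [← e3]
    exact (norm_jj h hq1 _).trans ((norm_jj h hus _).trans hnD2)
  · rw [hD2] at hnD2
    have e5 := norm_sub_norm_le (J (S1 (J (p ξ)))) (J (u (J (y ξ))))
    rw [norm_jj_iso h hu1, norm_jj_iso h h11, norm_sub_rev] at e5
    linarith

/-- the case `φ(p) ≤ 1/2` -/
lemma half (h : Std A ξ J Ψ) (hN : Pool.Agent.Helper23.RBF.TypeIIIOne A)
    {p : H →L[ℂ] H} (hp : Bic A ξ p) (hpp : p * p = p) (hps : star p = p)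
    (hJ : J (p ξ) = p ξ) (hl : ‖p ξ‖ ^ 2 ≤ 1 / 2) : p = 0 := by
  refine h.sep p hp.1 ?_
  have hst : ∀ n : ℕ, ∃ y ∈ A, ‖y‖ ≤ 1 ∧ p * y = y ∧ y * p = 0 ∧
      ‖cm J y ξ‖ ≤ Real.sqrt (1 / ((n : ℝ) + 1)) ∧
      ‖p ξ‖ - Real.sqrt (1 / ((n : ℝ) + 1)) ≤ ‖y ξ‖ := fun n =>
    NoProj.step h hN hp.1 hpp hps hJ hl Nat.one_div_pos_of_nat
  choose y hyA hy1 hpy hyp hcm hyn using hst
  have hlim : Tendsto (fun n : ℕ => Real.sqrt (1 / ((n : ℝ) + 1))) atTop (𝓝 0) := by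
    have := (Real.continuous_sqrt.tendsto 0).comp
      (tendsto_one_div_add_atTop_nhds_zero_nat (𝕜 := ℝ))
    rw [Real.sqrt_zero] at this
    exact this
  have hAE : Pool.Agent.Helper23.RBF.AsympEigen A ξ 1 y := by
    refine ⟨hyA, ⟨1, hy1⟩, ?_⟩
    intro ε hε
    have hε2 : 0 < ε / 2 := by positivity
    filter_upwards [hlim.eventually_lt_const hε2] with n hn x hx
    have h1 := asymp_of_cm h hx (hyA n)
    have h2 : ((1 : ℝ) : ℂ) * ⟪ξ, (y n * x) ξ⟫_ℂ = ⟪ξ, (y n * x) ξ⟫_ℂ := by simp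
    rw [h2]
    refine h1.trans ?_
    have h3 : ‖cm J (y n) ξ‖ ≤ ε / 2 := (hcm n).trans hn.le
    calc 2 * ‖x‖ * ‖cm J (y n) ξ‖ ≤ 2 * ‖x‖ * (ε / 2) := by gcongr
      _ = ε * ‖x‖ := by ring
  have h4 := hp.2 y hAE ξ
  have h5 : (fun n => (p * y n - y n * p) ξ) = fun n => y n ξ := by
    funext n
    rw [hpy, hyp, sub_zero]
  rw [h5] at h4
  have h6 : Tendsto (fun n => ‖y n ξ‖) atTop (𝓝 0) := by
    have := h4.norm
    rwa [norm_zero] at this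
  have h7 : Tendsto (fun n : ℕ => ‖p ξ‖ - Real.sqrt (1 / ((n : ℝ) + 1))) atTop
      (𝓝 (‖p ξ‖ - 0)) := tendsto_const_nhds.sub hlim
  rw [sub_zero] at h7
  have h8 : ‖p ξ‖ ≤ 0 := le_of_tendsto_of_tendsto' h7 h6 hyn
  exact norm_le_zero_iff.1 h8

end NoProj

theorem no_proj (h : Std A ξ J Ψ) (hN : Pool.Agent.Helper23.RBF.TypeIIIOne A)
    {p : H →L[ℂ] H} (hp : Bic A ξ p) (hpp : p * p = p) (hps : star p = p)
    (hJ : J (p ξ) = p ξ) : p = 0 ∨ p = 1 := by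
  rcases le_total (‖p ξ‖ ^ 2) (1 / 2) with hl | hl
  · exact Or.inl (NoProj.half h hN hp hpp hps hJ hl)
  · right
    have hsum := NoProj.norm_sq_add h hpp hps
    have hq : Bic A ξ (1 - p) := by
      refine ⟨sub_mem (one_mem A) hp.1, fun a ha η => ?_⟩
      have h1 := (hp.2 a ha η).neg
      rw [neg_zero] at h1
      refine h1.congr fun n => ?_
      rw [← neg_apply]
      congr 1
      rw [sub_mul, mul_sub, one_mul, mul_one]
      abel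
    have h0 : 1 - p = 0 := by
      refine NoProj.half h hN hq ?_ ?_ ?_ (by linarith)
      · rw [sub_mul, mul_sub, mul_sub, hpp]; simp
      · rw [star_sub, star_one, hps]
      · simp only [sub_apply, one_apply_eq_self, map_sub, h.J_xi, hJ]
    exact (sub_eq_zero.1 h0).symm

end Pool.Agent.Helper78.BC
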