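import Pool.Agent.Helper78.BC.Defs
import Pool.Agent.V.Sum

/-!
# Project BC, module 12: the telescoping argument
-/

open scoped InnerProductSpace Topology BoundedContinuousFunction
open ContinuousLinearMap Filter

namespace Pool.Agent.Helper78.BC

variable {H : Type*} [NormedAddCommGroup H] [InnerProductSpace ℂ H] [CompleteSpace H]

namespace PsiZero

/-- the clamp function -/
noncomputable def cl (t : ℝ) : ℝ := max 0 (min 1 t)

lemma cl_cont : Continuous cl := by unfold cl; fun_prop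

lemma cl_zero {t : ℝ} (h : t ≤ 0) : cl t = 0 := by
  unfold cl
  rw [max_eq_left ((min_le_right _ _).trans h)]

lemma cl_one {t : ℝ} (h : 1 ≤ t) : cl t = 1 := by
  unfold cl
  rw [min_eq_left h, max_eq_right zero_le_one]

lemma cl_mono {s t : ℝ} (h : s ≤ t) : cl s ≤ cl t :=
  max_le_max le_rfl (min_le_min le_rfl h)

lemma cl_nonneg (t : ℝ) : 0 ≤ cl t := le_max_left _ _

lemma cl_le (t : ℝ) : cl t ≤ 1 := max_le zero_le_one (min_le_left _ _)

/-- the tent function -/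
noncomputable def tn (a w : ℝ) (k : ℕ) (ρ : ℝ) : ℝ :=
  cl ((ρ - a) / w - k + 1) - cl ((ρ - a) / w - k)

lemma tn_nonneg (a w : ℝ) (k : ℕ) (ρ : ℝ) : 0 ≤ tn a w k ρ :=
  sub_nonneg.2 (cl_mono (by linarith))

lemma tn_le (a w : ℝ) (k : ℕ) (ρ : ℝ) : tn a w k ρ ≤ 1 := by
  unfold tn
  linarith [cl_le ((ρ - a) / w - k + 1), cl_nonneg ((ρ - a) / w - k)]

lemma tn_zero {a w : ℝ} (hw : 0 < w) {k : ℕ} {ρ : ℝ} (h : w < |ρ - (a + k * w)|) :
    tn a w k ρ = 0 := by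
  unfold tn
  have e : (ρ - a) / w - k = (ρ - (a + k * w)) / w := by field_simp; ring
  rw [e]
  rcases lt_abs.1 h with h1 | h1
  · have h2 : 1 < (ρ - (a + k * w)) / w := (one_lt_div hw).2 h1
    rw [cl_one (by linarith), cl_one h2.le, sub_self]
  · have h2 : (ρ - (a + k * w)) / w < -1 := by
      rw [div_lt_iff₀ hw]; linarith
    rw [cl_zero (by linarith), cl_zero (by linarith), sub_self]

lemma tn_sum {a w : ℝ} (hw : 0 < w) (m : ℕ) {ρ : ℝ} (h1 : a ≤ ρ) (h2 : ρ ≤ a + m * w) :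
    ∑ k ∈ Finset.range (m + 1), tn a w k ρ = 1 := by
  have h := Finset.sum_range_sub' (fun k : ℕ => cl ((ρ - a) / w - k + 1)) (m + 1)
  have e : ∀ k : ℕ, cl ((ρ - a) / w - k + 1) - cl ((ρ - a) / w - ((k + 1 : ℕ) : ℝ) + 1) =
      tn a w k ρ := by
    intro k
    unfold tn
    congr 2
    push_cast
    ring
  simp only [e] at h
  rw [h, cl_one, cl_zero, sub_zero]
  · have : (ρ - a) / w ≤ m := by rw [div_le_iff₀ hw]; linarith
    push_cast
    linarith
  · have : 0 ≤ (ρ - a) / w := div_nonneg (by linarith) hw.le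
    push_cast
    linarith

lemma tn_cont (a w : ℝ) (k : ℕ) : Continuous (tn a w k) := by
  have h1 : Continuous fun ρ : ℝ => (ρ - a) / w - k + 1 := by fun_prop
  have h2 : Continuous fun ρ : ℝ => (ρ - a) / w - k := by fun_prop
  exact (cl_cont.comp h1).sub (cl_cont.comp h2)

/-- the square root of the tent -/
noncomputable def fB (a w : ℝ) (k : ℕ) : ℝ →ᵇ ℂ :=
  BoundedContinuousFunction.ofNormedAddCommGroup
    (fun ρ : ℝ => ((Real.sqrt (tn a w k ρ) : ℝ) : ℂ))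
    (Complex.continuous_ofReal.comp (Real.continuous_sqrt.comp (tn_cont a w k))) 1 (by
      intro ρ
      rw [Complex.norm_real, Real.norm_of_nonneg (Real.sqrt_nonneg _)]
      exact Real.sqrt_le_one.2 (tn_le _ _ _ _))

lemma fB_apply (a w : ℝ) (k : ℕ) (ρ : ℝ) : fB a w k ρ = ((Real.sqrt (tn a w k ρ) : ℝ) : ℂ) := rfl

/-- the exponential on the support of the window, truncated -/
noncomputable def eB (q : ℝ) (hq : 0 ≤ q) : ℝ →ᵇ ℂ :=
  BoundedContinuousFunction.ofNormedAddCommGroup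
    (fun ρ : ℝ => ((min q (Real.exp (-ρ / 2)) : ℝ) : ℂ)) (by fun_prop) q (by
      intro ρ
      rw [Complex.norm_real, Real.norm_of_nonneg (le_min hq (Real.exp_pos _).le)]
      exact min_le_left _ _)

lemma eB_apply (q : ℝ) (hq : 0 ≤ q) (ρ : ℝ) :
    eB q hq ρ = ((min q (Real.exp (-ρ / 2)) : ℝ) : ℂ) := rfl

lemma eB_norm (q : ℝ) (hq : 0 ≤ q) : ‖eB q hq‖ ≤ q :=
  BoundedContinuousFunction.norm_ofNormedAddCommGroup_le _ hq _

lemma psi_le (Ψ : (ℝ →ᵇ ℂ) →⋆ₐ[ℂ] (H →L[ℂ] H)) (G : ℝ →ᵇ ℂ) (v : H) :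
    ‖Ψ G v‖ ≤ ‖G‖ * ‖v‖ :=
  ((Ψ G).le_opNorm v).trans (mul_le_mul_of_nonneg_right
    (NonUnitalStarAlgHom.norm_apply_le Ψ G) (norm_nonneg _))

lemma exp_lip {x y : ℝ} (hx : 0 ≤ x) (hy : 0 ≤ y) :
    |Real.exp (-x / 2) - Real.exp (-y / 2)| ≤ |x - y| / 2 := by
  wlog h : x ≤ y generalizing x y
  · rw [abs_sub_comm, abs_sub_comm x y]
    exact this hy hx (le_of_not_ge h)
  have h1 : Real.exp (-y / 2) ≤ Real.exp (-x / 2) := Real.exp_le_exp.2 (by linarith)
  rw [abs_of_nonneg (sub_nonneg.2 h1), abs_of_nonpos (by linarith)]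
  have h2 : Real.exp (-y / 2) = Real.exp (-x / 2) * Real.exp (-(y - x) / 2) := by
    rw [← Real.exp_add]; congr 1; ring
  have h3 := Real.add_one_le_exp (-(y - x) / 2)
  have h4 : Real.exp (-x / 2) ≤ 1 := Real.exp_le_one_iff.2 (by linarith)
  have h5 := Real.exp_pos (-x / 2)
  rw [h2]
  nlinarith

/-- one window -/
lemma window {Ψ : (ℝ →ᵇ ℂ) →⋆ₐ[ℂ] (H →L[ℂ] H)} {C : ℝ} (hC : 0 ≤ C) {ζ : H} {z : ℝ → H}
    (h1 : z 1 = ζ) (hn : ∀ l : ℝ, 0 < l → l ≤ 1 → ‖z l‖ ≤ ‖ζ‖)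
    (hp : ∀ l m : ℝ, 0 < l → l ≤ 1 → 0 < m → m ≤ 1 → ∀ G G' : ℝ →ᵇ ℂ, HasCompactSupport G →
      (∀ ρ, (G ρ).im = 0) → (∀ ρ, G' ρ = ((Real.exp (ρ / 2) : ℝ) : ℂ) * G ρ) → ∀ s : ℝ,
      (∀ ρ, ‖G ρ‖ * |Real.sqrt l * Real.exp (ρ / 2) - Real.sqrt m| ≤ s) →
      ‖Ψ G (z l) - Ψ G' (z m)‖ ≤ C * s)
    {c κ w : ℝ} (hc : 0 < c) (hκ : 2 * c ≤ κ) (hw : 0 < w) (hwc : w ≤ c) {F : ℝ →ᵇ ℂ}
    {f : ℝ → ℝ} (hF : ∀ ρ, F ρ = f ρ) (hf0 : ∀ ρ, 0 ≤ f ρ) (hf1 : ∀ ρ, f ρ ≤ 1)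
    (hfw : ∀ ρ, w < |ρ - κ| → f ρ = 0) :
    ‖Ψ F ζ‖ ≤ C * w / (2 * (1 - Real.exp (-c / 2))) := by
  set q := Real.exp (-c / 2) with hq
  have hq0 : 0 < q := Real.exp_pos _
  have hq1 : q < 1 := by rw [hq, Real.exp_lt_one_iff]; linarith
  set u : ℕ → ℝ := fun n => ‖Ψ F (z (Real.exp (-(n * κ))))‖ with hu
  have hκ0 : 0 < κ := by linarith
  have hl : ∀ n : ℕ, 0 < Real.exp (-(n * κ)) ∧ Real.exp (-(n * κ)) ≤ 1 := fun n =>
    ⟨Real.exp_pos _, Real.exp_le_one_iff.2 (by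
      have : (0 : ℝ) ≤ n := Nat.cast_nonneg n
      nlinarith)⟩
  have hsupp : ∀ ρ, f ρ ≠ 0 → κ - w ≤ ρ ∧ ρ ≤ κ + w := by
    intro ρ h
    have h2 : |ρ - κ| ≤ w := by
      by_contra hcon
      exact h (hfw ρ (not_le.1 hcon))
    rw [abs_le] at h2
    exact ⟨by linarith [h2.1], by linarith [h2.2]⟩
  have hsqrt : ∀ n : ℕ, Real.sqrt (Real.exp (-(n * κ))) = Real.exp (-(n * κ) / 2) := by
    intro n
    rw [← Real.exp_half]
  have hmulF : ∀ ρ, (eB q hq0.le * F) ρ = ((Real.exp (-ρ / 2) * f ρ : ℝ) : ℂ) := by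
    intro ρ
    rw [BoundedContinuousFunction.mul_apply, eB_apply, hF]
    by_cases h : f ρ = 0
    · rw [h]; simp
    · have h2 := (hsupp ρ h).1
      have h3 : Real.exp (-ρ / 2) ≤ q := Real.exp_le_exp.2 (by linarith)
      rw [min_eq_right h3]
      push_cast
      rfl
  have hrec : ∀ n : ℕ, u n ≤ q * u (n + 1) + C * w / 2 := by
    intro n
    have h2 := hp (Real.exp (-((n + 1 : ℕ) * κ))) (Real.exp (-(n * κ))) (hl _).1 (hl _).2
      (hl _).1 (hl _).2 (eB q hq0.le * F) F (by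
        refine HasCompactSupport.of_support_subset_isCompact (isCompact_Icc (a := κ - w)
          (b := κ + w)) fun ρ hρ => ?_
        rw [Function.mem_support, hmulF] at hρ
        refine hsupp ρ fun h0 => hρ ?_
        rw [h0, mul_zero, Complex.ofReal_zero]) (fun ρ => by
        rw [hmulF, Complex.ofReal_im]) (fun ρ => by
        rw [hmulF, hF, ← Complex.ofReal_mul, ← mul_assoc, ← Real.exp_add]
        have : ρ / 2 + -ρ / 2 = 0 := by ring
        rw [this, Real.exp_zero, one_mul]) (w / 2) (by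
        intro ρ
        rw [hmulF, Complex.norm_real, Real.norm_of_nonneg
          (mul_nonneg (Real.exp_pos _).le (hf0 ρ)), hsqrt, hsqrt]
        by_cases h : f ρ = 0
        · rw [h, mul_zero, zero_mul]; positivity
        · have h2 := hsupp ρ h
          have e1 : Real.exp (-((n + 1 : ℕ) * κ) / 2) * Real.exp (ρ / 2) -
              Real.exp (-(n * κ) / 2) =
              Real.exp (-(n * κ) / 2) * Real.exp (ρ / 2) *
                (Real.exp (-κ / 2) - Real.exp (-ρ / 2)) := by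
            rw [mul_sub, ← Real.exp_add, ← Real.exp_add, ← Real.exp_add, ← Real.exp_add]
            congr 1
            · congr 1; push_cast; ring
            · congr 1; ring
          rw [e1, abs_mul, abs_mul, abs_of_pos (Real.exp_pos _), abs_of_pos (Real.exp_pos _)]
          have h3 := exp_lip (x := κ) (y := ρ) hκ0.le (by linarith)
          have h4 : |κ - ρ| ≤ w := abs_le.2 ⟨by linarith, by linarith⟩
          have h5 : Real.exp (-(n * κ) / 2) ≤ 1 := Real.exp_le_one_iff.2 (by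
            have : (0 : ℝ) ≤ n := Nat.cast_nonneg n
            nlinarith)
          have e2 : Real.exp (-ρ / 2) * f ρ * (Real.exp (-(n * κ) / 2) * Real.exp (ρ / 2) *
              |Real.exp (-κ / 2) - Real.exp (-ρ / 2)|) =
              (Real.exp (-ρ / 2) * Real.exp (ρ / 2)) * (f ρ * Real.exp (-(n * κ) / 2)) *
                |Real.exp (-κ / 2) - Real.exp (-ρ / 2)| := by ring
          have e3 : Real.exp (-ρ / 2) * Real.exp (ρ / 2) = 1 := by
            rw [← Real.exp_add]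
            have : -ρ / 2 + ρ / 2 = 0 := by ring
            rw [this, Real.exp_zero]
          rw [e2, e3, one_mul]
          have h6 : f ρ * Real.exp (-(n * κ) / 2) ≤ 1 := by
            have := mul_le_mul (hf1 ρ) h5 (Real.exp_pos _).le zero_le_one
            linarith
          calc f ρ * Real.exp (-(n * κ) / 2) * |Real.exp (-κ / 2) - Real.exp (-ρ / 2)| ≤
                1 * |Real.exp (-κ / 2) - Real.exp (-ρ / 2)| :=
                mul_le_mul_of_nonneg_right h6 (abs_nonneg _)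
            _ ≤ w / 2 := by linarith)
    have h3 : ‖Ψ (eB q hq0.le * F) (z (Real.exp (-((n + 1 : ℕ) * κ))))‖ ≤ q * u (n + 1) := by
      rw [map_mul]
      change ‖Ψ (eB q hq0.le) (Ψ F (z (Real.exp (-((n + 1 : ℕ) * κ)))))‖ ≤ _
      exact (psi_le Ψ _ _).trans (mul_le_mul_of_nonneg_right (eB_norm q hq0.le) (norm_nonneg _))
    have h4 : u n ≤ ‖Ψ (eB q hq0.le * F) (z (Real.exp (-((n + 1 : ℕ) * κ))))‖ +
        ‖Ψ (eB q hq0.le * F) (z (Real.exp (-((n + 1 : ℕ) * κ)))) -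
          Ψ F (z (Real.exp (-(n * κ))))‖ := norm_le_norm_add_norm_sub _ _
    linarith
  have hall : ∀ n : ℕ, u 0 ≤ q ^ n * u n + C * w / 2 * ((1 - q ^ n) / (1 - q)) := by
    intro n
    induction n with
    | zero => simp
    | succ n ih =>
      have h2 := mul_le_mul_of_nonneg_left (hrec n) (pow_nonneg hq0.le n)
      have e : (1 - q ^ (n + 1)) / (1 - q) = (1 - q ^ n) / (1 - q) + q ^ n := by
        have : (1 : ℝ) - q ≠ 0 := by linarith
        field_simp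
        ring
      rw [e, pow_succ]
      nlinarith
  have hub : ∀ n, u n ≤ ‖F‖ * ‖ζ‖ := fun n =>
    (psi_le Ψ F _).trans (mul_le_mul_of_nonneg_left (hn _ (hl n).1 (hl n).2) (norm_nonneg _))
  have hlim : Tendsto (fun n : ℕ => q ^ n * (‖F‖ * ‖ζ‖) + C * w / 2 * ((1 - q ^ n) / (1 - q)))
      atTop (𝓝 (0 * (‖F‖ * ‖ζ‖) + C * w / 2 * ((1 - 0) / (1 - q)))) := by
    have h2 := tendsto_pow_atTop_nhds_zero_of_lt_one hq0.le hq1
    exact (h2.mul_const _).add (((h2.const_sub 1).div_const _).const_mul _)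
  have h0 : u 0 ≤ 0 * (‖F‖ * ‖ζ‖) + C * w / 2 * ((1 - 0) / (1 - q)) := by
    refine ge_of_tendsto' hlim fun n => (hall n).trans ?_
    have := mul_le_mul_of_nonneg_left (hub n) (pow_nonneg hq0.le n)
    linarith
  have e0 : u 0 = ‖Ψ F ζ‖ := by
    simp only [hu, Nat.cast_zero, zero_mul, neg_zero, Real.exp_zero, h1]
  rw [← e0]
  refine h0.trans (le_of_eq ?_)
  have : (1 : ℝ) - q ≠ 0 := by linarith
  field_simp
  ring

end PsiZero

open PsiZero Pool.Agent.Helper23 in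
theorem psi_zero {Ψ : (ℝ →ᵇ ℂ) →⋆ₐ[ℂ] (H →L[ℂ] H)} {C : ℝ} (hC : 0 ≤ C) {ζ : H} {z : ℝ → H}
    (h1 : z 1 = ζ) (hn : ∀ l : ℝ, 0 < l → l ≤ 1 → ‖z l‖ ≤ ‖ζ‖)
    (hc : ∀ l m : ℝ, 0 < l → l ≤ 1 → 0 < m → m ≤ 1 →
      ‖z l - z m‖ ≤ C * |Real.sqrt l - Real.sqrt m|)
    (hp : ∀ l m : ℝ, 0 < l → l ≤ 1 → 0 < m → m ≤ 1 → ∀ G G' : ℝ →ᵇ ℂ, HasCompactSupport G →
      (∀ ρ, (G ρ).im = 0) → (∀ ρ, G' ρ = ((Real.exp (ρ / 2) : ℝ) : ℂ) * G ρ) → ∀ s : ℝ,
      (∀ ρ, ‖G ρ‖ * |Real.sqrt l * Real.exp (ρ / 2) - Real.sqrt m| ≤ s) →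
      ‖Ψ G (z l) - Ψ G' (z m)‖ ≤ C * s)
    {a b : ℝ} (ha : 0 < a) (hab : a < b) {G : ℝ →ᵇ ℂ}
    (hG : ∀ ρ, ρ ∉ Set.Icc a b → G ρ = 0) : Ψ G ζ = 0 := by
  set c := a / 2 with hcdef
  have hc0 : 0 < c := by positivity
  set B := C / (2 * (1 - Real.exp (-c / 2))) with hB
  have hq1 : Real.exp (-c / 2) < 1 := by rw [Real.exp_lt_one_iff]; linarith
  have hB0 : 0 ≤ B := div_nonneg hC (by linarith)
  have main : ∀ m : ℕ, 1 ≤ m → (b - a) / m ≤ c →
      ‖Ψ G ζ‖ ^ 2 ≤ (m + 1) * (‖G‖ * (B * ((b - a) / m))) ^ 2 := by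
    intro m hm hwc
    have hm0 : (0 : ℝ) < m := by exact_mod_cast hm
    set w := (b - a) / m with hw
    have hw0 : 0 < w := div_pos (by linarith) hm0
    have hbw : a + m * w = b := by rw [hw]; field_simp; ring
    have e1 : star G * G = ∑ k ∈ Finset.range (m + 1), star (G * fB a w k) * (G * fB a w k) := by
      ext ρ
      rw [BoundedContinuousFunction.coe_sum, Finset.sum_apply,
        BoundedContinuousFunction.mul_apply, BoundedContinuousFunction.star_apply]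
      have e2 : ∀ k ∈ Finset.range (m + 1), (star (G * fB a w k) * (G * fB a w k)) ρ =
          (star (G ρ) * G ρ) * ((tn a w k ρ : ℝ) : ℂ) := by
        intro k _
        rw [BoundedContinuousFunction.mul_apply, BoundedContinuousFunction.star_apply,
          BoundedContinuousFunction.mul_apply, fB_apply, star_mul, Complex.star_def,
          Complex.conj_ofReal]
        have h2 : ((tn a w k ρ : ℝ) : ℂ) = ((Real.sqrt (tn a w k ρ) : ℝ) : ℂ) *
            ((Real.sqrt (tn a w k ρ) : ℝ) : ℂ) := by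
          rw [← Complex.ofReal_mul, Real.mul_self_sqrt (tn_nonneg _ _ _ _)]
        rw [h2]
        ring
      rw [Finset.sum_congr rfl e2, ← Finset.mul_sum, ← Complex.ofReal_sum]
      by_cases hρ : ρ ∈ Set.Icc a b
      · rw [tn_sum hw0 m hρ.1 (by rw [hbw]; exact hρ.2), Complex.ofReal_one, mul_one]
      · rw [hG ρ hρ, mul_zero, zero_mul]
    rw [← Sum.q_star_mul, e1, Sum.q_sum]
    have h2 : ∀ k ∈ Finset.range (m + 1), Sum.q Ψ ζ (star (G * fB a w k) * (G * fB a w k)) ≤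
        (‖G‖ * (B * w)) ^ 2 := by
      intro k _
      rw [Sum.q_star_mul]
      refine pow_le_pow_left₀ (norm_nonneg _) ?_ 2
      rw [map_mul]
      change ‖Ψ G (Ψ (fB a w k) ζ)‖ ≤ _
      refine (psi_le Ψ _ _).trans (mul_le_mul_of_nonneg_left ?_ (norm_nonneg _))
      have h3 := window hC h1 hn hp (c := c) (κ := a + k * w) (w := w) hc0
        (by have : (0 : ℝ) ≤ k * w := by positivity
            rw [hcdef]; linarith) hw0 hwc
        (F := fB a w k) (f := fun ρ => Real.sqrt (tn a w k ρ)) (fun ρ => rfl)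
        (fun ρ => Real.sqrt_nonneg _) (fun ρ => Real.sqrt_le_one.2 (tn_le _ _ _ _))
        (fun ρ hρ => by
          change Real.sqrt (tn a w k ρ) = 0
          rw [tn_zero hw0 hρ, Real.sqrt_zero])
      refine h3.trans (le_of_eq ?_)
      rw [hB]
      ring
    refine (Finset.sum_le_sum h2).trans (le_of_eq ?_)
    rw [Finset.sum_const, Finset.card_range, nsmul_eq_mul]
    push_cast
    ring
  have hlim : Tendsto (fun m : ℕ => ((m : ℝ) + 1) * (‖G‖ * (B * ((b - a) / m))) ^ 2) atTop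
      (𝓝 0) := by
    have e : ∀ m : ℕ, 1 ≤ m → ((m : ℝ) + 1) * (‖G‖ * (B * ((b - a) / m))) ^ 2 =
        (‖G‖ * (B * (b - a))) ^ 2 * ((1 : ℝ) / m + ((1 : ℝ) / m) * ((1 : ℝ) / m)) := by
      intro m hm
      have hm0 : (0 : ℝ) < m := by exact_mod_cast hm
      field_simp
    have h2 : Tendsto (fun m : ℕ => (‖G‖ * (B * (b - a))) ^ 2 *
        ((1 : ℝ) / m + ((1 : ℝ) / m) * ((1 : ℝ) / m))) atTop
        (𝓝 ((‖G‖ * (B * (b - a))) ^ 2 * (0 + 0 * 0))) := by
      have h3 := tendsto_one_div_atTop_nhds_zero_nat (𝕜 := ℝ)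
      exact (h3.add (h3.mul h3)).const_mul _
    rw [mul_zero, add_zero, mul_zero] at h2
    refine h2.congr' ?_
    filter_upwards [eventually_ge_atTop 1] with m hm
    exact (e m hm).symm
  have hev : ∀ᶠ m : ℕ in atTop, (b - a) / m ≤ c := by
    have h2 : Tendsto (fun m : ℕ => (b - a) * ((1 : ℝ) / m)) atTop (𝓝 ((b - a) * 0)) :=
      (tendsto_one_div_atTop_nhds_zero_nat (𝕜 := ℝ)).const_mul _
    rw [mul_zero] at h2
    filter_upwards [h2.eventually (gt_mem_nhds hc0)] with m hm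
    have : (b - a) / m = (b - a) * ((1 : ℝ) / m) := by ring
    rw [this]
    exact hm.le
  have h3 : ‖Ψ G ζ‖ ^ 2 ≤ 0 := by
    refine ge_of_tendsto hlim ?_
    filter_upwards [hev, eventually_ge_atTop 1] with m hm1 hm2
    exact main m hm2 hm1
  have h4 : ‖Ψ G ζ‖ = 0 := by
    have := sq_nonneg ‖Ψ G ζ‖
    exact pow_eq_zero_iff (two_ne_zero) |>.1 (le_antisymm h3 this)
  exact norm_eq_zero.1 h4

end Pool.Agent.Helper78.BC
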