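import Pool.Agent.Helper23.Basic

/-!
# Project BC, module 15: von Neumann algebras without nontrivial projections
-/

open scoped InnerProductSpace Topology
open ContinuousLinearMap

namespace Pool.Agent.Helper78.BC

variable {H : Type*} [NormedAddCommGroup H] [InnerProductSpace ℂ H] [CompleteSpace H]

private theorem cfc_mem (B : VonNeumannAlgebra H) {x : H →L[ℂ] H} (hx : x ∈ B) (f : ℝ → ℝ) :
    cfc f x ∈ B := by
  rw [Pool.Agent.Helper23.mem_iff_commutes]
  intro g hg
  have h1 : Commute x g := by
    have := Pool.Agent.Helper23.mem_comm_iff.1 hg x hx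
    exact this
  exact (h1.cfc_real f).symm

/-- The two halves of the spectrum. -/
private theorem half (B : VonNeumannAlgebra H)
    (hB : ∀ p ∈ B, p * p = p → star p = p → p = 0 ∨ p = 1) {x : H →L[ℂ] H} (hx : x ∈ B)
    (hsa : IsSelfAdjoint x) (c : ℝ) :
    (∀ t ∈ spectrum ℝ x, t ≤ c) ∨ (∀ t ∈ spectrum ℝ x, c ≤ t) := by
  set f := cfc (fun t : ℝ => max (t - c) 0) x with hf
  set g := cfc (fun t : ℝ => max (c - t) 0) x with hg
  have hfB : f ∈ B := cfc_mem B hx _
  have hgf : g * f = 0 := by
    rw [hf, hg, ← cfc_mul (fun t : ℝ => max (c - t) 0) (fun t : ℝ => max (t - c) 0) x]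
    have h0 : (fun t : ℝ => max (c - t) 0 * max (t - c) 0) = fun _ => 0 := by
      funext t
      rcases le_total t c with h | h
      · rw [max_eq_right (sub_nonpos.2 h), mul_zero]
      · rw [max_eq_right (sub_nonpos.2 h), zero_mul]
    rw [h0, cfc_const_zero]
  set V := (f.range).topologicalClosure with hV
  set e := V.starProjection with he
  have hsp : IsStarProjection e := isStarProjection_starProjection
  have heB : e ∈ B := by
    rw [VonNeumannAlgebra.IsStarProjection.mem_iff hsp]
    intro y hy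
    rw [he, Submodule.range_starProjection, Module.End.mem_invtSubmodule]
    intro v hv
    rw [Submodule.mem_comap]
    have h1 : (f.range : Set H) ⊆ y ⁻¹' (V : Set H) := by
      rintro _ ⟨w, rfl⟩
      refine Submodule.le_topologicalClosure _ ⟨y w, ?_⟩
      exact Pool.Agent.Helper23.commute_apply hfB hy w
    have h2 : closure (f.range : Set H) ⊆ y ⁻¹' (V : Set H) :=
      closure_minimal h1 ((Submodule.isClosed_topologicalClosure _).preimage y.continuous)
    exact h2 hv
  rcases hB e heB hsp.isIdempotentElem hsp.isSelfAdjoint with h0 | h1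
  · left
    have hf0 : f = 0 := by
      ext v
      have h2 : f v ∈ V := Submodule.le_topologicalClosure _ ⟨v, rfl⟩
      have h3 : e (f v) = f v := Submodule.starProjection_eq_self_iff.2 h2
      rw [← h3, h0]
      rfl
    have h2 : cfc (fun t : ℝ => max (t - c) 0) x = cfc (fun _ : ℝ => (0 : ℝ)) x := by
      rw [← hf, hf0, cfc_const_zero]
    have h3 := eqOn_of_cfc_eq_cfc h2
    intro t ht
    have h4 := h3 ht
    have h5 : max (t - c) 0 = 0 := h4
    have := le_max_left (t - c) 0
    linarith
  · right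
    have hg0 : g = 0 := by
      ext v
      have h2 : v ∈ V := by
        rw [← Submodule.starProjection_eq_self_iff, ← he, h1]
        rfl
      have h3 : (f.range : Set H) ⊆ {w | g w = 0} := by
        rintro _ ⟨w, rfl⟩
        exact congrArg (fun T : H →L[ℂ] H => T w) hgf
      have h4 : closure (f.range : Set H) ⊆ {w | g w = 0} :=
        closure_minimal h3 (isClosed_eq g.continuous continuous_const)
      exact h4 h2
    have h2 : cfc (fun t : ℝ => max (c - t) 0) x = cfc (fun _ : ℝ => (0 : ℝ)) x := by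
      rw [← hg, hg0, cfc_const_zero]
    have h3 := eqOn_of_cfc_eq_cfc h2
    intro t ht
    have h4 := h3 ht
    have h5 : max (c - t) 0 = 0 := h4
    have := le_max_left (c - t) 0
    linarith

private theorem sa_scalar (B : VonNeumannAlgebra H)
    (hB : ∀ p ∈ B, p * p = p → star p = p → p = 0 ∨ p = 1) {x : H →L[ℂ] H} (hx : x ∈ B)
    (hsa : IsSelfAdjoint x) : ∃ c : ℂ, x = c • (1 : H →L[ℂ] H) := by
  have h1 : ∃ s : ℝ, ∀ t ∈ spectrum ℝ x, t = s := by
    rcases (spectrum ℝ x).eq_empty_or_nonempty with he | ⟨s, hs⟩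
    · exact ⟨0, fun t ht => by rw [he] at ht; exact ht.elim⟩
    · refine ⟨s, fun t ht => ?_⟩
      by_contra hne
      rcases lt_or_gt_of_ne hne with h | h
      · rcases half B hB hx hsa ((t + s) / 2) with h2 | h2
        · have := h2 s hs
          linarith
        · have := h2 t ht
          linarith
      · rcases half B hB hx hsa ((t + s) / 2) with h2 | h2
        · have := h2 t ht
          linarith
        · have := h2 s hs
          linarith
  obtain ⟨s, hs⟩ := h1
  refine ⟨(s : ℂ), ?_⟩
  have h2 : cfc (fun t : ℝ => t) x = cfc (fun _ : ℝ => s) x := cfc_congr fun t ht => hs t ht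
  have h3 : cfc (fun t : ℝ => t) x = x := cfc_id' ℝ x
  rw [h3, cfc_const s x hsa] at h2
  rw [h2, Algebra.algebraMap_eq_smul_one]
  ext v
  simp

theorem scalar_of_proj (B : VonNeumannAlgebra H)
    (hB : ∀ p ∈ B, p * p = p → star p = p → p = 0 ∨ p = 1) :
    ∀ x ∈ B, ∃ c : ℂ, x = c • (1 : H →L[ℂ] H) := by
  intro x hx
  have hx' : star x ∈ B := star_mem hx
  have ha : ((2 : ℂ)⁻¹ • (x + star x)) ∈ B :=
    Pool.Agent.Helper23.smul_mem' _ (add_mem hx hx')
  have hb : ((-Complex.I * (2 : ℂ)⁻¹) • (x - star x)) ∈ B :=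
    Pool.Agent.Helper23.smul_mem' _ (sub_mem hx hx')
  have ha' : IsSelfAdjoint ((2 : ℂ)⁻¹ • (x + star x)) := by
    rw [IsSelfAdjoint, star_smul, star_add, star_star, add_comm (star x) x]
    congr 1
    simp
  have hb' : IsSelfAdjoint ((-Complex.I * (2 : ℂ)⁻¹) • (x - star x)) := by
    rw [IsSelfAdjoint, star_smul, star_sub, star_star, ← neg_sub x (star x), smul_neg, ← neg_smul]
    congr 1
    simp
  obtain ⟨c, hc⟩ := sa_scalar B hB ha ha'
  obtain ⟨d, hd⟩ := sa_scalar B hB hb hb'
  refine ⟨c + Complex.I * d, ?_⟩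
  rw [add_smul, mul_smul, ← hc, ← hd, smul_smul]
  have h1 : Complex.I * (-Complex.I * (2 : ℂ)⁻¹) = (2 : ℂ)⁻¹ := by
    rw [← mul_assoc, mul_neg, Complex.I_mul_I, neg_neg, one_mul]
  rw [h1, ← smul_add]
  have h2 : x + star x + (x - star x) = (2 : ℂ) • x := by
    rw [two_smul]
    abel
  rw [h2, smul_smul]
  norm_num

end Pool.Agent.Helper78.BC
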