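import Pool.Agent.Helper78.BC.Defs
import Pool.Agent.Helper43.TTF.G
import Pool.Agent.Helper70.U8

/-!
# Project BC, module 16: existence of the standard form
-/

open scoped InnerProductSpace Topology BoundedContinuousFunction
open ContinuousLinearMap Filter

namespace Pool.Agent.Helper78.BC.StdEx

open Pool.Agent.Helper23 Pool.Agent.Helper70.U8
open Pool.Agent.Helper43.TTF (FC JD FT FT_apply FR_apply)

variable {H : Type*} [NormedAddCommGroup H] [InnerProductSpace ℂ H] [CompleteSpace H]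
variable {A : VonNeumannAlgebra H} {ξ : H} {R : H →L[ℂ] H} {D : H →L[ℝ] H}
  {Ψ : (ℝ →ᵇ ℂ) →⋆ₐ[ℂ] (H →L[ℂ] H)} {J : H →L[ℝ] H}

lemma ext_dense (h' : TTData A ξ R D) (hF : FC R D Ψ) (p : H → Prop) (hp : IsClosed {v | p v})
    (h1 : ∀ v, p (Ψ FT v)) (v : H) : p v := by
  have hsub : Set.range (Ψ FT) ⊆ {v | p v} := by
    rintro _ ⟨w, rfl⟩
    exact h1 w
  exact closure_minimal hsub hp (hF.T_dense h' v)

lemma psi_J' (h' : TTData A ξ R D) (hF : FC R D Ψ) (hJ : JD D Ψ J) (G G' : ℝ →ᵇ ℂ)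
    (hG : ∀ ρ, G' ρ = (starRingEnd ℂ) (G (-ρ))) (v : H) : J (Ψ G v) = Ψ G' (J v) := by
  refine ext_dense h' hF (fun v => J (Ψ G v) = Ψ G' (J v))
    (isClosed_eq (by fun_prop) (by fun_prop)) (fun v => ?_) v
  have h1 : Ψ G (Ψ FT v) = Ψ FT (Ψ G v) := by
    rw [← psi_mul_apply, mul_comm, psi_mul_apply]
  rw [h1, hJ.J_T, hJ.J_T, hF.psi_D G G' hG]

lemma psi_half' (h' : TTData A ξ R D) (hF : FC R D Ψ) (hJ : JD D Ψ J) (G G' : ℝ →ᵇ ℂ)
    (hG : ∀ ρ, G' ρ = ((Real.exp (ρ / 2) : ℝ) : ℂ) * G ρ) {a : H →L[ℂ] H} (ha : a ∈ A) :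
    Ψ G (J ((star a) ξ)) = Ψ G' (a ξ) := by
  rw [← sub_eq_zero]
  refine hF.T_inj h' _ ?_
  have h2 : D ((star a) ξ) = Ψ (2 - FR) (a ξ) := by
    rw [h'.D_mem _ (star_mem ha), star_star, map_sub, hF.psi_FR,
      Pool.Agent.Helper43.TTF.psi_two, sub_apply, smul_apply, one_apply_eq_self]
  have h3 : Ψ FT (Ψ G (J ((star a) ξ))) = Ψ G (Ψ FT (J ((star a) ξ))) := by
    rw [← psi_mul_apply, mul_comm, psi_mul_apply]
  have h4 : G * (2 - FR) = FT * G' := by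
    ext ρ
    rw [BoundedContinuousFunction.mul_apply, BoundedContinuousFunction.mul_apply, two_sub_FR, hG]
    ring
  rw [map_sub, h3, hJ.T_J, h2, ← psi_mul_apply, ← psi_mul_apply, h4, sub_self]

/-- the Gaussians converge to one -/
lemma psi_gauss (hF : FC R D Ψ) (v : H) :
    Tendsto (fun n : ℕ => Ψ (GB (1 / ((n : ℝ) + 1)) (by positivity) 0) v) atTop (𝓝 v) := by
  have h1 := hF.psi_cont (fun n : ℕ => GB (1 / ((n : ℝ) + 1)) (by positivity) 0) 1 1 ?_ ?_ v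
  · rwa [map_one, one_apply_eq_self] at h1
  · intro n
    refine (BoundedContinuousFunction.norm_le zero_le_one).2 fun ρ => ?_
    rw [GB_apply, Complex.norm_real, Real.norm_of_nonneg (Real.exp_pos _).le, zero_mul, add_zero]
    refine Real.exp_le_one_iff.2 ?_
    have : 0 ≤ 1 / ((n : ℝ) + 1) * ρ ^ 2 := by positivity
    linarith
  · intro L
    rw [Metric.tendstoUniformlyOn_iff]
    intro ε hε
    obtain ⟨m, hm⟩ := exists_nat_gt (L ^ 2 / ε)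
    filter_upwards [eventually_ge_atTop m] with n hn ρ hρ
    have h2 : (0 : ℝ) < 1 / ((n : ℝ) + 1) := by positivity
    have h3 := (one_sub_norm_apply h2 ρ).trans (min_le_right _ _)
    rw [BoundedContinuousFunction.sub_apply] at h3
    rw [dist_eq_norm]
    refine h3.trans_lt ?_
    have h4 : ρ ^ 2 ≤ L ^ 2 := by
      rw [Set.mem_Icc] at hρ
      exact sq_le_sq' (by linarith [hρ.1]) hρ.2
    have h5 : (m : ℝ) ≤ n := by exact_mod_cast hn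
    have h6 : L ^ 2 / ε < (n : ℝ) + 1 := by linarith
    rw [div_lt_iff₀ hε] at h6
    rw [one_div, inv_mul_lt_iff₀ (by positivity)]
    linarith

lemma J_pos' (h' : TTData A ξ R D) (hF : FC R D Ψ) (hJ : JD D Ψ J) {a : H →L[ℂ] H}
    (ha : a ∈ A) : 0 ≤ (⟪J (a ξ), (star a) ξ⟫_ℂ).re := by
  have h1 : Tendsto (fun n : ℕ => (⟪Ψ (GB (1 / ((n : ℝ) + 1)) (by positivity) 0) (J (a ξ)),
      (star a) ξ⟫_ℂ).re) atTop (𝓝 (⟪J (a ξ), (star a) ξ⟫_ℂ).re) :=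
    (Complex.continuous_re.tendsto _).comp ((psi_gauss hF (J (a ξ))).inner tendsto_const_nhds)
  refine ge_of_tendsto' h1 fun n => ?_
  have hε : (0 : ℝ) < 1 / ((n : ℝ) + 1) := by positivity
  have h2 := psi_half' h' hF hJ (GB _ hε 0) (GB _ hε (1 / 2)) (fun ρ => by
    rw [GB_apply, GB_apply, ← Complex.ofReal_mul, ← Real.exp_add]
    congr 2
    ring) (star_mem ha)
  rw [star_star] at h2
  have h3 : GB _ hε (1 / 2) = star (GB _ (half_pos hε) (1 / 4)) * GB _ (half_pos hε) (1 / 4) := by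
    ext ρ
    rw [BoundedContinuousFunction.mul_apply, BoundedContinuousFunction.star_apply, GB_apply,
      GB_apply, Complex.star_def, Complex.conj_ofReal, ← Complex.ofReal_mul, ← Real.exp_add]
    congr 2
    ring
  rw [h2, h3, psi_mul_apply, map_star, inner_star_left, inner_self_eq_norm_sq_to_K]
  have h4 : (((‖Ψ (GB _ (half_pos hε) (1 / 4)) ((star a) ξ)‖ : ℂ)) ^ 2).re =
    ‖Ψ (GB _ (half_pos hε) (1 / 4)) ((star a) ξ)‖ ^ 2 := by norm_cast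
  exact h4.symm ▸ sq_nonneg _

/-- division by the Gaussian -/
lemma exists_quot (G : ℝ →ᵇ ℂ) (hG : HasCompactSupport G) :
    ∃ G₁ : ℝ →ᵇ ℂ, G = GB 1 one_pos 0 * G₁ := by
  have hc : Continuous fun ρ : ℝ => ((Real.exp (ρ ^ 2) : ℝ) : ℂ) * G ρ := by fun_prop
  have hs : HasCompactSupport fun ρ : ℝ => ((Real.exp (ρ ^ 2) : ℝ) : ℂ) * G ρ :=
    hG.mul_left
  obtain ⟨C, hC⟩ := hs.exists_bound_of_continuous hc
  refine ⟨BoundedContinuousFunction.ofNormedAddCommGroup _ hc C hC, ?_⟩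
  ext ρ
  rw [BoundedContinuousFunction.mul_apply, GB_apply]
  change G ρ = _ * (((Real.exp (ρ ^ 2) : ℝ) : ℂ) * G ρ)
  rw [← mul_assoc, ← Complex.ofReal_mul, ← Real.exp_add]
  have h1 : -(1 * ρ ^ 2) + 0 * ρ + ρ ^ 2 = 0 := by ring
  rw [h1, Real.exp_zero, Complex.ofReal_one, one_mul]

lemma core' (h : Modular A ξ R D Ψ) (hF : FC R D Ψ) (hJ : JD D Ψ J)
    (hcyc : ∀ v : H, ∀ ε : ℝ, 0 < ε → ∃ a ∈ A, ‖a ξ - v‖ < ε) (G G' : ℝ →ᵇ ℂ)
    (hG : HasCompactSupport G) (hG' : ∀ ρ, G' ρ = ((Real.exp (ρ / 2) : ℝ) : ℂ) * G ρ)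
    (θ : H) (ε : ℝ) (hε : 0 < ε) :
    ∃ b ∈ A, ‖b ξ - Ψ G θ‖ ≤ ε ∧ ‖J ((star b) ξ) - Ψ G' θ‖ ≤ ε := by
  obtain ⟨G₁, hG₁⟩ := exists_quot G hG
  set g : ℝ →ᵇ ℂ := GB 1 one_pos 0 with hg
  set g' : ℝ →ᵇ ℂ := GB 1 one_pos (1 / 2) with hg'
  have e1 : ∀ ρ, g' ρ = ((Real.exp (ρ / 2) : ℝ) : ℂ) * g ρ := by
    intro ρ
    rw [hg, hg', GB_apply, GB_apply, ← Complex.ofReal_mul, ← Real.exp_add]
    congr 2
    ring
  have e2 : G' = g' * G₁ := by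
    ext ρ
    rw [hG', hG₁, BoundedContinuousFunction.mul_apply, BoundedContinuousFunction.mul_apply, e1]
    ring
  set C : ℝ := ‖Ψ g‖ + ‖Ψ g'‖ + 1 with hC
  have hCpos : 0 < C := by positivity
  obtain ⟨z, hz, hz'⟩ := hcyc (Ψ G₁ θ) (ε / C) (by positivity)
  have hb : ∀ w : H →L[ℂ] H, sm h (kg_int one_pos 0) w ξ = Ψ g (w ξ) := fun w =>
    sm_xi h _ (K := g) (fun ρ => by rw [hg, GB_apply]; exact kg_fourier one_pos _ ρ) w
  have key : ∀ F : ℝ →ᵇ ℂ, ‖Ψ F‖ ≤ C → ‖Ψ F (z ξ) - Ψ F (Ψ G₁ θ)‖ ≤ ε := by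
    intro F hFC
    rw [← map_sub]
    refine ((Ψ F).le_opNorm _).trans ?_
    calc ‖Ψ F‖ * ‖z ξ - Ψ G₁ θ‖ ≤ C * (ε / C) :=
          mul_le_mul hFC hz'.le (norm_nonneg _) hCpos.le
      _ = ε := by field_simp
  refine ⟨sm h (kg_int one_pos 0) z, sm_mem h _ h.mem hz, ?_, ?_⟩
  · rw [hb, hG₁, psi_mul_apply]
    refine key g ?_
    rw [hC]
    linarith [norm_nonneg (Ψ g')]
  · rw [sm_star h _ (kg_real _), hb, e2, psi_mul_apply]
    have e3 : J (Ψ g ((star z) ξ)) = Ψ g' (z ξ) := by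
      rw [psi_J' h.data hF hJ g g (fun ρ => by
        rw [hg, GB_apply, GB_apply, Complex.conj_ofReal]
        congr 2
        ring) ((star z) ξ)]
      exact psi_half' h.data hF hJ g g' e1 hz
    rw [e3]
    refine key g' ?_
    rw [hC]
    linarith [norm_nonneg (Ψ g)]

end Pool.Agent.Helper78.BC.StdEx

namespace Pool.Agent.Helper78.BC

variable {H : Type*} [NormedAddCommGroup H] [InnerProductSpace ℂ H] [CompleteSpace H]

theorem exists_std (A : VonNeumannAlgebra H) (ξ : H) (hξ : ‖ξ‖ = 1)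
    (hcyc : Dense (Pool.Agent.Helper23.orb A ξ : Set H)) (hsep : ∀ a ∈ A, a ξ = 0 → a = 0) :
    ∃ (J : H →L[ℝ] H) (Ψ : (ℝ →ᵇ ℂ) →⋆ₐ[ℂ] (H →L[ℂ] H)), Std A ξ J Ψ := by
  have hcyc' : Dense (Pool.Agent.Helper23.orb A.commutant ξ : Set H) :=
    Pool.Agent.Helper23.dense_of_separating A ξ hsep
  have h' := Pool.Agent.Helper43.TTF.ttdata A ξ hcyc hsep
  obtain ⟨Ψ, hF⟩ := Pool.Agent.Helper43.TTF.exists_FC h'
  obtain ⟨J, hJ⟩ := hF.exists_J h'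
  have hmod := Pool.Agent.Helper43.TTF.modular_of h' hcyc hsep hF
  have happ : ∀ {B : VonNeumannAlgebra H}, Dense (Pool.Agent.Helper23.orb B ξ : Set H) →
      ∀ v : H, ∀ ε : ℝ, 0 < ε → ∃ a ∈ B, ‖a ξ - v‖ < ε := by
    intro B hB v ε hε
    obtain ⟨w, ⟨a, ha, rfl⟩, hw⟩ := Metric.mem_closure_iff.1 (hB v) ε hε
    refine ⟨a, ha, ?_⟩
    rwa [dist_comm, dist_eq_norm] at hw
  have hcj : ∀ a ∈ A, hJ.cj a ∈ A.commutant := fun a ha =>
    Pool.Agent.Helper43.TTF.cj_mem h' hcyc hcyc' hF hJ ha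
  have hcj' : ∀ b ∈ A.commutant, hJ.cj b ∈ A := by
    intro b hb
    have h1 := Pool.Agent.Helper43.TTF.cj_mem h'.symm hcyc'
      (by rwa [VonNeumannAlgebra.commutant_commutant]) hF.symm hJ.symm hb
    rw [VonNeumannAlgebra.commutant_commutant] at h1
    exact h1
  refine ⟨J, Ψ, ⟨hξ, happ hcyc, happ hcyc', hsep, hJ.J_J, hJ.J_conj, hJ.J_norm, hJ.J_add_inner,
    Pool.Agent.Helper70.U8.J_xi h' hJ hmod, ?_, ?_, fun a ha => StdEx.J_pos' h' hF hJ ha,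
    fun G G' hG v => StdEx.psi_J' h' hF hJ G G' hG v, hF.psi_cont,
    fun G G' hG a ha => StdEx.psi_half' h' hF hJ G G' hG ha,
    fun G G' hG hG' θ ε hε => StdEx.core' hmod hF hJ (happ hcyc) G G' hG hG' θ ε hε⟩⟩
  · intro a ha y hy v
    have h1 : hJ.cj a * y = y * hJ.cj a :=
      (VonNeumannAlgebra.mem_commutant_iff.1 (hcj a ha) y hy).symm
    have h2 := congrArg (fun T : H →L[ℂ] H => T v) h1
    simp only [mul_apply_eq_comp, hJ.cj_apply] at h2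
    exact h2
  · intro b hb
    refine ⟨hJ.cj b, hcj' b hb, fun v => ?_⟩
    rw [hJ.cj_apply, hJ.J_J, hJ.J_J]

end Pool.Agent.Helper78.BC
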