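import Pool.Agent.Helper78.BC.Lip2
import Pool.Agent.Helper78.BC.LipAll
import Pool.Agent.Helper78.BC.Lev
import Pool.Agent.Helper78.BC.Fam
import Pool.Agent.Helper78.BC.FamPsi
import Pool.Agent.Helper78.BC.PsiZero
import Pool.Agent.Helper78.BC.Fix
import Pool.Agent.Helper78.BC.NoProj
import Pool.Agent.Helper78.BC.Scalar
import Pool.Agent.Helper78.BC.StdEx
import Pool.Agent.Helper78.BC.Transport
import Pool.Agent.Helper23.UFin

/-!
# Project BC: the bicentralizer of a type III₁ algebra is trivial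
-/

open scoped InnerProductSpace Topology BoundedContinuousFunction
open ContinuousLinearMap Filter
open Pool.Agent.Helper23.RBF

namespace Pool.Agent.Helper78.BC

universe u

variable {H : Type u} [NormedAddCommGroup H] [InnerProductSpace ℂ H] [CompleteSpace H]

section
variable {A : VonNeumannAlgebra H} {ξ : H} {J : H →L[ℝ] H}
  {Ψ : (ℝ →ᵇ ℂ) →⋆ₐ[ℂ] (H →L[ℂ] H)}

lemma rm_one (h : Std A ξ J Ψ) (v : H) : rm J 1 v = v := by
  simp [rm, h.J_J]

/-- Lipschitz vectors fixed by `J` are fixed by the modular group. -/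
theorem fixed_of_lip (h : Std A ξ J Ψ) (hN : TypeIIIOne A) {ζ : H} (hJ : J ζ = ζ) {K : ℝ}
    (hK : 0 ≤ K) (hu : ∀ u, Un A u → ‖cm J u ζ‖ ≤ K * ‖cm J u ξ‖) : Fixed Ψ ζ := by
  have hC : (0 : ℝ) ≤ 2 * K := by positivity
  obtain ⟨z, hz⟩ := exists_fam h (fun l hl hl1 ε hε => exists_lev h hN hl hl1 hε) hC
    (lip_all h hK hu)
  refine fixed_of h hJ fun a b ha hab G hG => ?_
  refine psi_zero hC hz.one hz.norm ?_ ?_ ha hab hG
  · intro l m hl hl1 hm hm1
    have := hz.rel l m hl hl1 hm hm1 1 (one_mem A)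
    rw [rm_one h, rm_one h, one_apply_eq_self, one_apply_eq_self] at this
    refine this.trans (le_of_eq ?_)
    rw [← sub_smul, norm_smul, h.norm_one, mul_one, ← Complex.ofReal_sub, Complex.norm_real,
      Real.norm_eq_abs]
  · intro l m hl hl1 hm hm1 G G' hG hr hG' s hs
    exact fam_psi h hC hz hl hl1 hm hm1 hG hr hG' hs

lemma Fixed.of_tendsto {η : H} (hη : ∀ r : ℝ, 0 < r → ∃ ζ, ‖ζ - η‖ ≤ r ∧ Fixed Ψ ζ) :
    Fixed Ψ η := by
  intro G
  have hcl : IsClosed {v : H | Ψ G v = G 0 • v} :=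
    isClosed_eq (Ψ G).continuous (continuous_const_smul _)
  refine hcl.closure_subset_iff.2 subset_rfl ?_
  rw [Metric.mem_closure_iff]
  intro ε hε
  obtain ⟨ζ, h1, h2⟩ := hη (ε / 2) (by positivity)
  refine ⟨ζ, h2 G, ?_⟩
  rw [dist_comm, dist_eq_norm]
  linarith

lemma Fixed.smul {v : H} (hv : Fixed Ψ v) (c : ℂ) : Fixed Ψ (c • v) := by
  intro G
  rw [map_smul, hv G, smul_comm]

lemma Fixed.add {v w : H} (hv : Fixed Ψ v) (hw : Fixed Ψ w) : Fixed Ψ (v + w) := by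
  intro G
  rw [map_add, hv G, hw G, smul_add]

theorem fixed_bic (h : Std A ξ J Ψ) (hN : TypeIIIOne A) {x : H →L[ℂ] H} (hx : Bic A ξ x) :
    Fixed Ψ (x ξ) := by
  have h1 : Fixed Ψ (x ξ + J (x ξ)) := Fixed.of_tendsto fun r hr => by
    obtain ⟨ζ, hJ, h2, K, hK, hu⟩ := exists_lip h hx (Or.inl rfl) hr
    exact ⟨ζ, h2, fixed_of_lip h hN hJ hK hu⟩
  have h2 : Fixed Ψ (Complex.I • (x ξ - J (x ξ))) := Fixed.of_tendsto fun r hr => by
    obtain ⟨ζ, hJ, h2, K, hK, hu⟩ := exists_lip h hx (Or.inr rfl) hr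
    exact ⟨ζ, h2, fixed_of_lip h hN hJ hK hu⟩
  have h3 := (h1.add (h2.smul (-Complex.I))).smul (1 / 2)
  convert h3 using 1
  rw [smul_smul, neg_mul, Complex.I_mul_I, neg_neg, one_smul]
  rw [show x ξ + J (x ξ) + (x ξ - J (x ξ)) = (2 : ℂ) • x ξ by rw [two_smul]; abel, smul_smul]
  norm_num

end

/-- Bicentralizer theorem, cyclic case. -/
theorem trivial_cyclic (A : VonNeumannAlgebra H) (ξ : H) (hξ : ‖ξ‖ = 1)
    (hcyc : Dense (Pool.Agent.Helper23.orb A ξ : Set H)) (hsep : ∀ a ∈ A, a ξ = 0 → a = 0)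
    (hN : TypeIIIOne A) : TrivialBicentralizer A ξ := by
  obtain ⟨J, Ψ, h⟩ := exists_std A ξ hξ hcyc hsep
  have S : Pool.Agent.Helper23.Setting A A (fun x => x) ξ :=
    { le := fun x hx => hx
      norm_one := hξ
      cyc := hcyc
      sep := hsep
      E_mem := fun x hx => hx
      E_bimod := fun a _ b _ x _ => rfl
      E_fix := fun x _ => rfl
      E_state := fun x _ => rfl }
  have key : ∀ x, Bic A ξ x ↔ x ∈ S.Balg := fun x => Iff.rfl
  have hB := scalar_of_proj S.Balg fun p hp hpp hps => by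
    have hp' : Bic A ξ p := (key p).2 hp
    refine no_proj h hN hp' hpp hps ?_
    have := J_of_fixed h hp'.1 (fixed_bic h hN hp')
    rwa [hps] at this
  intro x hx hx'
  exact hB x ((key x).1 ⟨hx, hx'⟩)

/-- Connes' bicentralizer problem: the bicentralizer of a type III₁ algebra is trivial. -/
theorem trivialBicentralizer (A : VonNeumannAlgebra H) (ξ : H) (hξ : ‖ξ‖ = 1)
    (hsep : ∀ a ∈ A, a ξ = 0 → a = 0) (hA : TypeIIIOne A) : TrivialBicentralizer A ξ :=
  transport (fun K _ _ _ B κ h1 h2 h3 h4 => trivial_cyclic B κ h1 h2 h3 h4) A ξ hξ hsep hA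

end Pool.Agent.Helper78.BC
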