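import Pool.Agent.Helper78.BC.Defs

/-!
# Project BC, module 8: the Powers-Stormer inequality in the natural cone
-/

open scoped InnerProductSpace Topology BoundedContinuousFunction
open ContinuousLinearMap Filter

namespace Pool.Agent.Helper78.BC

variable {H : Type*} [NormedAddCommGroup H] [InnerProductSpace ℂ H] [CompleteSpace H]
variable {A : VonNeumannAlgebra H} {ξ : H} {J : H →L[ℝ] H}
  {Ψ : (ℝ →ᵇ ℂ) →⋆ₐ[ℂ] (H →L[ℂ] H)}

namespace PS

omit [CompleteSpace H] in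
/-- nearest point in a closed convex cone -/
lemma cone_proj (K : Set H) (hK : IsComplete K) (h0 : (0 : H) ∈ K)
    (hadd : ∀ v ∈ K, ∀ w ∈ K, v + w ∈ K)
    (hsm : ∀ t : ℝ, 0 ≤ t → ∀ v ∈ K, (t : ℂ) • v ∈ K) (d : H) :
    ∃ p ∈ K, (∀ q ∈ K, 0 ≤ (⟪p - d, q⟫_ℂ).re) ∧ (⟪p - d, p⟫_ℂ).re = 0 := by
  let _ : InnerProductSpace ℝ H := InnerProductSpace.rclikeToReal ℂ H
  have hsm' : ∀ t : ℝ, 0 ≤ t → ∀ v ∈ K, t • v ∈ K := by
    intro t ht v hv
    have := hsm t ht v hv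
    have h2 : (t : ℂ) • v = t • v := by
      exact (RCLike.real_smul_eq_coe_smul (K := ℂ) t v).symm
    rw [← h2]; exact this
  have hconv : Convex ℝ K := by
    intro v hv w hw s t hs ht hst
    exact hadd _ (hsm' s hs v hv) _ (hsm' t ht w hw)
  obtain ⟨p, hp, hmin⟩ := exists_norm_eq_iInf_of_complete_convex ⟨0, h0⟩ hK hconv d
  have h1 := (norm_eq_iInf_iff_real_inner_le_zero hconv hp).1 hmin
  have h2 : ∀ q ∈ K, (⟪d - p, q - p⟫_ℂ).re ≤ 0 := by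
    intro q hq
    have := h1 q hq
    exact this
  have h3 := h2 0 h0
  have h4 := h2 (p + p) (hadd p hp p hp)
  rw [zero_sub, inner_neg_right] at h3
  rw [add_sub_cancel_right] at h4
  rw [Complex.neg_re] at h3
  have h5 : (⟪d - p, p⟫_ℂ).re = 0 := le_antisymm h4 (by linarith)
  have h6 : p - d = -(d - p) := by abel
  refine ⟨p, hp, ?_, ?_⟩
  · intro q hq
    have := h2 q hq
    rw [inner_sub_right, Complex.sub_re, h5] at this
    rw [h6, inner_neg_left, Complex.neg_re]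
    linarith
  · rw [h6, inner_neg_left, Complex.neg_re, h5, neg_zero]

lemma J_real (h : Std A ξ J Ψ) (t : ℝ) (v : H) : J ((t : ℂ) • v) = (t : ℂ) • J v := by
  rw [h.J_conj, Complex.conj_ofReal]

lemma inner_J (h : Std A ξ J Ψ) (v w : H) : ⟪v, J w⟫_ℂ = ⟪w, J v⟫_ℂ := by
  have := h.J_inner (J v) w
  rw [h.J_J] at this
  exact this

lemma pos0 (h : Std A ξ J Ψ) {a b : H →L[ℂ] H} (ha : a ∈ A) (hb : b ∈ A) :
    0 ≤ (⟪a (J (a ξ)), b (J (b ξ))⟫_ℂ).re := by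
  have hc : star b * a ∈ A := mul_mem (star_mem hb) ha
  have e1 : ⟪a (J (a ξ)), b (J (b ξ))⟫_ℂ = ⟪(star b * a) (J (a ξ)), J (b ξ)⟫_ℂ := by
    rw [ContinuousLinearMap.star_eq_adjoint]
    change _ = ⟪(adjoint b) (a (J (a ξ))), J (b ξ)⟫_ℂ
    rw [ContinuousLinearMap.adjoint_inner_left]
  have e2 : ⟪(star b * a) (J (a ξ)), J (b ξ)⟫_ℂ = ⟪b ξ, J ((star b * a) (J (a ξ)))⟫_ℂ :=
    inner_J h _ _
  have e3 : J ((star b * a) (J (a ξ))) = a (J ((star b * a) ξ)) := by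
    rw [h.J_comm _ hc _ ha ξ, h.J_xi]
  have e4 : ⟪b ξ, a (J ((star b * a) ξ))⟫_ℂ = ⟪(star (star b * a)) ξ, J ((star b * a) ξ)⟫_ℂ := by
    rw [star_mul, star_star, ContinuousLinearMap.star_eq_adjoint]
    change _ = ⟪(adjoint a) (b ξ), J ((adjoint b * a) ξ)⟫_ℂ
    rw [ContinuousLinearMap.adjoint_inner_left]
  rw [e1, e2, e3, e4]
  have e5 := h.J_pos _ hc
  rw [← inner_conj_symm, Complex.conj_re]
  exact e5

lemma P0_pos (h : Std A ξ J Ψ) {v w : H} (hv : v ∈ P0 A ξ J) (hw : w ∈ P0 A ξ J) :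
    0 ≤ (⟪v, w⟫_ℂ).re := by
  obtain ⟨n, a, ha, rfl⟩ := hv
  obtain ⟨m, b, hb, rfl⟩ := hw
  rw [sum_inner, Complex.re_sum]
  refine Finset.sum_nonneg fun i _ => ?_
  rw [inner_sum, Complex.re_sum]
  exact Finset.sum_nonneg fun j _ => pos0 h (ha i) (hb j)

lemma Pc_pos (h : Std A ξ J Ψ) {v w : H} (hv : v ∈ Pc A ξ J) (hw : w ∈ Pc A ξ J) :
    0 ≤ (⟪v, w⟫_ℂ).re := by
  have h1 : ∀ w ∈ P0 A ξ J, ∀ v ∈ Pc A ξ J, 0 ≤ (⟪v, w⟫_ℂ).re := by
    intro w hw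
    have hcl : IsClosed {v : H | 0 ≤ (⟪v, w⟫_ℂ).re} := by
      refine isClosed_le continuous_const ?_
      exact Complex.continuous_re.comp (continuous_id.inner continuous_const)
    have hsub : P0 A ξ J ⊆ {v : H | 0 ≤ (⟪v, w⟫_ℂ).re} := fun v hv => P0_pos h hv hw
    intro v hv
    exact closure_minimal hsub hcl hv
  have hcl : IsClosed {w : H | 0 ≤ (⟪v, w⟫_ℂ).re} := by
    refine isClosed_le continuous_const ?_
    exact Complex.continuous_re.comp (continuous_const.inner continuous_id)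
  have hsub : P0 A ξ J ⊆ {w : H | 0 ≤ (⟪v, w⟫_ℂ).re} := fun w hw => h1 w hw v hv
  exact closure_minimal hsub hcl hw

lemma P0_J (h : Std A ξ J Ψ) {v : H} (hv : v ∈ P0 A ξ J) : J v = v := by
  obtain ⟨n, a, ha, rfl⟩ := hv
  rw [map_sum]
  refine Finset.sum_congr rfl fun i _ => ?_
  rw [h.J_comm _ (ha i) _ (ha i) ξ, h.J_xi]

lemma Pc_J (h : Std A ξ J Ψ) {v : H} (hv : v ∈ Pc A ξ J) : J v = v := by
  have hcl : IsClosed {v : H | J v = v} := isClosed_eq J.continuous continuous_id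
  have hsub : P0 A ξ J ⊆ {v : H | J v = v} := fun v hv => P0_J h hv
  exact closure_minimal hsub hcl hv

lemma P0_zero : (0 : H) ∈ P0 A ξ J := ⟨0, fun i => i.elim0, fun i => i.elim0, by simp⟩

lemma P0_add {v w : H} (hv : v ∈ P0 A ξ J) (hw : w ∈ P0 A ξ J) : v + w ∈ P0 A ξ J := by
  obtain ⟨n, a, ha, rfl⟩ := hv
  obtain ⟨m, b, hb, rfl⟩ := hw
  refine ⟨n + m, Fin.append a b, ?_, ?_⟩
  · intro i
    refine Fin.addCases (fun i => ?_) (fun i => ?_) i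
    · rw [Fin.append_left]; exact ha i
    · rw [Fin.append_right]; exact hb i
  · rw [Fin.sum_univ_add]
    simp only [Fin.append_left, Fin.append_right]

lemma P0_smul (h : Std A ξ J Ψ) {t : ℝ} (ht : 0 ≤ t) {v : H} (hv : v ∈ P0 A ξ J) :
    (t : ℂ) • v ∈ P0 A ξ J := by
  obtain ⟨n, a, ha, rfl⟩ := hv
  refine ⟨n, fun i => ((Real.sqrt t : ℝ) : ℂ) • a i,
    fun i => Pool.Agent.Helper23.smul_mem' _ (ha i), ?_⟩
  rw [Finset.smul_sum]
  refine Finset.sum_congr rfl fun i _ => ?_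
  rw [smul_apply, smul_apply, J_real h,
    map_smul, smul_smul, ← Complex.ofReal_mul, Real.mul_self_sqrt ht]

lemma P0_inv (h : Std A ξ J Ψ) {a : H →L[ℂ] H} (ha : a ∈ A) {v : H} (hv : v ∈ P0 A ξ J) :
    a (J (a (J v))) ∈ P0 A ξ J := by
  obtain ⟨n, b, hb, rfl⟩ := hv
  refine ⟨n, fun i => a * b i, fun i => mul_mem ha (hb i), ?_⟩
  simp only [map_sum]
  refine Finset.sum_congr rfl fun i _ => ?_
  rw [h.J_comm _ ha _ (hb i) (J (b i ξ)), h.J_J]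
  rfl

lemma Pc_zero : (0 : H) ∈ Pc A ξ J := subset_closure P0_zero

lemma Pc_add {v w : H} (hv : v ∈ Pc A ξ J) (hw : w ∈ Pc A ξ J) : v + w ∈ Pc A ξ J :=
  map_mem_closure₂ continuous_add hv hw fun _ h1 _ h2 => P0_add h1 h2

lemma Pc_smul (h : Std A ξ J Ψ) {t : ℝ} (ht : 0 ≤ t) {v : H} (hv : v ∈ Pc A ξ J) :
    (t : ℂ) • v ∈ Pc A ξ J :=
  map_mem_closure (f := fun v : H => (t : ℂ) • v) (continuous_const_smul _) hv
    fun _ h1 => P0_smul h ht h1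

lemma Pc_inv (h : Std A ξ J Ψ) {a : H →L[ℂ] H} (ha : a ∈ A) {v : H} (hv : v ∈ Pc A ξ J) :
    a (J (a (J v))) ∈ Pc A ξ J :=
  map_mem_closure (f := fun v : H => a (J (a (J v))))
    (a.continuous.comp (J.continuous.comp (a.continuous.comp J.continuous))) hv
    fun _ h1 => P0_inv h ha h1

/-- first variation: the real part -/
lemma orth_re (h : Std A ξ J Ψ) {p m : H} (hp : p ∈ Pc A ξ J) (hJm : J m = m)
    (h1 : ∀ q ∈ Pc A ξ J, 0 ≤ (⟪m, q⟫_ℂ).re) (h2 : (⟪m, p⟫_ℂ).re = 0)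
    {a : H →L[ℂ] H} (ha : a ∈ A) : (⟪m, a p⟫_ℂ).re = 0 := by
  have hJp := Pc_J h hp
  set α := (⟪m, a p⟫_ℂ).re with hα
  set β := (⟪m, a (J (a p))⟫_ℂ).re with hβ
  have e1 : (⟪m, J (a p)⟫_ℂ).re = α := by
    rw [inner_J h, hJm, ← inner_conj_symm, Complex.conj_re]
  have key : ∀ t : ℝ, 0 ≤ t * (2 * α) + t ^ 2 * β := by
    intro t
    have ht : (1 + (t : ℂ) • a) ∈ A :=
      add_mem (one_mem A) (Pool.Agent.Helper23.smul_mem' _ ha)
    have h3 := h1 _ (Pc_inv h ht hp)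
    have e2 : (1 + (t : ℂ) • a) (J ((1 + (t : ℂ) • a) (J p))) =
        p + (t : ℂ) • (a p + J (a p)) + ((t : ℂ) ^ 2) • a (J (a p)) := by
      rw [hJp]
      simp only [add_apply, one_apply_eq_self,
        smul_apply, map_add, J_real h, hJp, map_smul]
      module
    rw [e2, inner_add_right, inner_add_right, inner_smul_right, inner_smul_right,
      inner_add_right, Complex.add_re, Complex.add_re, h2, ← Complex.ofReal_pow,
      Complex.re_ofReal_mul, Complex.re_ofReal_mul, Complex.add_re, e1, ← hα, ← hβ] at h3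
    linarith
  by_contra hne
  have hα2 : 0 < α ^ 2 := by positivity
  have k1 := key (-α / (|β| + 1))
  have hb : 0 < |β| + 1 := by positivity
  have k2 : (-α / (|β| + 1)) * (2 * α) + (-α / (|β| + 1)) ^ 2 * β
      = α ^ 2 / (|β| + 1) * (-2 + β / (|β| + 1)) := by
    field_simp
  rw [k2] at k1
  have k3 : β / (|β| + 1) < 1 := by
    rw [div_lt_one hb]
    linarith [le_abs_self β]
  have k4 : 0 < α ^ 2 / (|β| + 1) := div_pos hα2 hb
  nlinarith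

/-- the parts are orthogonal in the sense of the algebra -/
lemma orth (h : Std A ξ J Ψ) {p m : H} (hp : p ∈ Pc A ξ J) (hJm : J m = m)
    (h1 : ∀ q ∈ Pc A ξ J, 0 ≤ (⟪m, q⟫_ℂ).re) (h2 : (⟪m, p⟫_ℂ).re = 0)
    {a : H →L[ℂ] H} (ha : a ∈ A) : ⟪m, a p⟫_ℂ = 0 := by
  have r1 := orth_re h hp hJm h1 h2 ha
  have r2 := orth_re h hp hJm h1 h2 (Pool.Agent.Helper23.smul_mem' Complex.I ha)
  rw [smul_apply, inner_smul_right, Complex.I_mul_re] at r2
  apply Complex.ext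
  · rw [r1, Complex.zero_re]
  · rw [Complex.zero_im]; linarith

lemma orth' (h : Std A ξ J Ψ) {p m : H} (hp : p ∈ Pc A ξ J) (hJm : J m = m)
    (h1 : ∀ q ∈ Pc A ξ J, 0 ≤ (⟪m, q⟫_ℂ).re) (h2 : (⟪m, p⟫_ℂ).re = 0)
    {b : H →L[ℂ] H} (hb : b ∈ A.commutant) : ⟪m, b p⟫_ℂ = 0 := by
  obtain ⟨a, ha, hab⟩ := h.J_mem b hb
  rw [hab, Pc_J h hp, inner_J h, hJm, ← inner_conj_symm, orth h hp hJm h1 h2 ha, map_zero]

end PS

open PS Pool.Agent.Helper23 in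
/-- Powers-Stormer inequality. -/
theorem powers_stormer (h : Std A ξ J Ψ) {κ κ' : H} (hκ : κ ∈ Pc A ξ J)
    (hκ' : κ' ∈ Pc A ξ J) {ε : ℝ}
    (hε : ∀ x ∈ A, ‖⟪κ, x κ⟫_ℂ - ⟪κ', x κ'⟫_ℂ‖ ≤ ε * ‖x‖) : ‖κ - κ'‖ ^ 2 ≤ ε := by
  have hcomp : IsComplete (Pc A ξ J) := isClosed_closure.isComplete
  obtain ⟨p, hp, h1, h2⟩ := cone_proj (Pc A ξ J) hcomp Pc_zero (fun v hv w hw => Pc_add hv hw)
    (fun t ht v hv => Pc_smul h ht hv) (κ - κ')
  set m := p - (κ - κ') with hm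
  have hJm : J m = m := by
    rw [hm, map_sub, map_sub, Pc_J h hp, Pc_J h hκ, Pc_J h hκ']
  have horth : ∀ b ∈ A.commutant, ⟪m, b p⟫_ℂ = 0 := fun b hb => orth' h hp hJm h1 h2 hb
  have hPm := proj_orb_mem A.commutant p
  rw [VonNeumannAlgebra.commutant_commutant] at hPm
  set V := (orb A.commutant p).topologicalClosure with hV
  have hpV : p ∈ V := Submodule.le_topologicalClosure _ ⟨1, one_mem _, rfl⟩
  have hmV : m ∈ Vᗮ := by
    rw [hV, Submodule.orthogonal_closure]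
    rw [Submodule.mem_orthogonal']
    rintro _ ⟨b, hb, rfl⟩
    exact horth b hb
  have ep : V.starProjection p = p := Submodule.starProjection_eq_self_iff.2 hpV
  have em : V.starProjection m = 0 := (Submodule.starProjection_apply_eq_zero_iff V).2 hmV
  set x : H →L[ℂ] H := (2 : ℂ) • V.starProjection - 1 with hx
  have hxA : x ∈ A := sub_mem (smul_mem' _ hPm) (one_mem A)
  have hxapp : ∀ v, x v = (2 : ℂ) • V.starProjection v - v := fun v => rfl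
  have hxn : ‖x‖ ≤ 1 := by
    refine ContinuousLinearMap.opNorm_le_bound _ zero_le_one fun v => ?_
    rw [one_mul, hxapp]
    have := V.reflection.norm_map v
    rw [Submodule.reflection_apply] at this
    rw [two_smul]
    rw [two_smul] at this
    exact this.le
  have hsa : ∀ v w : H, ⟪x v, w⟫_ℂ = ⟪v, x w⟫_ℂ := by
    intro v w
    rw [hxapp, hxapp, inner_sub_left, inner_sub_right, inner_smul_left, inner_smul_right,
      Submodule.inner_starProjection_left_eq_right]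
    have h2c : (starRingEnd ℂ) (2 : ℂ) = 2 := Complex.conj_ofNat 2
    rw [h2c]
  have xp : x p = p := by rw [hxapp, ep, two_smul, add_sub_cancel_right]
  have xm : x m = -m := by rw [hxapp, em, smul_zero, zero_sub]
  have hd : κ = κ' + (p - m) := by rw [hm]; abel
  have hpm : (⟪p, m⟫_ℂ).re = 0 := by rw [← inner_conj_symm, Complex.conj_re, h2]
  have hdn : ‖κ - κ'‖ ^ 2 = ‖p‖ ^ 2 + ‖m‖ ^ 2 := by
    have e : κ - κ' = p - m := by rw [hm]; abel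
    rw [e, @norm_sub_sq ℂ]
    have : RCLike.re ⟪p, m⟫_ℂ = 0 := hpm
    rw [this]; ring
  have np : (⟪p, p⟫_ℂ).re = ‖p‖ ^ 2 := by
    have := @inner_self_eq_norm_sq ℂ H _ _ _ p
    exact this
  have nm : (⟪m, m⟫_ℂ).re = ‖m‖ ^ 2 := by
    have := @inner_self_eq_norm_sq ℂ H _ _ _ m
    exact this
  have k1 : 0 ≤ (⟪p, κ'⟫_ℂ).re := Pc_pos h hp hκ'
  have k2 : 0 ≤ (⟪m, κ⟫_ℂ).re := h1 κ hκ
  -- the real part of the difference
  have hre : ‖p‖ ^ 2 + ‖m‖ ^ 2 ≤ (⟪κ, x κ⟫_ℂ - ⟪κ', x κ'⟫_ℂ).re := by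
    have f1 : ⟪κ, x κ⟫_ℂ - ⟪κ', x κ'⟫_ℂ
        = ⟪κ', p + m⟫_ℂ + ⟪p + m, κ'⟫_ℂ + ⟪p - m, p + m⟫_ℂ := by
      have xd : x (p - m) = p + m := by rw [map_sub, xp, xm, sub_neg_eq_add]
      have xs : ⟪p - m, x κ'⟫_ℂ = ⟪p + m, κ'⟫_ℂ := by rw [← hsa (p - m) κ', xd]
      rw [hd, map_add, xd, inner_add_left, inner_add_right κ', inner_add_right (p - m) (x κ'), xs]
      ring
    have f2 : (⟪κ', p + m⟫_ℂ).re = (⟪p + m, κ'⟫_ℂ).re := by
      rw [← inner_conj_symm, Complex.conj_re]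
    have f3 : (⟪p - m, p + m⟫_ℂ).re = ‖p‖ ^ 2 - ‖m‖ ^ 2 := by
      rw [inner_sub_left, inner_add_right, inner_add_right, Complex.sub_re, Complex.add_re,
        Complex.add_re, np, nm, hpm, h2]
      ring
    have f4 : (⟪m, κ⟫_ℂ).re = (⟪m, κ'⟫_ℂ).re - ‖m‖ ^ 2 := by
      rw [hd, inner_add_right, inner_sub_right, Complex.add_re, Complex.sub_re, nm, h2]
      ring
    have f5 : (⟪p + m, κ'⟫_ℂ).re = (⟪p, κ'⟫_ℂ).re + (⟪m, κ'⟫_ℂ).re := by
      rw [inner_add_left, Complex.add_re]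
    rw [f1, Complex.add_re, Complex.add_re, f2, f3, f5]
    linarith
  have hne : Nontrivial H := ⟨ξ, 0, fun h0 => by
    have := h.norm_one
    rw [h0, norm_zero] at this
    exact zero_ne_one this⟩
  have hε0 : 0 ≤ ε := by
    have := (norm_nonneg _).trans (hε 1 (one_mem A))
    rwa [norm_one, mul_one] at this
  rw [hdn]
  calc ‖p‖ ^ 2 + ‖m‖ ^ 2 ≤ (⟪κ, x κ⟫_ℂ - ⟪κ', x κ'⟫_ℂ).re := hre
    _ ≤ ‖⟪κ, x κ⟫_ℂ - ⟪κ', x κ'⟫_ℂ‖ := Complex.re_le_norm _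
    _ ≤ ε * ‖x‖ := hε x hxA
    _ ≤ ε * 1 := mul_le_mul_of_nonneg_left hxn hε0
    _ = ε := mul_one ε

end Pool.Agent.Helper78.BC
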